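import Mathlib

/-!
A characteristic set argument for prime ideals of a polynomial ring with shifts.
-/

set_option autoImplicit false

noncomputable section

namespace Pool.Agent.P.MP_0cf807_al

open MvPolynomial Filter

variable {K : Type} [Field K] {W : Type} [LinearOrder W]

/-- Polynomials of degree below `d` in `u` with coefficients in smaller variables. -/
def Low (K : Type) [Field K] (u : W) (d : ℕ) : AddSubgroup (MvPolynomial W K) :=
  AddSubgroup.closure {F | ∃ c ∈ supported K (Set.Iio u), ∃ e < d, F = c * X u ^ e}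

theorem Low.zero {u : W} {F : MvPolynomial W K} (h : F ∈ Low K u 0) : F = 0 := by
  have : Low K u 0 ≤ ⊥ := (AddSubgroup.closure_le _).2 (by rintro _ ⟨_, -, _, h, -⟩; omega)
  exact this h

theorem Low.gen {u : W} {d e : ℕ} {c : MvPolynomial W K} (hc : c ∈ supported K (Set.Iio u))
    (h : e < d) : c * X u ^ e ∈ Low K u d := AddSubgroup.subset_closure ⟨c, hc, e, h, rfl⟩

theorem Low.succ {u : W} {d : ℕ} {F : MvPolynomial W K} (h : F ∈ Low K u (d + 1)) :
    ∃ I ∈ supported K (Set.Iio u), F - I * X u ^ d ∈ Low K u d := by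
  induction h using AddSubgroup.closure_induction with
  | mem F h =>
    obtain ⟨c, hc, e, he, rfl⟩ := h
    rcases (Nat.lt_succ_iff.1 he).lt_or_eq with he | rfl
    · exact ⟨0, zero_mem _, by simpa using Low.gen hc he⟩
    · exact ⟨c, hc, by simp⟩
  | zero => exact ⟨0, zero_mem _, by simp⟩
  | add F G _ _ h1 h2 =>
    obtain ⟨I, hI, h1⟩ := h1
    obtain ⟨J, hJ, h2⟩ := h2
    exact ⟨I + J, add_mem hI hJ, by convert add_mem h1 h2 using 1; ring⟩
  | neg F _ h1 =>
    obtain ⟨I, hI, h1⟩ := h1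
    exact ⟨-I, neg_mem hI, by convert neg_mem h1 using 1; ring⟩

theorem Low.mul {u : W} {d : ℕ} {F c : MvPolynomial W K} (h : F ∈ Low K u d)
    (hc : c ∈ supported K (Set.Iio u)) (k : ℕ) : c * X u ^ k * F ∈ Low K u (d + k) := by
  induction h using AddSubgroup.closure_induction with
  | mem F h =>
    obtain ⟨c', hc', e, he, rfl⟩ := h
    convert Low.gen (mul_mem hc hc') (show e + k < d + k by omega) using 1
    ring
  | zero => simp
  | add F G _ _ h1 h2 => simpa only [mul_add] using add_mem h1 h2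
  | neg F _ h1 => simpa only [mul_neg] using neg_mem h1

theorem Low.mono {u : W} {d d' : ℕ} (h : d ≤ d') : Low K u d ≤ Low K u d' :=
  AddSubgroup.closure_mono fun _ ⟨c, hc, e, he, h'⟩ => ⟨c, hc, e, he.trans_le h, h'⟩

theorem rename_mem_supported {s : W → W} (hs : StrictMono s) {u : W} {c : MvPolynomial W K}
    (hc : c ∈ supported K (Set.Iio u)) : rename s c ∈ supported K (Set.Iio (s u)) := by
  have : supported K (Set.Iio u) ≤ (supported K (Set.Iio (s u))).comap (rename s) := by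
    rw [supported, Algebra.adjoin_le_iff]
    rintro _ ⟨v, hv, rfl⟩
    change rename s (X v) ∈ supported K (Set.Iio (s u))
    rw [rename_X]
    exact X_mem_supported.2 (hs hv)
  exact this hc

theorem Low.rename {s : W → W} (hs : StrictMono s) {u : W} {d : ℕ} {F : MvPolynomial W K}
    (h : F ∈ Low K u d) : rename s F ∈ Low K (s u) d := by
  induction h using AddSubgroup.closure_induction with
  | mem F h =>
    obtain ⟨c', hc', e, he, rfl⟩ := h
    simpa using Low.gen (rename_mem_supported hs hc') he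
  | zero => simp
  | add F G _ _ h1 h2 => simpa only [map_add] using add_mem h1 h2
  | neg F _ h1 => simpa only [map_neg] using neg_mem h1

theorem Low.mul_low {u : W} {d d' : ℕ} {F G : MvPolynomial W K} (h : F ∈ Low K u d)
    (h' : G ∈ Low K u d') : F * G ∈ Low K u (d' + d) := by
  induction h using AddSubgroup.closure_induction with
  | mem F h =>
    obtain ⟨c, hc, e, he, rfl⟩ := h
    exact Low.mono (by omega) (Low.mul h' hc e)
  | zero => simp
  | add F G _ _ h1 h2 => simpa only [add_mul] using add_mem h1 h2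
  | neg F _ h1 => simpa only [neg_mul] using neg_mem h1

theorem exists_low {u : W} {F : MvPolynomial W K} (h : F ∈ supported K (Set.Iic u)) :
    ∃ d, F ∈ Low K u d := by
  induction h using Algebra.adjoin_induction with
  | mem F h =>
    obtain ⟨v, hv, rfl⟩ := h
    rcases (show v ≤ u from hv).lt_or_eq with h | rfl
    · exact ⟨1, by simpa using Low.gen (K := K) (X_mem_supported.2 h) one_pos⟩
    · exact ⟨2, by simpa using Low.gen (K := K) (u := v) (one_mem _) one_lt_two⟩
  | algebraMap a => exact ⟨1, by simpa using Low.gen (Subalgebra.algebraMap_mem _ a) one_pos⟩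
  | add F G _ _ h1 h2 =>
    obtain ⟨d, h1⟩ := h1
    obtain ⟨d', h2⟩ := h2
    exact ⟨d + d', add_mem (Low.mono (by omega) h1) (Low.mono (by omega) h2)⟩
  | mul F G _ _ h1 h2 =>
    obtain ⟨d, h1⟩ := h1
    obtain ⟨d', h2⟩ := h2
    exact ⟨_, Low.mul_low h1 h2⟩

theorem const_or_max (F : MvPolynomial W K) :
    (∃ a, F = C a) ∨ ∃ v ∈ F.vars, F ∈ supported K (Set.Iic v) := by
  rcases F.vars.eq_empty_or_nonempty with h | h
  · exact Or.inl ⟨_, vars_eq_empty_iff_eq_C.1 h⟩
  · exact Or.inr ⟨_, F.vars.max'_mem h, mem_supported.2 fun v hv => F.vars.le_max' v hv⟩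

/-- A shift invariant proper ideal has a finite certificate for containment in prime ideals
that are invariant and reflexive. -/
theorem exists_certificate [WellFoundedLT W] {Θ : Type} (s : Θ → W → W)
    (hs : ∀ θ, StrictMono (s θ))
    (wqo : ∀ T : Set (W × ℕ), ∃ B : Set (W × ℕ), B.Finite ∧ B ⊆ T ∧
      ∀ t ∈ T, ∃ b ∈ B, ∃ θ, s θ b.1 = t.1 ∧ b.2 ≤ t.2)
    (p : Ideal (MvPolynomial W K)) (hp : p ≠ ⊤) (hp' : ∀ θ, ∀ F ∈ p, rename (s θ) F ∈ p) :
    ∃ A I : Set (MvPolynomial W K), A.Finite ∧ I.Finite ∧ (∀ F ∈ A, F ∈ p) ∧ (∀ F ∈ I, F ∉ p) ∧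
      ∀ P : Ideal (MvPolynomial W K), P.IsPrime → (∀ θ F, rename (s θ) F ∈ P ↔ F ∈ P) →
        (∀ F ∈ A, F ∈ P) → (∀ F ∈ I, F ∉ P) → p ≤ P := by
  obtain ⟨B, hB, hBT, hB'⟩ := wqo {t | ∃ I ∈ supported K (Set.Iio t.1), ∃ G ∈ Low K t.1 t.2,
    I ∉ p ∧ I * X t.1 ^ t.2 + G ∈ p}
  have hBT' : ∀ b ∈ B, ∃ I ∈ supported K (Set.Iio b.1), ∃ G ∈ Low K b.1 b.2,
    I ∉ p ∧ I * X b.1 ^ b.2 + G ∈ p := fun b hb => hBT hb
  choose! I hI G hG hIp hAp using hBT'
  refine ⟨(fun b => I b * X b.1 ^ b.2 + G b) '' B, (fun b => I b) '' B, hB.image _, hB.image _,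
    by rintro _ ⟨b, hb, rfl⟩; exact hAp b hb, by rintro _ ⟨b, hb, rfl⟩; exact hIp b hb,
    fun P hP hPs hA hI' => ?_⟩
  have hC : ∀ a, C a ∈ p → C a ∈ P := fun a ha => by
    rcases eq_or_ne a 0 with rfl | h
    · simp
    · exact (hp (p.eq_top_of_isUnit_mem ha (h.isUnit.map C))).elim
  have key : ∀ u, ∀ F ∈ supported K (Set.Iic u), F ∈ p → F ∈ P := by
    intro u
    induction u using WellFoundedLT.induction with
    | ind u ih =>
    have h0 : ∀ F ∈ supported K (Set.Iio u), F ∈ p → F ∈ P := fun F hF hFp => by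
      rcases const_or_max F with ⟨a, rfl⟩ | ⟨v, hv, h⟩
      · exact hC a hFp
      · exact ih v (mem_supported.1 hF hv) F h hFp
    have h1 : ∀ d, ∀ F ∈ Low K u d, F ∈ p → F ∈ P := by
      intro d
      induction d with
      | zero => exact fun F hF _ => Low.zero hF ▸ P.zero_mem
      | succ d ihd =>
        intro F hF hFp
        obtain ⟨J, hJ, hF'⟩ := Low.succ hF
        by_cases hJp : J ∈ p
        · have := ihd _ hF' (p.sub_mem hFp (p.mul_mem_right _ hJp))
          simpa using P.add_mem this (P.mul_mem_right (X u ^ d) (h0 J hJ hJp))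
        obtain ⟨b, hb, θ, h2, h3⟩ := hB' (u, d) ⟨J, hJ, _, hF', hJp, by simpa using hFp⟩
        obtain ⟨k, rfl⟩ := Nat.exists_eq_add_of_le (show b.2 ≤ d from h3)
        obtain rfl : s θ b.1 = u := h2
        have h4 := rename_mem_supported (hs θ) (hI b hb)
        have h5 : rename (s θ) (I b) * F -
            J * X (s θ b.1) ^ k * rename (s θ) (I b * X b.1 ^ b.2 + G b) ∈
            Low K (s θ b.1) (b.2 + k) := by
          have := sub_mem (Low.mul hF' h4 0) (Low.mul (Low.rename (hs θ) (hG b hb)) hJ k)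
          simp only [map_add, map_mul, map_pow, rename_X]
          rw [add_zero] at this
          convert this using 1
          ring
        have h6 := ihd _ h5 (p.sub_mem (p.mul_mem_left _ hFp)
          (p.mul_mem_left _ (hp' θ _ (hAp b hb))))
        have h7 := P.add_mem h6 (P.mul_mem_left (J * X (s θ b.1) ^ k)
          ((hPs θ _).2 (hA _ ⟨b, hb, rfl⟩)))
        rw [sub_add_cancel] at h7
        exact (hP.mem_or_mem h7).resolve_left fun h => hI' _ ⟨b, hb, rfl⟩ ((hPs θ _).1 h)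
    exact fun F hF => (exists_low hF).elim fun d h => h1 d F h
  intro F hF
  rcases const_or_max F with ⟨a, rfl⟩ | ⟨v, -, h⟩
  · exact hC a hF
  · exact key v F h hF

/-- There is no infinite triangular sequence for prime, invariant and reflexive ideals. -/
theorem no_chain [WellFoundedLT W] {Θ : Type} (s : Θ → W → W) (hs : ∀ θ, StrictMono (s θ))
    (wqo : ∀ T : Set (W × ℕ), ∃ B : Set (W × ℕ), B.Finite ∧ B ⊆ T ∧
      ∀ t ∈ T, ∃ b ∈ B, ∃ θ, s θ b.1 = t.1 ∧ b.2 ≤ t.2)
    (P : ℕ → Ideal (MvPolynomial W K)) (hP : ∀ j, (P j).IsPrime)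
    (hPs : ∀ j θ F, rename (s θ) F ∈ P j ↔ F ∈ P j) (F : ℕ → MvPolynomial W K)
    (hF : ∀ i j, i < j → F i ∈ P j) : ∃ j, F j ∈ P j := by
  let U := hyperfilter ℕ
  let p : Ideal (MvPolynomial W K) :=
    { carrier := {G | ∀ᶠ j in U, G ∈ P j}
      zero_mem' := Eventually.of_forall fun j => (P j).zero_mem
      add_mem' := fun h1 h2 => (h1.and h2).mono fun j h => (P j).add_mem h.1 h.2
      smul_mem' := fun c _ h => h.mono fun j h => (P j).mul_mem_left c h }
  obtain ⟨A, I, hA, hI, h1, h2, h3⟩ := exists_certificate s hs wqo p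
    (fun h => by
      obtain ⟨j, hj⟩ := (show ∀ᶠ j in U, (1 : MvPolynomial W K) ∈ P j from
        (Ideal.eq_top_iff_one p).1 h).exists
      exact (hP j).ne_top ((Ideal.eq_top_iff_one _).2 hj))
    fun θ G hG => hG.mono fun j h => (hPs j θ G).2 h
  have h4 : ∀ᶠ j in U, ∀ G ∈ A, G ∈ P j := (eventually_all_finite hA).2 h1
  have h5 : ∀ᶠ j in U, ∀ G ∈ I, G ∉ P j :=
    (eventually_all_finite hI).2 fun G hG => Ultrafilter.eventually_not.2 (h2 G hG)
  obtain ⟨j, h6, h7⟩ := (h4.and h5).exists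
  refine ⟨j, h3 (P j) (hP j) (hPs j) h6 h7 ?_⟩
  exact ((eventually_gt_atTop j).filter_mono Nat.hyperfilter_le_atTop).mono fun k hk => hF j k hk

end Pool.Agent.P.MP_0cf807_al
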