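import Mathlib

set_option autoImplicit false

namespace Pool.Agent.P.MP_0cf807_al

/-- The total weight of a word read by the automaton `δ` from a state, where reading the letter
`a` in the state `q` costs `ω q a` and leads to the state `δ q a`. -/
def wt {Q X : Type} (δ : Q → X → Q) (ω : Q → X → ℕ) : Q → List X → ℕ
  | _, [] => 0
  | q, a :: l => ω q a + wt δ ω (δ q a) l

end Pool.Agent.P.MP_0cf807_al
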