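import Pool.Agent.P.MP_0cf807_al.CharSet

/-!
The chain condition for finitely many families of variables with finitely many commuting shifts.
-/

set_option autoImplicit false

noncomputable section

namespace Pool.Agent.P.MP_0cf807_al

open MvPolynomial

variable {K : Type} [Field K]

theorem dickson {V J : Type} [Finite V] [Finite J] (T : Set ((V × (J → ℕ)) × ℕ)) :
    ∃ B : Set ((V × (J → ℕ)) × ℕ), B.Finite ∧ B ⊆ T ∧
      ∀ t ∈ T, ∃ b ∈ B, ∃ θ : J → ℕ, (b.1.1, b.1.2 + θ) = t.1 ∧ b.2 ≤ t.2 := by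
  let Tv : V → Set ((J → ℕ) × ℕ) := fun v => {a | ((v, a.1), a.2) ∈ T}
  refine ⟨⋃ v, (fun a : (J → ℕ) × ℕ => ((v, a.1), a.2)) '' {a | Minimal (· ∈ Tv v) a},
    Set.finite_iUnion fun v => Set.Finite.image _
      (WellQuasiOrderedLE.finite_of_isAntichain (setOfPred_minimal_antichain _)), ?_, ?_⟩
  · simp only [Set.iUnion_subset_iff]
    rintro v _ ⟨a, ha, rfl⟩
    exact ha.1
  · rintro ⟨⟨v, θ⟩, d⟩ ht
    obtain ⟨b, hb, hb'⟩ := (Set.isPWO_of_wellQuasiOrderedLE (Tv v)).exists_le_minimal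
      (a := (θ, d)) ht
    refine ⟨((v, b.1), b.2), Set.mem_iUnion.2 ⟨v, b, hb', rfl⟩, θ - b.1, ?_, hb.2⟩
    ext j
    · rfl
    · exact Nat.add_sub_cancel' (hb.1 j)

/-- Shift of variables. -/
def shiftV {V J : Type} (θ : J → ℕ) (w : V × (J → ℕ)) : V × (J → ℕ) := (w.1, w.2 + θ)

theorem no_chain_shift {V J : Type} [Finite V] [Finite J]
    (P : ℕ → Ideal (MvPolynomial (V × (J → ℕ)) K)) (hP : ∀ j, (P j).IsPrime)
    (hPs : ∀ j θ F, rename (shiftV θ) F ∈ P j ↔ F ∈ P j) (F : ℕ → MvPolynomial (V × (J → ℕ)) K)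
    (hF : ∀ i j, i < j → F i ∈ P j) : ∃ j, F j ∈ P j := by
  let : LinearOrder V := LinearOrder.lift' (Finite.equivFin V) (Equiv.injective _)
  let : LinearOrder J := LinearOrder.lift' (Finite.equivFin J) (Equiv.injective _)
  let f : V × (J → ℕ) → Lex (J → ℕ) ×ₗ V := fun w => toLex (toLex w.2, w.1)
  have hf : Function.Injective f := fun a b h => by
    have := toLex.injective h
    exact Prod.ext (congrArg Prod.snd this) (toLex.injective (congrArg Prod.fst this))
  let o : LinearOrder (V × (J → ℕ)) := LinearOrder.lift' f hf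
  have hlt : ∀ a b, o.lt a b ↔ f a < f b := fun a b => Iff.rfl
  have wf : @WellFoundedLT _ o.toLT := ⟨InvImage.wf f wellFounded_lt⟩
  refine @no_chain K _ _ o wf _ shiftV (fun θ a b h => ?_) dickson P hP hPs F hF
  have h' : f a < f b := h
  change f _ < f _
  simp only [f, Prod.Lex.toLex_lt_toLex, shiftV] at h' ⊢
  rcases h' with h' | ⟨h1, h2⟩
  · left
    rw [toLex_add, toLex_add]
    exact add_lt_add_left h' _
  · exact Or.inr ⟨by rw [toLex.injective h1], h2⟩

end Pool.Agent.P.MP_0cf807_al
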