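import Pool.Agent.P.MP_0cf807_al.Rep
import Pool.Agent.P.MP_0cf807_al.Shift

/-!
The chain condition for points with few homogeneous components.
-/

set_option autoImplicit false

noncomputable section

namespace Pool.Agent.P.MP_0cf807_al

open MvPolynomial

variable {K : Type} [Field K] {Y Q : Type}

theorem exists_finset_of_no_chain {α β : Type} (S : Set α) (G : β → Prop) (Z : α → β → Prop)
    (h : ∀ (p : ℕ → α) (x : ℕ → β), (∀ j, G (x j)) → (∀ i j, i < j → Z (p i) (x j)) →
      ∃ j, Z (p j) (x j)) :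
    ∃ S₀ : Finset α, ↑S₀ ⊆ S ∧ ∀ x, G x → (∀ p ∈ S₀, Z p x) → ∀ p ∈ S, Z p x := by
  classical
  by_contra hc
  push Not at hc
  choose xx hx hZ pp hp hn using hc
  let T : ℕ → {T : Finset α // ↑T ⊆ S} := fun j => Nat.rec ⟨∅, by simp⟩
    (fun _ T => ⟨insert (pp T.1 T.2) T.1, by
      rw [Finset.coe_insert]; exact Set.insert_subset (hp T.1 T.2) T.2⟩) j
  have hT : Monotone fun j => (T j).1 := monotone_nat_of_le_succ fun j => Finset.subset_insert _ _
  obtain ⟨j, hj⟩ := h (fun j => pp (T j).1 (T j).2) (fun j => xx (T j).1 (T j).2)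
    (fun j => hx _ _) fun i j hij => hZ _ _ _ (hT hij (Finset.mem_insert_self _ _))
  exact hn _ _ hj

/-- Pairs of operators intertwined by a linear map. -/
def inter {M N : Type} [AddCommGroup M] [AddCommGroup N] [Module K M] [Module K N]
    (E : M →ₗ[K] N) : Subalgebra K (Module.End K M × Module.End K N) where
  carrier := {t | ∀ v, E (t.1 v) = t.2 (E v)}
  add_mem' h1 h2 v := by simp [h1 v, h2 v]
  mul_mem' h1 h2 v := by simp [h1 _, h2 v]
  algebraMap_mem' a v := by simp

/-- Specialisation of the universal difference ring. -/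
def ev {V J E : Type} [Fintype J] (w : J → ℕ) (val : V → MvPolynomial (E × ℕ) K) :
    MvPolynomial (V × (J → ℕ)) K →ₐ[K] MvPolynomial (E × ℕ) K :=
  aeval fun p => rename (up (∑ j, p.2 j * w j)) (val p.1)

theorem ev_rename {V J E : Type} [Fintype J] (w : J → ℕ) (val : V → MvPolynomial (E × ℕ) K)
    (θ : J → ℕ) (F : MvPolynomial (V × (J → ℕ)) K) :
    ev w val (rename (shiftV θ) F) = rename (up (∑ j, θ j * w j)) (ev w val F) := by
  have : (ev w val).comp (rename (shiftV θ)) = (rename (up (∑ j, θ j * w j))).comp (ev w val) := by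
    ext1 p
    simp [ev, shiftV, -rename_rename, rename_up_up, add_mul, Finset.sum_add_distrib, add_comm]
  exact DFunLike.congr_fun this F

theorem ev_X {V J E : Type} [Fintype J] (w : J → ℕ) (val : V → MvPolynomial (E × ℕ) K) (v : V) :
    ev w val (X (v, 0)) = val v := by
  have : up (E := E) 0 = id := rfl
  simp [ev, this]

theorem ev_single {V J E : Type} [Fintype J] [DecidableEq J] (w : J → ℕ)
    (val : V → MvPolynomial (E × ℕ) K) (j : J) (F : MvPolynomial (V × (J → ℕ)) K) :
    ev w val (rename (shiftV (Pi.single j 1)) F) = rename (up (w j)) (ev w val F) := by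
  rw [ev_rename]
  simp [Pi.single_apply]

theorem inter_lift {M N : Type} [AddCommGroup M] [AddCommGroup N] [Module K M] [Module K N]
    (E : M →ₗ[K] N) (Ψ : FreeAlgebra K Y →ₐ[K] Module.End K M)
    (Φ : FreeAlgebra K Y →ₐ[K] Module.End K N)
    (h : ∀ y, (Ψ (FreeAlgebra.ι K y), Φ (FreeAlgebra.ι K y)) ∈ inter E) {n : ℕ}
    (U : Fin n → Module.End K M) (x : Fin n → FreeAlgebra K Y) (hU : ∀ i, (U i, Φ (x i)) ∈ inter E)
    (s : FreeAlgebra ℤ (FreeAlgebra K Y ⊕ Fin n)) (v : M) :
    E (FreeAlgebra.lift ℤ (Sum.elim Ψ U) s v) =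
      Φ (FreeAlgebra.lift ℤ (Sum.elim (fun r => r) x) s) (E v) := by
  have h1 : ∀ f, (Ψ f, Φ f) ∈ inter E := by
    intro f
    induction f using FreeAlgebra.induction with
    | grade0 t =>
      rw [AlgHom.commutes, AlgHom.commutes]
      exact Subalgebra.algebraMap_mem _ t
    | grade1 y => exact h y
    | mul f g h1 h2 =>
      rw [map_mul, map_mul]
      exact mul_mem h1 h2
    | add f g h1 h2 =>
      rw [map_add, map_add]
      exact add_mem h1 h2
  suffices (FreeAlgebra.lift ℤ (Sum.elim Ψ U) s,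
    Φ (FreeAlgebra.lift ℤ (Sum.elim (fun r => r) x) s)) ∈ inter E from this v
  induction s using FreeAlgebra.induction with
  | grade0 t =>
    simp only [eq_intCast, map_intCast]
    exact intCast_mem (inter E) t
  | grade1 y =>
    simp only [FreeAlgebra.lift_ι_apply]
    rcases y with f | i
    · exact h1 f
    · exact hU i
  | mul f g h1 h2 =>
    simp only [map_mul]
    exact mul_mem h1 h2
  | add f g h1 h2 =>
    simp only [map_add]
    exact add_mem h1 h2

/-- The universal operator of an unknown. -/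
def unk {R I : Type} [CommRing R] [Algebra K R] [Fintype Q] [Fintype I] (y : Q → Q → I → R)
    (s : Q → I → R →ₐ[K] R) : Module.End K (Q → R) :=
  LinearMap.pi fun q => ∑ q', ∑ c,
    LinearMap.mulLeft K (y q q' c) ∘ₗ (s q c).toLinearMap ∘ₗ LinearMap.proj q'

theorem unk_apply {R I : Type} [CommRing R] [Algebra K R] [Fintype Q] [Fintype I]
    (y : Q → Q → I → R) (s : Q → I → R →ₐ[K] R) (v : Q → R) (q : Q) :
    unk y s v q = ∑ q', ∑ c, y q q' c * s q c (v q') := by
  simp [unk]

theorem few_noetherian [Finite Y] [Finite Q] (q₀ : Q) (δ : Q → Y → Q) (n r : ℕ)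
    (p : ℕ → FreeAlgebra ℤ (FreeAlgebra K Y ⊕ Fin n)) (x : ℕ → Fin n → FreeAlgebra K Y)
    (hx : ∀ j, ∃ ω : Q → Y → ℕ, (∀ q u v, wt δ ω q u = 0 → wt δ ω q v = 0 →
      u.foldl δ q = q → v.foldl δ q = q → u ++ v = v ++ u) ∧
      ∀ i q, ∃ D : Finset ℕ, D.card ≤ r ∧ x j i ∈ Submodule.span K
        {g | ∃ l : List Y, wt δ ω q l ∈ D ∧ g = (l.map (FreeAlgebra.ι K)).prod})
    (h : ∀ i j, i < j → FreeAlgebra.lift ℤ (Sum.elim (fun r => r) (x j)) (p i) = 0) :
    ∃ j, FreeAlgebra.lift ℤ (Sum.elim (fun r => r) (x j)) (p j) = 0 := by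
  classical
  have := Fintype.ofFinite Y
  have := Fintype.ofFinite Q
  choose ω hω D hD hxD using hx
  choose d a hda using fun j i q => rep_few δ (ω j) q (hD j i q) (hxD j i q)
  obtain ⟨e, he⟩ : ∃ e : ℕ → MvPolynomial (((Q × Y) ⊕ (Fin n × Q × Q × Fin r)) ×
      ((Q × Y) ⊕ (Fin n × Q × Fin r) → ℕ)) K →ₐ[K] MvPolynomial ((Q × Y) × ℕ) K, ∀ j, e j =
      ev (Sum.elim (fun t => ω j t.1 t.2) fun t => d j t.1 t.2.1 t.2.2)
        (Sum.elim (fun t => X (t, 0)) fun t => a j t.1 t.2.1 t.2.2.1 t.2.2.2) := ⟨_, fun _ => rfl⟩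
  have h2 := fun j => inter_lift ((e j).toLinearMap.compLeft Q) (FreeAlgebra.lift K
    (op δ (fun q a => X (Sum.inl (q, a), 0))
      fun q a => rename (shiftV (Pi.single (Sum.inl (q, a)) 1)))) (rep K δ (ω j))
    (fun y v => by
      ext1 q
      simp [rep, op_apply, he, ev_X, ev_single])
    (fun i => unk (fun q q' c => X (Sum.inr (i, q, q', c), 0))
      fun q c => rename (shiftV (Pi.single (Sum.inr (i, q, c)) 1))) (x j) fun i v => by
      ext1 q
      simp [unk_apply, hda, he, ev_X, ev_single]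
  have e1 : ∀ j, (e j).toLinearMap.compLeft Q 1 = 1 := fun j => by
    ext1 q
    simp
  have h3 := fun i j => congrFun ((h2 j (p i) 1).trans (congrArg _ (e1 j))) q₀
  obtain ⟨j, hj⟩ := no_chain_shift (fun j => RingHom.ker (e j)) (fun j => RingHom.ker_isPrime _)
    (fun j θ F => by
      rw [RingHom.mem_ker, RingHom.mem_ker, he, ev_rename]
      exact map_eq_zero_iff _ (rename_injective _ (up_injective _))) _ fun i j hij =>
      (h3 i j).trans (by rw [h i j hij, map_zero]; rfl)
  exact ⟨j, rep_faithful δ (hω j) q₀ _ ((h3 j j).symm.trans hj)⟩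

end Pool.Agent.P.MP_0cf807_al
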