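import Pool.Agent.P.MP_0cf807_al.Defs

/-!
A faithful representation of the free algebra by matrices over a skew polynomial ring.
-/

set_option autoImplicit false

noncomputable section

namespace Pool.Agent.P.MP_0cf807_al

open MvPolynomial

variable {K : Type} [Field K] {Y Q : Type}

/-- The operator attached to a letter. -/
def op {R : Type} [CommRing R] [Algebra K R] (δ : Q → Y → Q) (y : Q → Y → R)
    (s : Q → Y → R →ₐ[K] R) (a : Y) : Module.End K (Q → R) :=
  LinearMap.pi fun q => LinearMap.mulLeft K (y q a) ∘ₗ (s q a).toLinearMap ∘ₗ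
    LinearMap.proj (δ q a)

theorem op_apply {R : Type} [CommRing R] [Algebra K R] (δ : Q → Y → Q) (y : Q → Y → R)
    (s : Q → Y → R →ₐ[K] R) (a : Y) (v : Q → R) (q : Q) :
    op δ y s a v q = y q a * s q a (v (δ q a)) := rfl

/-- Shift of the level of a variable. -/
def up {E : Type} (d : ℕ) (p : E × ℕ) : E × ℕ := (p.1, p.2 + d)

theorem up_injective {E : Type} (d : ℕ) : Function.Injective (up (E := E) d) := fun a b h => by
  simp only [up, Prod.mk.injEq] at h
  exact Prod.ext h.1 (by omega)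

theorem rename_up_up {E : Type} (d e : ℕ) (F : MvPolynomial (E × ℕ) K) :
    rename (up d) (rename (up e) F) = rename (up (d + e)) F := by
  rw [rename_rename]
  congr 2
  ext p
  · rfl
  · simp only [up, Function.comp]
    omega

/-- The representation. -/
def rep (K : Type) [Field K] (δ : Q → Y → Q) (ω : Q → Y → ℕ) :
    FreeAlgebra K Y →ₐ[K] Module.End K (Q → MvPolynomial ((Q × Y) × ℕ) K) :=
  FreeAlgebra.lift K (op δ (fun q a => X ((q, a), 0)) fun q a => rename (up (ω q a)))

/-- The exponent vector attached to a word. -/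
def mu (δ : Q → Y → Q) (ω : Q → Y → ℕ) : Q → List Y → ((Q × Y) × ℕ →₀ ℕ)
  | _, [] => 0
  | q, a :: l => Finsupp.single ((q, a), 0) 1 + (mu δ ω (δ q a) l).mapDomain (up (ω q a))

theorem rep_word (δ : Q → Y → Q) (ω : Q → Y → ℕ) (l : List Y) (q : Q)
    (v : Q → MvPolynomial ((Q × Y) × ℕ) K) : rep K δ ω (l.map (FreeAlgebra.ι K)).prod v q =
      monomial (mu δ ω q l) 1 * rename (up (wt δ ω q l)) (v (l.foldl δ q)) := by
  induction l generalizing q with
  | nil =>
    have : up (E := Q × Y) 0 = id := rfl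
    simp [mu, wt, this]
  | cons a l ih =>
    rw [List.map_cons, List.prod_cons, map_mul, Module.End.mul_apply, rep, FreeAlgebra.lift_ι_apply,
      op_apply, ← rep, ih, map_mul, rename_up_up, rename_monomial, mu, wt, List.foldl_cons,
      ← mul_assoc, X, monomial_mul, one_mul]

theorem split_of_mu (δ : Q → Y → Q) (ω : Q → Y → ℕ) (l : List Y) (q q' : Q) (a : Y)
    (h : mu δ ω q l ((q', a), 0) ≠ 0) :
    ∃ u v, l = u ++ a :: v ∧ wt δ ω q u = 0 ∧ u.foldl δ q = q' := by
  induction l generalizing q with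
  | nil => simp [mu] at h
  | cons b l ih =>
    by_cases hb : (q', a) = (q, b)
    · obtain ⟨rfl, rfl⟩ := Prod.mk.inj hb
      exact ⟨[], l, rfl, rfl, rfl⟩
    rw [mu, Finsupp.add_apply, Finsupp.single_eq_of_ne (fun h => hb (congrArg Prod.fst h)),
      zero_add] at h
    obtain ⟨p, hp⟩ := Finsupp.mem_range_of_mapDomain_ne_zero h
    have h0 : ω q b = 0 := by
      have := congrArg Prod.snd hp
      simp only [up] at this
      omega
    have : up (E := Q × Y) 0 = id := rfl
    rw [h0, this, Finsupp.mapDomain_id] at h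
    obtain ⟨u, v, rfl, h1, h2⟩ := ih _ h
    exact ⟨b :: u, v, rfl, by rw [wt, h0, h1], h2⟩

theorem mu_injective (δ : Q → Y → Q) {ω : Q → Y → ℕ}
    (hω : ∀ q u v, wt δ ω q u = 0 → wt δ ω q v = 0 → u.foldl δ q = q → v.foldl δ q = q →
      u ++ v = v ++ u) (l l' : List Y) (q : Q) (h : mu δ ω q l = mu δ ω q l') : l = l' := by
  induction l generalizing q l' with
  | nil =>
    cases l' with
    | nil => rfl
    | cons b l' => simpa [mu] using DFunLike.congr_fun h.symm ((q, b), 0)
  | cons a l ih =>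
    cases l' with
    | nil => simpa [mu] using DFunLike.congr_fun h ((q, a), 0)
    | cons b l' =>
      obtain rfl : a = b := by
        obtain ⟨u, v, e1, h1, h2⟩ := split_of_mu δ ω (b :: l') q q a (by rw [← h]; simp [mu])
        obtain ⟨u', v', e2, h3, h4⟩ := split_of_mu δ ω (a :: l) q q b (by rw [h]; simp [mu])
        have := hω q u u' h1 h3 h2 h4
        rcases u with _ | ⟨c, u⟩
        · exact (List.cons.inj e1).1.symm
        rcases u' with _ | ⟨c', u'⟩
        · exact (List.cons.inj e2).1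
        rw [(List.cons.inj e1).1, (List.cons.inj e2).1, (List.cons.inj this).1]
      rw [mu, mu, add_right_inj] at h
      rw [ih l' _ (Finsupp.mapDomain_injective (up_injective _) h)]

theorem span_words : Submodule.span K
    (Set.range fun l : List Y => (l.map (FreeAlgebra.ι K)).prod) = ⊤ := by
  rw [eq_top_iff, ← Algebra.top_toSubmodule, ← FreeAlgebra.adjoin_range_ι,
    Algebra.adjoin_eq_span]
  refine Submodule.span_mono fun g hg => ?_
  induction hg using Submonoid.closure_induction with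
  | mem g h =>
    obtain ⟨a, rfl⟩ := h
    exact ⟨[a], by simp⟩
  | one => exact ⟨[], rfl⟩
  | mul g g' _ _ h1 h2 =>
    obtain ⟨l, rfl⟩ := h1
    obtain ⟨l', rfl⟩ := h2
    exact ⟨l ++ l', by simp⟩

theorem rep_faithful (δ : Q → Y → Q) {ω : Q → Y → ℕ}
    (hω : ∀ q u v, wt δ ω q u = 0 → wt δ ω q v = 0 → u.foldl δ q = q → v.foldl δ q = q →
      u ++ v = v ++ u) (q : Q) (f : FreeAlgebra K Y)
    (h : rep K δ ω f 1 q = 0) : f = 0 := by
  let L : FreeAlgebra K Y →ₗ[K] MvPolynomial ((Q × Y) × ℕ) K :=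
    LinearMap.proj q ∘ₗ LinearMap.applyₗ 1 ∘ₗ (rep K δ ω).toLinearMap
  refine LinearMap.injective_of_linearIndependent (f := L) span_words ?_ (by simpa [L] using h)
  have := (basisMonomials ((Q × Y) × ℕ) K).linearIndependent.comp (mu δ ω q)
    fun l l' => mu_injective δ hω l l' q
  have e : (L ∘ fun l : List Y => (l.map (FreeAlgebra.ι K)).prod) =
      basisMonomials ((Q × Y) × ℕ) K ∘ mu δ ω q := by
    ext1 l
    simp [L, rep_word]
  rw [e]
  exact this

theorem rep_few [Fintype Q] (δ : Q → Y → Q) (ω : Q → Y → ℕ) (q : Q) {r : ℕ} {D : Finset ℕ}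
    (hD : D.card ≤ r) {f : FreeAlgebra K Y} (hf : f ∈ Submodule.span K
      {g | ∃ l : List Y, wt δ ω q l ∈ D ∧ g = (l.map (FreeAlgebra.ι K)).prod}) :
    ∃ (d : Fin r → ℕ) (a : Q → Fin r → MvPolynomial ((Q × Y) × ℕ) K), ∀ v,
      rep K δ ω f v q = ∑ q', ∑ c, a q' c * rename (up (d c)) (v q') := by
  classical
  refine ⟨fun c => D.toList.getD c 0, ?_⟩
  induction hf using Submodule.span_induction with
  | mem g h =>
    obtain ⟨l, hl, rfl⟩ := h
    obtain ⟨c, hc, h⟩ := List.getElem_of_mem (Finset.mem_toList.2 hl)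
    have hc' : c < r := by simpa using (Finset.length_toList D ▸ hc).trans_le hD
    refine ⟨Pi.single (l.foldl δ q) (Pi.single ⟨c, hc'⟩ (monomial (mu δ ω q l) 1)), fun v => ?_⟩
    rw [rep_word, Finset.sum_eq_single (l.foldl δ q), Finset.sum_eq_single ⟨c, hc'⟩]
    · simp [List.getElem?_eq_getElem hc, h]
    · intro b _ hb
      simp [hb]
    · simp
    · intro b _ hb
      simp [hb]
    · simp
  | zero => exact ⟨0, by simp⟩
  | add g g' _ _ h1 h2 =>
    obtain ⟨a, h1⟩ := h1
    obtain ⟨a', h2⟩ := h2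
    exact ⟨a + a', fun v => by simp [h1, h2, add_mul, Finset.sum_add_distrib]⟩
  | smul t g _ h1 =>
    obtain ⟨a, h1⟩ := h1
    exact ⟨t • a, fun v => by simp [h1, Finset.smul_sum]⟩

end Pool.Agent.P.MP_0cf807_al
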