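import Mathlib

/-!
Power series toolkit: weighted sums, maps commuting with the variable, derivations, Newton
iteration and Taylor series.
-/

set_option autoImplicit false

noncomputable section

namespace Pool.Agent.P.MP_0cf807_al

open PowerSeries

variable {A B : Type} [CommRing A] [CommRing B]

/-- The tail of a power series. -/
def tl (f : A⟦X⟧) : A⟦X⟧ := mk fun p => coeff (p + 1) f

theorem eq_tl (f : A⟦X⟧) : f = C (constantCoeff f) + X * tl f := by
  rw [add_comm]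
  exact eq_X_mul_shift_add_const f

theorem eq_zero_of_dvd {f : A⟦X⟧} (h : ∀ n, X ^ n ∣ f) : f = 0 := by
  ext n
  exact X_pow_dvd_iff.1 (h (n + 1)) n (Nat.lt_succ_self n)

theorem eq_zero_of_step {ι : Type} (d : ι → A⟦X⟧) (h : ∀ i, ∃ j, d i = X * d j) (i : ι) :
    d i = 0 := by
  refine eq_zero_of_dvd fun n => ?_
  induction n generalizing i with
  | zero => simp
  | succ n ih =>
    obtain ⟨j, hj⟩ := h i
    rw [hj, pow_succ']
    exact mul_dvd_mul_left _ (ih j)

/-- The sum of `X ^ i * b i`. -/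
def hsum (b : ℕ → A⟦X⟧) : A⟦X⟧ :=
  mk fun n => ∑ ij ∈ Finset.HasAntidiagonal.antidiagonal n, coeff ij.2 (b ij.1)

theorem hsum_succ (b : ℕ → A⟦X⟧) : hsum b = b 0 + X * hsum fun i => b (i + 1) := by
  ext n
  cases n with
  | zero => simp [hsum]
  | succ n => simp [hsum, Finset.Nat.sum_antidiagonal_succ, coeff_succ_X_mul]

theorem hsum_unique {f e : ℕ → A⟦X⟧} (h : ∀ i, f i = e i + X * f (i + 1)) : f 0 = hsum e := by
  have := eq_zero_of_step (fun k => f k - hsum fun i => e (k + i)) (fun k => ⟨k + 1, by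
    rw [h k, hsum_succ]
    simp only [add_zero, add_assoc, add_comm 1]
    ring⟩) 0
  simpa [sub_eq_zero] using this

theorem hsum_shift (b : ℕ → A⟦X⟧) (k : ℕ) :
    hsum (fun i => b (i + k)) = b k + X * hsum fun i => b (i + (k + 1)) := by
  rw [hsum_succ]
  simp only [zero_add, add_assoc, add_comm 1]

theorem hsum_add (b c : ℕ → A⟦X⟧) : hsum (fun i => b i + c i) = hsum b + hsum c := by
  ext n
  simp [hsum, Finset.sum_add_distrib]

theorem hsum_zero : hsum (fun _ => (0 : A⟦X⟧)) = 0 := by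
  ext n
  simp [hsum]

theorem hsum_eq_shift (b : ℕ → A⟦X⟧) (k : ℕ) (h : ∀ i < k, b i = 0) :
    hsum b = X ^ k * hsum fun i => b (i + k) := by
  induction k with
  | zero => simp
  | succ k ih =>
    rw [ih fun i hi => h i (by omega), hsum_shift, h k (by omega), zero_add, pow_succ, mul_assoc]

theorem hsum_single (b : ℕ → A⟦X⟧) (k : ℕ) (h : ∀ i ≠ k, b i = 0) : hsum b = X ^ k * b k := by
  rw [hsum_eq_shift b k fun i hi => h i hi.ne, hsum_shift]
  have : (fun i => b (i + (k + 1))) = fun _ => 0 := funext fun i => h _ (by omega)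
  rw [this, hsum_zero, mul_zero, add_zero]

/-- Maps commuting with multiplication by the variable. -/
def XL (ψ : A⟦X⟧ → B⟦X⟧) : Prop := ∀ f, ψ (X * f) = X * ψ f

theorem XL.pow {ψ : A⟦X⟧ → B⟦X⟧} (h : XL ψ) (k : ℕ) (f : A⟦X⟧) :
    ψ (X ^ k * f) = X ^ k * ψ f := by
  induction k with
  | zero => simp
  | succ k ih => rw [pow_succ', mul_assoc, h, ih, pow_succ', mul_assoc]

theorem XL.dvd {ψ : A⟦X⟧ → B⟦X⟧} (h : XL ψ) {k : ℕ} {f : A⟦X⟧} (hf : X ^ k ∣ f) :
    X ^ k ∣ ψ f := by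
  obtain ⟨g, rfl⟩ := hf
  exact ⟨_, h.pow k g⟩

section
variable {F G : Type} [FunLike F A⟦X⟧ B⟦X⟧] [AddMonoidHomClass F A⟦X⟧ B⟦X⟧]
  [FunLike G A⟦X⟧ B⟦X⟧] [AddMonoidHomClass G A⟦X⟧ B⟦X⟧]

theorem XL.hsum {ψ : F} (h : XL ψ) (b : ℕ → A⟦X⟧) : ψ (hsum b) = hsum fun i => ψ (b i) :=
  hsum_unique (f := fun k => ψ (MP_0cf807_al.hsum fun i => b (i + k))) fun k => by
    rw [hsum_shift, map_add, h]

theorem XL.ext {ψ : F} {ψ' : G} (h : XL ψ) (h' : XL ψ') (e : ∀ a, ψ (C a) = ψ' (C a))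
    (f : A⟦X⟧) : ψ f = ψ' f :=
  sub_eq_zero.1 (eq_zero_of_step (fun f => ψ f - ψ' f) (fun f => ⟨tl f, by
    conv_lhs => rw [eq_tl f]
    rw [map_add, map_add, h, h', e]
    ring⟩) f)

end

theorem mul_hsum (g : A⟦X⟧) (b : ℕ → A⟦X⟧) : g * hsum b = hsum fun i => g * b i :=
  XL.hsum (ψ := AddMonoidHom.mulLeft g) (fun f => by simp [mul_left_comm]) b

theorem xl_ringHom {ψ : A⟦X⟧ →+* B⟦X⟧} (h : ψ X = X) : XL ψ := fun f => by
  simp [h]

/-- Continuous extension of an additive map. -/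
def extA (φ : A →+ B⟦X⟧) : A⟦X⟧ →+ B⟦X⟧ where
  toFun f := hsum fun i => φ (coeff i f)
  map_zero' := by simp [hsum_zero]
  map_add' f g := by simp [hsum_add]

theorem extA_xl (φ : A →+ B⟦X⟧) : XL (extA φ) := fun f => by
  change hsum (fun i => φ (coeff i (X * f))) = X * hsum fun i => φ (coeff i f)
  rw [hsum_succ]
  simp [coeff_succ_X_mul]

theorem extA_C (φ : A →+ B⟦X⟧) (a : A) : extA φ (C a) = φ a := by
  change hsum (fun i => φ (coeff i (C a))) = _
  rw [hsum_single _ 0 fun i hi => by rw [coeff_C_of_ne_zero hi, map_zero]]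
  simp

/-- Continuous extension of a ring homomorphism. -/
def extR (φ : A →+* B⟦X⟧) : A⟦X⟧ →+* B⟦X⟧ where
  __ := extA φ.toAddMonoidHom
  map_one' := (extA_C φ.toAddMonoidHom 1).trans φ.map_one
  map_mul' f g := by
    have hx := extA_xl (φ : A →+ B⟦X⟧)
    refine XL.ext (ψ := (extA (φ : A →+ B⟦X⟧)).comp (AddMonoidHom.mulRight g))
      (ψ' := (AddMonoidHom.mulRight (extA (φ : A →+ B⟦X⟧) g)).comp (extA (φ : A →+ B⟦X⟧)))
      (fun f => by simp [mul_assoc, hx _]) (fun f => by simp [mul_assoc, hx _]) (fun a => ?_) f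
    refine XL.ext (ψ := (extA (φ : A →+ B⟦X⟧)).comp (AddMonoidHom.mulLeft (C a)))
      (ψ' := (AddMonoidHom.mulLeft (extA (φ : A →+ B⟦X⟧) (C a))).comp (extA (φ : A →+ B⟦X⟧)))
      (fun f => by simp [mul_left_comm _ X, hx _]) (fun f => by simp [mul_left_comm _ X, hx _])
      (fun b => ?_) g
    simp [← map_mul, extA_C]

theorem extR_C (φ : A →+* B⟦X⟧) (a : A) : extR φ (C a) = φ a := extA_C _ a

theorem extR_xl (φ : A →+* B⟦X⟧) : XL (extR φ) := extA_xl _

theorem extR_X (φ : A →+* B⟦X⟧) : extR φ X = X := by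
  simpa using extR_xl φ 1

theorem extR_apply (φ : A →+* B⟦X⟧) (f : A⟦X⟧) : extR φ f = hsum fun i => φ (coeff i f) := rfl

theorem ringHom_ext' {ψ ψ' : A⟦X⟧ →+* B⟦X⟧} (h : ψ X = X) (h' : ψ' X = X)
    (e : ∀ a, ψ (C a) = ψ' (C a)) (f : A⟦X⟧) : ψ f = ψ' f :=
  XL.ext (xl_ringHom h) (xl_ringHom h') e f

/-- Coefficientwise application of an additive map. -/
def lft (d : A →+ B) : A⟦X⟧ →+ B⟦X⟧ where
  toFun f := mk fun n => d (coeff n f)
  map_zero' := by ext; simp
  map_add' f g := by ext; simp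

theorem coeff_lft (d : A →+ B) (f : A⟦X⟧) (n : ℕ) : coeff n (lft d f) = d (coeff n f) :=
  coeff_mk n fun n => d (coeff n f)

theorem constantCoeff_lft (d : A →+ B) (f : A⟦X⟧) :
    constantCoeff (lft d f) = d (constantCoeff f) := by
  simpa using coeff_lft d f 0

theorem lft_xl (d : A →+ B) : XL (lft d) := fun f => by
  ext n
  cases n <;> simp [coeff_lft, coeff_succ_X_mul]

theorem lft_C (d : A →+ B) (a : A) : lft d (C a) = C (d a) := by
  ext n
  rw [coeff_lft, coeff_C, coeff_C]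
  split_ifs <;> simp

/-- Coefficientwise application as a homomorphism of operator rings. -/
def lftE : AddMonoid.End A →+* AddMonoid.End A⟦X⟧ where
  toFun d := lft d
  map_one' := by ext f n; exact coeff_lft _ f n
  map_mul' d e := by ext f n; exact (coeff_lft _ f n).trans (by
    change _ = coeff n (lft d (lft e f)); rw [coeff_lft, coeff_lft]; rfl)
  map_zero' := by ext f n; exact coeff_lft _ f n
  map_add' d e := by ext f n; exact (coeff_lft _ f n).trans (by
    change _ = coeff n (lft d f + lft e f); rw [map_add, coeff_lft, coeff_lft]; rfl)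

theorem lftE_apply (d : AddMonoid.End A) (f : A⟦X⟧) : lftE d f = lft d f := rfl

/-- The Leibniz rule. -/
def IsDer (d : A → A) : Prop := ∀ a b, d (a * b) = d a * b + a * d b

theorem IsDer.one {d : A → A} (h : IsDer d) : d 1 = 0 := by
  simpa using h 1 1

theorem IsDer.lft {d : A →+ A} (h : IsDer d) : IsDer (lft d) := fun f g => by
  ext n
  simp [coeff_lft, coeff_mul, h _, Finset.sum_add_distrib]

theorem newton (Φ : A⟦X⟧ → B⟦X⟧) (hl : ∀ k x y, X ^ k ∣ y - x → X ^ k ∣ Φ y - Φ x)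
    (hs : ∀ k x, X ^ k ∣ Φ x → ∃ v, X ^ (k + 1) ∣ Φ (x + X ^ k * v)) (x : A⟦X⟧) :
    ∃ y, Φ y = 0 ∧ ∀ k, X ^ k ∣ Φ x → X ^ k ∣ y - x := by
  classical
  by_cases h0 : ∀ k, X ^ k ∣ Φ x
  · exact ⟨x, eq_zero_of_dvd h0, fun k _ => by simp⟩
  push Not at h0
  obtain ⟨k, hk⟩ : ∃ k, Nat.find h0 = k + 1 := Nat.exists_eq_succ_of_ne_zero fun h => by
    simpa [h] using Nat.find_spec h0
  have hx : X ^ k ∣ Φ x := not_not.1 (Nat.find_min h0 (by omega))
  choose! v hv using hs
  let s : ℕ → A⟦X⟧ := fun i => Nat.rec x (fun i y => y + X ^ (k + i) * v (k + i) y) i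
  have h1 : ∀ i, X ^ (k + i) ∣ Φ (s i) := fun i => by
    induction i with
    | zero => exact hx
    | succ i ih => exact hv _ _ ih
  have h2 : ∀ i, x + X ^ k * hsum (fun j => v (k + j) (s j)) =
      s i + X ^ (k + i) * hsum fun j => v (k + (j + i)) (s (j + i)) := fun i => by
    induction i with
    | zero => rfl
    | succ i ih =>
      rw [ih, hsum_shift fun j => v (k + j) (s j)]
      change _ = s i + X ^ (k + i) * v (k + i) (s i) + _
      rw [← add_assoc k, pow_succ]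
      ring
  refine ⟨x + X ^ k * hsum fun j => v (k + j) (s j), eq_zero_of_dvd fun i => ?_, fun j hj => ?_⟩
  · have := hl (k + i) (s i) (x + X ^ k * hsum fun j => v (k + j) (s j)) (by rw [h2 i]; simp)
    exact (pow_dvd_pow X (i.le_add_left k)).trans (by simpa using dvd_add this (h1 i))
  · have : j ≤ k := by
      by_contra h
      exact Nat.find_spec h0 ((pow_dvd_pow X (by omega)).trans hj)
    simpa using (pow_dvd_pow X this).mul_right _

end Pool.Agent.P.MP_0cf807_al
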