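import Pool.Agent.P.MP_0cf807_al.Shift
import Pool.Agent.P.MP_0cf807_al.ZPS

/-!
The basis theorem for differential polynomials in characteristic zero, along an ultrafilter.
-/

set_option autoImplicit false

noncomputable section

namespace Pool.Agent.P.MP_0cf807_al

open MvPolynomial Filter

variable {K : Type} [Field K] {W : Type}

section
variable [LinearOrder W]

theorem rr_key [WellFoundedLT W] (p P : Ideal (MvPolynomial W K)) (hp : p ≠ ⊤) (hP : P.IsPrime)
    (h : ∀ u d, (∃ I ∈ supported K (Set.Iio u), ∃ G ∈ Low K u d, I ∉ p ∧ I * X u ^ d + G ∈ p) →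
      ∃ d' ≤ d, ∃ I ∈ supported K (Set.Iio u), ∃ G ∈ Low K u d', I ∉ P ∧
        I * X u ^ d' + G ∈ p ∧ I * X u ^ d' + G ∈ P) : p ≤ P := by
  have hC : ∀ a, C a ∈ p → C a ∈ P := fun a ha => by
    rcases eq_or_ne a 0 with rfl | h
    · simp
    · exact (hp (p.eq_top_of_isUnit_mem ha (h.isUnit.map C))).elim
  have key : ∀ u, ∀ F ∈ supported K (Set.Iic u), F ∈ p → F ∈ P := by
    intro u
    induction u using WellFoundedLT.induction with
    | ind u ih =>
    have h0 : ∀ F ∈ supported K (Set.Iio u), F ∈ p → F ∈ P := fun F hF hFp => by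
      rcases const_or_max F with ⟨a, rfl⟩ | ⟨v, hv, h⟩
      · exact hC a hFp
      · exact ih v (mem_supported.1 hF hv) F h hFp
    have h1 : ∀ d, ∀ F ∈ Low K u d, F ∈ p → F ∈ P := by
      intro d
      induction d with
      | zero => exact fun F hF _ => Low.zero hF ▸ P.zero_mem
      | succ d ihd =>
        intro F hF hFp
        obtain ⟨J, hJ, hF'⟩ := Low.succ hF
        by_cases hJp : J ∈ p
        · have := ihd _ hF' (p.sub_mem hFp (p.mul_mem_right _ hJp))
          simpa using P.add_mem this (P.mul_mem_right (X u ^ d) (h0 J hJ hJp))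
        obtain ⟨d', h3, I, h4, G, hG, hI, hA, hA'⟩ := h u d ⟨J, hJ, _, hF', hJp, by simpa using hFp⟩
        obtain ⟨k, rfl⟩ := Nat.exists_eq_add_of_le h3
        have h5 : I * F - J * X u ^ k * (I * X u ^ d' + G) ∈ Low K u (d' + k) := by
          have := sub_mem (Low.mul hF' h4 0) (Low.mul hG hJ k)
          rw [add_zero] at this
          convert this using 1
          ring
        have h7 := P.add_mem (ihd _ h5 (p.sub_mem (p.mul_mem_left _ hFp) (p.mul_mem_left _ hA)))
          (P.mul_mem_left (J * X u ^ k) hA')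
        rw [sub_add_cancel] at h7
        exact (hP.mem_or_mem h7).resolve_left hI
    exact fun F hF => (exists_low hF).elim fun d h => h1 d F h
  intro F hF
  rcases const_or_max F with ⟨a, rfl⟩ | ⟨v, -, h⟩
  · exact hC a hF
  · exact key v F h hF

theorem pderiv_supp {u : W} {F : MvPolynomial W K} (h : F ∈ supported K (Set.Iio u)) :
    pderiv u F = 0 :=
  pderiv_eq_zero_of_notMem_vars fun hu => lt_irrefl u (mem_supported.1 h hu)

theorem Low.pderiv {u : W} {d : ℕ} {F : MvPolynomial W K} (h : F ∈ Low K u (d + 1)) :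
    pderiv u F ∈ Low K u d := by
  induction h using AddSubgroup.closure_induction with
  | mem F h =>
    obtain ⟨c, hc, e, he, rfl⟩ := h
    rcases e with _ | e
    · simp [pderiv_supp hc]
    · convert Low.gen (mul_mem hc (natCast_mem _ (e + 1))) (show e < d by omega) using 1
      simp [pderiv_supp hc]
      ring
  | zero => simp
  | add F G _ _ h1 h2 => simpa only [map_add] using add_mem h1 h2
  | neg F _ h1 => simpa only [map_neg] using neg_mem h1

theorem Low.supp {u : W} {d : ℕ} {F : MvPolynomial W K} (h : F ∈ Low K u d) :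
    F ∈ supported K (Set.Iic u) := by
  induction h using AddSubgroup.closure_induction with
  | mem F h =>
    obtain ⟨c, hc, e, -, rfl⟩ := h
    exact mul_mem (supported_mono Set.Iio_subset_Iic_self hc)
      (pow_mem (X_mem_supported.2 Set.self_mem_Iic) _)
  | zero => simp
  | add F G _ _ h1 h2 => exact add_mem h1 h2
  | neg F _ h1 => exact neg_mem h1

theorem der_supp {s : W → W} (hs : StrictMono s) {u : W} (hu : u < s u) {F : MvPolynomial W K}
    (h : F ∈ supported K (Set.Iic u)) : pderiv u F ∈ supported K (Set.Iic u) ∧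
      mkDerivation K (fun w => X (s w)) F - pderiv u F * X (s u) ∈
        supported K (Set.Iio (s u)) := by
  have hm : supported K (Set.Iic u) ≤ supported K (Set.Iio (s u)) :=
    supported_mono fun v hv => lt_of_le_of_lt hv hu
  induction h using Algebra.adjoin_induction with
  | mem F h =>
    obtain ⟨v, hv, rfl⟩ := h
    rcases (show v ≤ u from hv).lt_or_eq with h | rfl
    · simpa [pderiv_X_of_ne h.ne, mkDerivation_X] using hs h
    · simp [mkDerivation_X]
  | algebraMap a => simp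
  | add F G _ _ h1 h2 =>
    refine ⟨by simpa using add_mem h1.1 h2.1, ?_⟩
    convert add_mem h1.2 h2.2 using 1
    simp only [map_add]
    ring
  | mul F G hF hG h1 h2 =>
    refine ⟨by simpa [supported] using add_mem (mul_mem hF h2.1) (mul_mem hG h1.1), ?_⟩
    convert add_mem (mul_mem (hm hF) h2.2) (mul_mem (hm hG) h1.2) using 1
    simp only [Derivation.leibniz, smul_eq_mul]
    ring

theorem rr_certificate [CharZero K] [WellFoundedLT W] {J : Type} (s : J → W → W)
    (hs : ∀ j, StrictMono (s j)) (hlt : ∀ j w, w < s j w)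
    (wqo : ∀ T : Set W, ∃ B : Set W, B.Finite ∧ B ⊆ T ∧
      ∀ t ∈ T, ∃ b ∈ B, Relation.ReflTransGen (fun a c => ∃ j, c = s j a) b t)
    (p : Ideal (MvPolynomial W K)) (hp : p ≠ ⊤)
    (hp' : ∀ j, ∀ F ∈ p, mkDerivation K (fun w => X (s j w)) F ∈ p) :
    ∃ A I : Set (MvPolynomial W K), A.Finite ∧ I.Finite ∧ (∀ F ∈ A, F ∈ p) ∧ (∀ F ∈ I, F ∉ p) ∧
      ∀ P : Ideal (MvPolynomial W K), P.IsPrime →
        (∀ j, ∀ F ∈ P, mkDerivation K (fun w => X (s j w)) F ∈ P) →
        (∀ F ∈ A, F ∈ P) → (∀ F ∈ I, F ∉ P) → p ≤ P := by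
  classical
  let T : W → ℕ → Prop := fun u d =>
    ∃ I ∈ supported K (Set.Iio u), ∃ G ∈ Low K u d, I ∉ p ∧ I * X u ^ d + G ∈ p
  have hT : ∀ u d, T u d → 1 ≤ d := fun u d ⟨I, _, G, hG, h1, h2⟩ => by
    rcases d with _ | d
    · exact (h1 (by simpa [Low.zero hG] using h2)).elim
    · omega
  obtain ⟨B, hB, hBT, hB'⟩ := wqo {u | ∃ d, T u d}
  have hBT' : ∀ b ∈ B, ∃ d, (∀ d', T b d' → d ≤ d') ∧ ∃ I ∈ supported K (Set.Iio b),
      ∃ G ∈ Low K b d, I ∉ p ∧ I * X b ^ d + G ∈ p ∧ pderiv b (I * X b ^ d + G) ∉ p := by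
    intro b hb
    have h : ∃ d, T b d := hBT hb
    obtain ⟨I, hI, G, hG, h1, h2⟩ := Nat.find_spec h
    refine ⟨_, fun d' => Nat.find_min' h, I, hI, G, hG, h1, h2, fun h3 => ?_⟩
    obtain ⟨e, he⟩ := Nat.exists_eq_add_of_le' (hT _ _ (Nat.find_spec h))
    rw [he] at h3 hG
    refine Nat.find_min h (show e < _ by omega) ⟨I * C (e + 1 : K), mul_mem hI
      (Subalgebra.algebraMap_mem _ _), _, Low.pderiv hG, fun h4 => h1 ?_, ?_⟩
    · exact (p.mul_unit_mem_iff_mem ((Nat.cast_add_one_ne_zero e).isUnit.map C)).1 h4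
    · convert h3 using 1
      simp [pderiv_supp hI]
      ring
  choose! d hd I hI G hG hIp hAp hSp using hBT'
  refine ⟨(fun b => I b * X b ^ d b + G b) '' B,
    I '' B ∪ (fun b => pderiv b (I b * X b ^ d b + G b)) '' B, hB.image _,
    (hB.image _).union (hB.image _), by rintro _ ⟨b, hb, rfl⟩; exact hAp b hb,
    by rintro _ (⟨b, hb, rfl⟩ | ⟨b, hb, rfl⟩); exacts [hIp b hb, hSp b hb],
    fun P hP hPs hA hI' => rr_key p P hp hP fun u e hu => ?_⟩
  obtain ⟨b, hb, hbu⟩ := hB' u ⟨e, hu⟩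
  have step : ∀ c j, ∀ F ∈ supported K (Set.Iic c), F ∈ p → F ∈ P → ∃ H ∈ supported K
      (Set.Iio (s j c)), pderiv c F ∈ supported K (Set.Iio (s j c)) ∧
      pderiv c F * X (s j c) + H ∈ p ∧ pderiv c F * X (s j c) + H ∈ P := fun c j F hF h1 h2 =>
    ⟨_, (der_supp (hs j) (hlt j c) hF).2, supported_mono (fun v hv => lt_of_le_of_lt hv (hlt j c))
      (der_supp (hs j) (hlt j c) hF).1, by simpa using hp' j F h1, by simpa using hPs j F h2⟩
  have key : u = b ∨ ∃ S ∈ supported K (Set.Iio u), ∃ H ∈ supported K (Set.Iio u), S ∉ P ∧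
      S * X u + H ∈ p ∧ S * X u + H ∈ P := by
    clear hu
    induction hbu with
    | refl => exact Or.inl rfl
    | tail _ h ih =>
      obtain ⟨j, rfl⟩ := h
      rcases ih with rfl | ⟨S, hS, H, hH, h1, h2, h3⟩
      · obtain ⟨H, h1, h2, h3⟩ := step _ j _ (add_mem (Low.supp (Low.gen (hI _ hb)
          (Nat.lt_succ_self _))) (Low.supp (hG _ hb))) (hAp _ hb) (hA _ ⟨_, hb, rfl⟩)
        exact Or.inr ⟨_, h2, H, h1, hI' _ (Or.inr ⟨_, hb, rfl⟩), h3⟩
      · obtain ⟨H', h4, h5, h6⟩ := step _ j _ (add_mem (mul_mem (supported_mono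
          Set.Iio_subset_Iic_self hS) (X_mem_supported.2 Set.self_mem_Iic))
          (supported_mono Set.Iio_subset_Iic_self hH)) h2 h3
        refine Or.inr ⟨_, h5, H', h4, ?_, h6⟩
        simpa [pderiv_supp hS, pderiv_supp hH] using h1
  rcases key with rfl | ⟨S, hS, H, hH, h1, h2, h3⟩
  · exact ⟨_, hd _ hb e hu, _, hI _ hb, _, hG _ hb, hI' _ (Or.inl ⟨_, hb, rfl⟩), hAp _ hb,
      hA _ ⟨_, hb, rfl⟩⟩
  · exact ⟨1, hT _ _ hu, S, hS, H, by simpa using Low.gen hH one_pos, h1, by simpa using h2,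
      by simpa using h3⟩

end

theorem rr_uniform [CharZero K] {V E : Type} [Finite V] [Field E] [Algebra K E]
    (d₁ d₂ : AddMonoid.End E) (h₁ : IsDer d₁) (h₂ : IsDer d₂) (hc : Commute d₁ d₂)
    (k₁ : ∀ a, d₁ (algebraMap K E a) = 0) (k₂ : ∀ a, d₂ (algebraMap K E a) = 0)
    (U : Ultrafilter ℕ) (z : V → ℕ → E) : ∃ Ω ∈ U, ∀ F : MvPolynomial (V × ℕ × ℕ) K,
      (∀ᶠ n in U, aeval (fun w => (d₁ ^ w.2.1 * d₂ ^ w.2.2) (z w.1 n)) F = 0) →
      ∀ n ∈ Ω, aeval (fun w => (d₁ ^ w.2.1 * d₂ ^ w.2.2) (z w.1 n)) F = 0 := by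
  let : LinearOrder V := LinearOrder.lift' (Finite.equivFin V) (Equiv.injective _)
  let f : V × ℕ × ℕ → ℕ ×ₗ ℕ ×ₗ V := fun w => toLex (w.2.1, toLex (w.2.2, w.1))
  have hf : Function.Injective f := fun a b h => by
    simp only [f, toLex_inj, Prod.mk.injEq] at h
    exact Prod.ext h.2.2 (Prod.ext h.1 h.2.1)
  let o : LinearOrder (V × ℕ × ℕ) := LinearOrder.lift' f hf
  have wf : @WellFoundedLT _ o.toLT := ⟨InvImage.wf f wellFounded_lt⟩
  let s : Bool → V × ℕ × ℕ → V × ℕ × ℕ := fun j w =>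
    (w.1, if j then (w.2.1 + 1, w.2.2) else (w.2.1, w.2.2 + 1))
  let P : ℕ → Ideal (MvPolynomial (V × ℕ × ℕ) K) := fun n => RingHom.ker
    (aeval (fun w : V × ℕ × ℕ => (d₁ ^ w.2.1 * d₂ ^ w.2.2) (z w.1 n)) : _ →ₐ[K] E)
  have hP : ∀ n, (P n).IsPrime := fun n => RingHom.ker_isPrime _
  have hPs : ∀ n j, ∀ F ∈ P n, mkDerivation K (fun w => X (s j w)) F ∈ P n := by
    intro n j F hF
    have : ∀ F : MvPolynomial (V × ℕ × ℕ) K,
        aeval (fun w : V × ℕ × ℕ => (d₁ ^ w.2.1 * d₂ ^ w.2.2) (z w.1 n))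
        (mkDerivation K (fun w => (X (s j w) : MvPolynomial _ K)) F) = (if j then d₁ else d₂)
        (aeval (fun w : V × ℕ × ℕ => (d₁ ^ w.2.1 * d₂ ^ w.2.2) (z w.1 n)) F) := by
      intro F
      induction F using MvPolynomial.induction_on with
      | C a => cases j <;> simp [k₁, k₂]
      | add F G h1 h2 => simp only [map_add, h1, h2]
      | mul_X F w h1 =>
        rw [Derivation.leibniz, mkDerivation_X, smul_eq_mul, smul_eq_mul, map_add, map_mul,
          map_mul, h1, map_mul, aeval_X, aeval_X]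
        cases j
        · have e : d₁ ^ w.2.1 * d₂ ^ (w.2.2 + 1) = d₂ * (d₁ ^ w.2.1 * d₂ ^ w.2.2) := by
            rw [pow_succ', ← mul_assoc, ← mul_assoc, (hc.pow_left _).eq]
          simp only [s, Bool.false_eq_true, if_false, e]
          rw [h₂]
          exact (add_comm _ _).trans (by rw [mul_comm]; rfl)
        · simp only [s, if_true, pow_succ', mul_assoc]
          rw [h₁]
          exact (add_comm _ _).trans (by rw [mul_comm]; rfl)
    rw [RingHom.mem_ker, this, RingHom.mem_ker.1 hF, map_zero]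
  let p : Ideal (MvPolynomial (V × ℕ × ℕ) K) :=
    { carrier := {G | ∀ᶠ j in U, G ∈ P j}
      zero_mem' := Eventually.of_forall fun j => (P j).zero_mem
      add_mem' := fun h1 h2 => (h1.and h2).mono fun j h => (P j).add_mem h.1 h.2
      smul_mem' := fun c _ h => h.mono fun j h => (P j).mul_mem_left c h }
  obtain ⟨A, I, hA, hI, h1, h2, h3⟩ := @rr_certificate K _ _ o _ wf _ s
    (fun j a b h => by
      have h' : f a < f b := h
      change f _ < f _
      cases j <;> simpa [f, s, Prod.Lex.toLex_lt_toLex] using h')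
    (fun j a => by
      change f _ < f _
      cases j <;> simp [f, s, Prod.Lex.toLex_lt_toLex])
    (fun T => by
      let Tv : V → Set (ℕ × ℕ) := fun v => {a | (v, a) ∈ T}
      refine ⟨⋃ v, (fun a => (v, a)) '' {a | Minimal (· ∈ Tv v) a},
        Set.finite_iUnion fun v => Set.Finite.image _
          (WellQuasiOrderedLE.finite_of_isAntichain (setOfPred_minimal_antichain _)), ?_, ?_⟩
      · simp only [Set.iUnion_subset_iff]
        rintro v _ ⟨a, ha, rfl⟩
        exact ha.1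
      · rintro ⟨v, i, j⟩ ht
        obtain ⟨⟨i', j'⟩, hb, hb'⟩ := (Set.isPWO_of_wellQuasiOrderedLE (Tv v)).exists_le_minimal
          (a := (i, j)) ht
        refine ⟨(v, i', j'), Set.mem_iUnion.2 ⟨v, _, hb', rfl⟩, ?_⟩
        obtain ⟨a, rfl⟩ := Nat.exists_eq_add_of_le (show i' ≤ i from hb.1)
        obtain ⟨b, rfl⟩ := Nat.exists_eq_add_of_le (show j' ≤ j from hb.2)
        clear hb hb' ht
        induction a with
        | zero =>
          induction b with
          | zero => exact .refl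
          | succ b ih => exact ih.tail ⟨false, rfl⟩
        | succ a ih => exact ih.tail ⟨true, rfl⟩) p
    (fun h => by
      obtain ⟨j, hj⟩ := (show ∀ᶠ j in U, (1 : MvPolynomial _ K) ∈ P j from
        (Ideal.eq_top_iff_one p).1 h).exists
      exact (hP j).ne_top ((Ideal.eq_top_iff_one _).2 hj))
    fun θ G hG => hG.mono fun j h => hPs j θ G h
  have h4 : ∀ᶠ j in U, ∀ G ∈ A, G ∈ P j := (eventually_all_finite hA).2 h1
  have h5 : ∀ᶠ j in U, ∀ G ∈ I, G ∉ P j :=
    (eventually_all_finite hI).2 fun G hG => Ultrafilter.eventually_not.2 (h2 G hG)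
  exact ⟨_, h4.and h5, fun F hF n hn => h3 (P n) (hP n) (hPs n) hn.1 hn.2 hF⟩

end Pool.Agent.P.MP_0cf807_al
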