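import Pool.Agent.P.MP_0cf807_al.ZFrame
import Pool.Agent.P.MP_0cf807_al.ZRR

/-!
Frames of power series in finitely many monomials are good.
-/

set_option autoImplicit false

noncomputable section

namespace Pool.Agent.P.MP_0cf807_al

open PowerSeries Filter

theorem finite_iter {α ι : Type} [Preorder α] {P : α → Prop} {Q : ι → α → Prop}
    (hm : ∀ i a b, a ≤ b → Q i a → Q i b) {s : Set ι} (hs : s.Finite)
    (h : ∀ i ∈ s, ∀ a, P a → ∃ b, P b ∧ a ≤ b ∧ Q i b) {a : α} (ha : P a) :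
    ∃ b, P b ∧ a ≤ b ∧ ∀ i ∈ s, Q i b := by
  induction s, hs using Set.Finite.induction_on with
  | empty => exact ⟨a, ha, le_rfl, by simp⟩
  | insert _ _ ih =>
    obtain ⟨b, h1, h2, h3⟩ := ih fun i hi => h i (Set.mem_insert_of_mem _ hi)
    obtain ⟨c, h4, h5, h6⟩ := h _ (Set.mem_insert _ _) b h1
    exact ⟨c, h4, h2.trans h5, by
      rintro i (rfl | hi)
      exacts [h6, hm i b c h5 (h3 i hi)]⟩

variable {E A ι : Type} [Field E] [CommRing A] [Finite ι]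

theorem hasSubst_pow (w : ι → ℕ) :
    MvPowerSeries.HasSubst fun i => (X ^ (w i + 1) : E⟦X⟧) :=
  MvPowerSeries.hasSubst_of_constantCoeff_zero fun i => by
    rw [← constantCoeff_eq]
    simp

/-- Evaluation of a power series at monomials. -/
def evb (φ : A →+* E) (w : ι → ℕ) : MvPowerSeries ι A →+* E⟦X⟧ :=
  (MvPowerSeries.substAlgHom (R := E) (hasSubst_pow w)).toRingHom.comp (MvPowerSeries.map φ)

theorem evb_apply (φ : A →+* E) (w : ι → ℕ) (Φ : MvPowerSeries ι A) : evb φ w Φ =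
    MvPowerSeries.subst (fun i => (X ^ (w i + 1) : E⟦X⟧)) (MvPowerSeries.map φ Φ) :=
  MvPowerSeries.substAlgHom_apply (hasSubst_pow w) _

theorem prod_pow_eq (w : ι → ℕ) (m : ι →₀ ℕ) : (m.prod fun i e => (X ^ (w i + 1) : E⟦X⟧) ^ e) =
    X ^ Finsupp.weight (fun i => w i + 1) m := by
  simp only [Finsupp.weight_apply, Finsupp.prod, Finsupp.sum, ← pow_mul,
    Finset.prod_pow_eq_pow_sum, smul_eq_mul, mul_comm]

theorem evb_monomial (φ : A →+* E) (w : ι → ℕ) (m : ι →₀ ℕ) (a : A) :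
    evb φ w (MvPowerSeries.monomial m a) = C (φ a) * X ^ Finsupp.weight (fun i => w i + 1) m := by
  rw [evb_apply, MvPowerSeries.map_monomial, MvPowerSeries.subst_monomial (hasSubst_pow w),
    prod_pow_eq]
  rfl

theorem coeff_evb (φ : A →+* E) (w : ι → ℕ) (Φ : MvPowerSeries ι A) (k : ℕ)
    (s : Finset (ι →₀ ℕ)) (hs : ∀ m, m ∈ s ↔ Finsupp.weight (fun i => w i + 1) m = k) :
    coeff k (evb φ w Φ) = ∑ m ∈ s, φ (Φ m) := by
  rw [evb_apply, coeff_def (s := Finsupp.single () k) (by simp),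
    MvPowerSeries.coeff_subst (hasSubst_pow w)]
  simp only [prod_pow_eq, ← coeff_def (s := Finsupp.single () k) (n := k) (by simp), coeff_X_pow,
    MvPowerSeries.coeff_map]
  rw [finsum_eq_sum_of_support_subset (s := s)]
  · exact Finset.sum_congr rfl fun m hm => by simp [(hs m).1 hm, MvPowerSeries.coeff_apply]
  · intro m hm
    by_contra h
    exact hm (by simp [Ne.symm fun e => h ((hs m).2 e)])

theorem evb_rename {A' ι' : Type} [CommRing A'] [Finite ι'] (e : ι → ι') (ψ : A →+* A')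
    (φ : A' →+* E) (w : ι' → ℕ) (Φ : MvPowerSeries ι A) :
    evb φ w (MvPowerSeries.rename e (MvPowerSeries.map ψ Φ)) = evb (φ.comp ψ) (w ∘ e) Φ := by
  rw [evb_apply, evb_apply, ← MvPowerSeries.rename_map, MvPowerSeries.rename_eq_subst,
    MvPowerSeries.subst_comp_subst_apply (MvPowerSeries.HasSubst.X_comp e) (hasSubst_pow w),
    MvPowerSeries.map_comp]
  congr 1
  ext1 i
  exact MvPowerSeries.subst_X (hasSubst_pow w) _

/-- Weighted sum with respect to one variable. -/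
def mvsum (i : ι) (b : ℕ → MvPowerSeries ι A) : MvPowerSeries ι A :=
  fun m => ∑ j ∈ Finset.range (m i + 1), b j (m - Finsupp.single i j)

theorem mvsum_succ (i : ι) (b : ℕ → MvPowerSeries ι A) :
    mvsum i b = b 0 + MvPowerSeries.X i * mvsum i fun j => b (j + 1) := by
  classical
  ext m
  rw [map_add, MvPowerSeries.X_def, MvPowerSeries.coeff_monomial_mul]
  simp only [MvPowerSeries.coeff_apply, mvsum, Finset.sum_range_succ', Finsupp.single_le_iff]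
  split_ifs with h
  · obtain ⟨k, hk⟩ := Nat.exists_eq_add_of_le' h
    simp [hk, Finset.sum_range_succ', tsub_tsub, add_comm, ← Finsupp.single_add]
  · simp [show m i = 0 by omega]

theorem evb_mvsum (φ : A →+* E) (w : ι → ℕ) {i : ι} (hi : w i = 0) (b : ℕ → MvPowerSeries ι A) :
    evb φ w (mvsum i b) = hsum fun j => evb φ w (b j) :=
  hsum_unique (f := fun k => evb φ w (mvsum i fun j => b (j + k))) fun k => by
    rw [mvsum_succ, map_add, map_mul, MvPowerSeries.X_def, evb_monomial]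
    simp [Finsupp.weight_single, hi, add_assoc, add_comm 1]

variable (K : Type) [Field K] [Algebra K E] (d₁ d₂ : AddMonoid.End E) (U : Ultrafilter ℕ)

/-- The differential algebra generated by a set of sequences. -/
def gA (s : Set (ℕ → E)) : Subalgebra K (ℕ → E) :=
  Algebra.adjoin K (Set.range fun w : s × ℕ × ℕ => fun n => (d₁ ^ w.2.1 * d₂ ^ w.2.2) (w.1.1 n))

/-- Data of a basic frame. -/
structure BD where
  s : Set (ℕ → E)
  hs : s.Finite
  T : Set (ℕ → ℕ)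
  hT : T.Finite
  h0 : 0 ∈ T
  hc : ∀ M ∈ T, (fun n => (M n : E)) ∈ s
  Ω : Set ℕ
  hΩ : Ω ∈ U
  unif : ∀ a ∈ gA K d₁ d₂ s, (∀ᶠ n in U, a n = 0) → ∀ n ∈ Ω, a n = 0

variable {K d₁ d₂ U}

instance (D : BD K d₁ d₂ U) : Finite D.T := D.hT

/-- Evaluation at an index. -/
def BD.ev (D : BD K d₁ d₂ U) (n : ℕ) : MvPowerSeries D.T (gA K d₁ d₂ D.s) →+* E⟦X⟧ :=
  evb ((Pi.evalRingHom _ n).comp (gA K d₁ d₂ D.s).val.toRingHom) fun M => M.1 n

/-- The basic frame. -/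
def BD.frame (D : BD K d₁ d₂ U) : Frame E U where
  Ω := D.Ω
  hΩ := D.hΩ
  R :=
    { carrier := {f | ∃ Φ, ∀ n ∈ D.Ω, f n = D.ev n Φ}
      zero_mem' := ⟨0, by simp⟩
      one_mem' := ⟨1, by simp⟩
      add_mem' := fun ⟨Φ, h⟩ ⟨Ψ, h'⟩ => ⟨Φ + Ψ, fun n hn => by simp [h n hn, h' n hn]⟩
      mul_mem' := fun ⟨Φ, h⟩ ⟨Ψ, h'⟩ => ⟨Φ * Ψ, fun n hn => by simp [h n hn, h' n hn]⟩
      neg_mem' := fun ⟨Φ, h⟩ => ⟨-Φ, fun n hn => by simp [h n hn]⟩ }
  sat f := fun ⟨Φ, h⟩ g hg => ⟨Φ, fun n hn => (hg n hn).trans (h n hn)⟩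
  hs b hb := by
    choose Φ hΦ using hb
    exact ⟨mvsum ⟨0, D.h0⟩ Φ, fun n hn => by
      rw [BD.ev, evb_mvsum (i := (⟨0, D.h0⟩ : D.T)) _ _ rfl]
      exact congrArg hsum (funext fun i => hΦ i n hn)⟩

theorem BD.C_mem (D : BD K d₁ d₂ U) {a : ℕ → E} (ha : a ∈ gA K d₁ d₂ D.s) :
    (fun n => C (a n)) ∈ D.frame.R :=
  ⟨MvPowerSeries.monomial 0 ⟨a, ha⟩, fun n _ => by rw [BD.ev, evb_monomial]; simp⟩

theorem gA_mono {s t : Set (ℕ → E)} (h : s ⊆ t) : gA K d₁ d₂ s ≤ gA K d₁ d₂ t :=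
  Algebra.adjoin_mono (by rintro _ ⟨w, rfl⟩; exact ⟨(⟨_, h w.1.2⟩, w.2), rfl⟩)

theorem gA_mem {s : Set (ℕ → E)} {z : ℕ → E} (h : z ∈ s) : z ∈ gA K d₁ d₂ s :=
  Algebra.subset_adjoin ⟨(⟨z, h⟩, 0, 0), by simp⟩

variable [CharZero K] (h₁ : IsDer d₁) (h₂ : IsDer d₂) (hc : Commute d₁ d₂)
  (k₁ : ∀ a, d₁ (algebraMap K E a) = 0) (k₂ : ∀ a, d₂ (algebraMap K E a) = 0)

include h₁ h₂ hc k₁ k₂

theorem gA_unif {s : Set (ℕ → E)} (hs : s.Finite) :
    ∃ Ω ∈ U, ∀ a ∈ gA K d₁ d₂ s, (∀ᶠ n in U, a n = 0) → ∀ n ∈ Ω, a n = 0 := by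
  have : Finite s := hs
  obtain ⟨Ω, hΩ, h⟩ := rr_uniform d₁ d₂ h₁ h₂ hc k₁ k₂ U fun z : s => z.1
  refine ⟨Ω, hΩ, fun a ha => ?_⟩
  rw [gA, Algebra.adjoin_range_eq_range_aeval] at ha
  obtain ⟨F, rfl⟩ := ha
  have e := fun n => MvPolynomial.comp_aeval_apply (fun w : s × ℕ × ℕ => fun n =>
    (d₁ ^ w.2.1 * d₂ ^ w.2.2) (w.1.1 n)) (Pi.evalAlgHom K (fun _ => E) n) F
  exact fun h0 n hn => (e n).trans (h F (h0.mono fun n h => (e n).symm.trans h) n hn)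

theorem BD.extend (D : BD K d₁ d₂ U) (z : ℕ → E) (M : ℕ → ℕ) {Ω : Set ℕ} (hΩ : Ω ∈ U) :
    ∃ D' : BD K d₁ d₂ U, D.frame ≤ D'.frame ∧ z ∈ D'.s ∧ M ∈ D'.T ∧ D'.Ω ⊆ Ω := by
  have hs := (D.hs.insert fun n => (M n : E)).insert z
  obtain ⟨Ω', hΩ', h⟩ := gA_unif (U := U) h₁ h₂ hc k₁ k₂ hs
  refine ⟨⟨_, hs, insert M D.T, D.hT.insert M, Set.mem_insert_of_mem _ D.h0, ?_,
    Ω' ∩ (D.Ω ∩ Ω), inter_mem hΩ' (inter_mem D.hΩ hΩ), fun a ha h0 n hn => h a ha h0 n hn.1⟩,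
    ⟨fun n hn => hn.2.1, fun f ⟨Φ, hΦ⟩ => ⟨MvPowerSeries.rename
      (Set.inclusion (Set.subset_insert _ _)) (MvPowerSeries.map (Subalgebra.inclusion (gA_mono
      ((Set.subset_insert _ _).trans (Set.subset_insert _ _)))).toRingHom Φ), fun n hn => ?_⟩⟩,
    Set.mem_insert _ _, Set.mem_insert _ _, fun n hn => hn.2.2⟩
  · rintro _ (rfl | h)
    · exact Set.mem_insert_of_mem _ (Set.mem_insert _ _)
    · exact Set.mem_insert_of_mem _ (Set.mem_insert_of_mem _ (D.hc _ h))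
  · rw [hΦ n hn.2.1, BD.ev, BD.ev, evb_rename]
    rfl

theorem BD.kmove (D : BD K d₁ d₂ U) (N : ℕ → ℕ) :
    ∃ D' : BD K d₁ d₂ U, D.frame ≤ D'.frame ∧ (fun n => X ^ N n) ∈ D'.frame.R := by
  rcases U.em fun n => N n = 0 with h | h
  · obtain ⟨D', h1, -, -, h2⟩ := D.extend h₁ h₂ hc k₁ k₂ 0 0 h
    exact ⟨D', h1, D'.frame.sat _ (one_mem _) _ fun n hn => by simp [show N n = 0 from h2 hn]⟩
  · obtain ⟨D', h1, -, h3, h2⟩ := D.extend h₁ h₂ hc k₁ k₂ 0 (fun n => N n - 1) h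
    refine ⟨D', h1, MvPowerSeries.monomial (Finsupp.single ⟨_, h3⟩ 1) 1, fun n hn => ?_⟩
    simp [BD.ev, evb_monomial, Finsupp.weight_single, Nat.sub_add_cancel
      (Nat.one_le_iff_ne_zero.2 (h2 hn))]

theorem gA_closed {s : Set (ℕ → E)} {d : AddMonoid.End E} (hd : d ∈ Subring.closure {d₁, d₂}) :
    ∀ a ∈ gA K d₁ d₂ s, (fun n => d (a n)) ∈ gA K d₁ d₂ s := by
  induction hd using Subring.closure_induction with
  | mem d hd =>
    have hd' : IsDer d ∧ ∀ a, d (algebraMap K E a) = 0 := by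
      rcases hd with rfl | rfl
      exacts [⟨h₁, k₁⟩, ⟨h₂, k₂⟩]
    intro a ha
    induction ha using Algebra.adjoin_induction with
    | mem a ha =>
      obtain ⟨⟨z, i, j⟩, rfl⟩ := ha
      rcases hd with rfl | rfl
      · exact Algebra.subset_adjoin ⟨(z, i + 1, j), by simp only [pow_succ', mul_assoc]; rfl⟩
      · refine Algebra.subset_adjoin ⟨(z, i, j + 1), ?_⟩
        simp only [pow_succ', ← mul_assoc, (hc.pow_left _).eq]
        rfl
    | algebraMap a => exact (funext fun n => hd'.2 a : _ = (0 : ℕ → E)) ▸ zero_mem _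
    | add a b _ _ h1 h2 => simpa only [Pi.add_apply, map_add] using! add_mem h1 h2
    | mul a b ha hb h1 h2 =>
      simpa only [Pi.mul_apply, hd'.1 _] using! add_mem (mul_mem h1 hb) (mul_mem ha h2)
  | zero => exact fun f _ => zero_mem _
  | one => exact fun f hf => hf
  | add d e _ _ h1 h2 => exact fun f hf => add_mem (h1 f hf) (h2 f hf)
  | neg d _ h1 => exact fun f hf => neg_mem (h1 f hf)
  | mul d e _ _ h1 h2 => exact fun f hf => h1 _ (h2 f hf)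

theorem BD.n1 [CharZero E] (D : BD K d₁ d₂ U) {c : Set (ℕ → E⟦X⟧)}
    (hcR : c ⊆ D.frame.R) : ∃ D' : BD K d₁ d₂ U, D.frame ≤ D'.frame ∧ Concl c D'.frame := by
  classical
  obtain ⟨w, hw⟩ : ∃ w : ℕ → (D.T →₀ ℕ) →+ ℕ, ∀ n, w n = Finsupp.weight fun M => M.1 n + 1 :=
    ⟨_, fun _ => rfl⟩
  have hfin : ∀ n k, {m | w n m = k}.Finite := fun n k => by
    rw [hw]
    exact Finsupp.finite_of_nat_weight_eq _ (by simp) k
  have hcast : ∀ m, (fun n => (w n m : E)) ∈ gA K d₁ d₂ D.s := fun m => by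
    convert sum_mem fun i (_ : i ∈ m.support) => mul_mem (natCast_mem _ (m i))
      (add_mem (gA_mem (K := K) (d₁ := d₁) (d₂ := d₂) (D.hc i.1 i.2)) (one_mem _)) using 1
    ext n
    simp [hw, Finsupp.weight_apply, Finsupp.sum]
  have hsim : ∀ m m', (∀ᶠ n in U, w n m = w n m') → ∀ n ∈ D.Ω, w n m = w n m' :=
    fun m m' h n hn => by
      simpa [sub_eq_zero] using D.unif _ (sub_mem (hcast m) (hcast m'))
        (h.mono fun n h => by simp [h]) n hn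
  obtain ⟨n₀, hn₀⟩ := D.frame.ev.exists
  obtain ⟨cl, hcl⟩ : ∃ cl : (D.T →₀ ℕ) → Finset (D.T →₀ ℕ),
      ∀ m m', m' ∈ cl m ↔ ∀ n ∈ D.Ω, w n m' = w n m :=
    ⟨fun m => ((hfin n₀ (w n₀ m)).subset fun m' (h : ∀ n ∈ D.Ω, w n m' = w n m) =>
      h n₀ hn₀).toFinset, fun m m' => Set.Finite.mem_toFinset _⟩
  have hcl' : ∀ m m', m' ∈ cl m ↔ cl m' = cl m := fun m m' =>
    ⟨fun h => Finset.ext fun a => by
      rw [hcl, hcl]
      exact forall₂_congr fun n hn => by rw [(hcl _ _).1 h n hn],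
    fun h => h ▸ (hcl _ _).2 fun _ _ => rfl⟩
  have hev : ∀ n k Φ, coeff k (D.ev n Φ) = ∑ m ∈ (hfin n k).toFinset, (Φ m).1 n :=
    fun n k Φ => coeff_evb _ _ Φ k _ fun m => by simp [hw]
  choose! Φ hΦ using show ∀ f ∈ c, ∃ Φ, ∀ n ∈ D.Ω, f n = D.ev n Φ from hcR
  obtain ⟨g, hg⟩ : ∃ g : (ℕ → E⟦X⟧) → (D.T →₀ ℕ) → Prop,
      ∀ f m, g f m ↔ ¬ ∀ᶠ n in U, ∑ m' ∈ cl m, (Φ f m').1 n = 0 := ⟨_, fun _ _ => Iff.rfl⟩
  let Φ' : (ℕ → E⟦X⟧) → MvPowerSeries D.T (gA K d₁ d₂ D.s) := fun f m =>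
    if g f m then Φ f m else 0
  have drop : ∀ f ∈ c, ∀ n ∈ D.Ω, f n = D.ev n (Φ' f) := by
    intro f hf n hn
    rw [hΦ f hf n hn]
    ext k
    rw [hev, hev, ← sub_eq_zero, ← Finset.sum_sub_distrib, ← Finset.sum_fiberwise_of_maps_to
      fun m hm => Finset.mem_image_of_mem cl hm]
    refine Finset.sum_eq_zero fun y hy => ?_
    obtain ⟨m, hm, rfl⟩ := Finset.mem_image.1 hy
    have e : (hfin n k).toFinset.filter (fun m' => cl m' = cl m) = cl m := by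
      ext m'
      simp only [Finset.mem_filter, ← hcl', Set.Finite.mem_toFinset, Set.mem_setOf_eq] at hm ⊢
      exact ⟨And.right, fun h => ⟨((hcl _ _).1 h n hn).trans hm, h⟩⟩
    have e' : ∀ m' ∈ cl m, g f m' ↔ g f m := fun m' h => by rw [hg, hg, (hcl' _ _).1 h]
    rw [e]
    by_cases h : g f m
    · exact Finset.sum_eq_zero fun m' hm' => by simp [Φ', e' m' hm', h]
    · rw [Finset.sum_congr rfl fun m' hm' => show _ = (Φ f m').1 n by simp [Φ', e' m' hm', h]]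
      simpa using D.unif _ (sum_mem fun m' (_ : m' ∈ cl m) => (Φ f m').2)
        (by simpa [hg] using h) n hn
  by_cases h0 : ∀ f ∈ c, ∀ m, ¬ g f m
  · exact ⟨D, le_rfl, Or.inl fun f hf n hn => by
      rw [drop f hf n hn, show Φ' f = 0 from funext fun m => if_neg (h0 f hf m), map_zero]⟩
  push Not at h0
  let M : Set (D.T →₀ ℕ) := {m | ∃ f ∈ c, g f m}
  have hB : {b | Minimal (· ∈ M) b}.Finite :=
    WellQuasiOrderedLE.finite_of_isAntichain (setOfPred_minimal_antichain _)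
  choose! sel hsel hsel' using fun m (hm : m ∈ M) =>
    (Set.isPWO_of_wellQuasiOrderedLE M).exists_le_minimal hm
  obtain ⟨b, hb, hb'⟩ := (U.eventually_exists_mem_iff (P := fun b n => ∀ b' ∈
      {b | Minimal (· ∈ M) b}, w n b ≤ w n b') hB).1 (Eventually.of_forall fun n => by
    obtain ⟨f, hf, m, hm⟩ := h0
    exact Set.exists_min_image _ (w n) hB ⟨_, hsel' m ⟨f, hf, hm⟩⟩)
  obtain ⟨_, ⟨D₁, rfl⟩, h1, h2⟩ := finite_iter
    (P := fun F : Frame E U => ∃ D : BD K d₁ d₂ U, D.frame = F)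
    (Q := fun b' F => (fun n => X ^ (w n b' - w n b)) ∈ F.R) (fun _ _ _ h h' => And.right h h') hB
    (by
      rintro b' - _ ⟨D, rfl⟩
      obtain ⟨D', h⟩ := D.kmove h₁ h₂ hc k₁ k₂ fun n => w n b' - w n b
      exact ⟨_, ⟨D', rfl⟩, h⟩) ⟨D, rfl⟩
  obtain ⟨D₂, h3, -, -, h4⟩ := D₁.extend h₁ h₂ hc k₁ k₂ 0 0 hb'
  refine ⟨D₂, h1.trans h3, Or.inr ⟨fun n => w n b, fun f hf => ?_, ?_⟩⟩
  · let Ψ : (D.T →₀ ℕ) → MvPowerSeries D.T (gA K d₁ d₂ D.s) := fun b' m =>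
      if sel (m + b') = b' then Φ' f (m + b') else 0
    have e : Φ' f = ∑ b' ∈ hB.toFinset, MvPowerSeries.monomial b' 1 * Ψ b' := by
      ext1 m
      simp only [map_sum, MvPowerSeries.coeff_monomial_mul, one_mul]
      simp only [MvPowerSeries.coeff_apply, Ψ]
      by_cases h : g f m
      · rw [Finset.sum_eq_single_of_mem (sel m) (hB.mem_toFinset.2 (hsel' m ⟨f, hf, h⟩))]
        · simp [hsel m ⟨f, hf, h⟩, tsub_add_cancel_of_le]
        · intro b' _ hb'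
          split_ifs with h1 h2
          exacts [(hb' (by rw [← h2, tsub_add_cancel_of_le h1])).elim, rfl, rfl]
      · rw [Finset.sum_eq_zero fun b' _ => ?_]
        · exact if_neg h
        · split_ifs with h1 h2
          exacts [by rw [tsub_add_cancel_of_le h1]; exact if_neg h, rfl, rfl]
    refine ⟨_, sum_mem fun b' (hb' : b' ∈ hB.toFinset) => mul_mem (h3.2 (h2 b'
      (hB.mem_toFinset.1 hb'))) ((h1.trans h3).2 ⟨Ψ b', fun _ _ => rfl⟩), fun n hn => ?_⟩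
    rw [drop f hf n ((h1.trans h3).1 hn), e, map_sum, Finset.sum_apply, Finset.mul_sum]
    refine Finset.sum_congr rfl fun b' hb' => ?_
    rw [map_mul, Pi.mul_apply, ← mul_assoc, ← pow_add,
      Nat.add_sub_cancel' (h4 hn b' (hB.mem_toFinset.1 hb')), hw, BD.ev, evb_monomial]
    simp
  · obtain ⟨f, hf, hfb⟩ := hb.1
    refine ⟨f, hf, ?_⟩
    have h5 : ∀ᶠ n in U, ∀ b' ∈ {b | Minimal (· ∈ M) b}, w n b' = w n b → b' ∈ cl b :=
      (eventually_all_finite hB).2 fun b' _ => (U.em fun n => w n b' = w n b).elim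
        (fun h => Eventually.of_forall fun _ _ => (hcl _ _).2 (hsim _ _ h))
        fun h => h.mono fun n h h' => (h h').elim
    filter_upwards [Ultrafilter.eventually_not.2 ((hg _ _).1 hfb), h5, hb', D.frame.ev]
      with n h6 h7 h8 hn
    rw [drop f hf n hn, hev, ← Finset.sum_subset (s₁ := cl b)
      (fun m hm => by simpa using (hcl _ _).1 hm n hn) fun m hm hm' => ?_]
    · rwa [Finset.sum_congr rfl fun m hm => show _ = (Φ f m).1 n by
        simp [Φ', show g f m by rw [hg, (hcl' _ _).1 hm, ← hg]; exact hfb]]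
    · by_cases h : g f m
      · have h9 := h8 _ (hsel' m ⟨f, hf, h⟩)
        obtain ⟨r, hr⟩ := exists_add_of_le (hsel m ⟨f, hf, h⟩)
        have h10 : w n m = w n b := by simpa using hm
        have h11 : w n m = w n (sel m) + w n r := by rw [← map_add, ← hr]
        have h12 : r = 0 := by
          ext i
          have := Finsupp.le_weight (fun M : D.T => M.1 n + 1) (s := i) (by simp) r
          rw [← hw] at this
          exact Nat.eq_zero_of_le_zero (by omega)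
        rw [h12, add_zero] at hr
        exact (hm' (hr ▸ h7 _ (hsel' m ⟨f, hf, h⟩) (hr ▸ h10))).elim
      · simp [Φ', h]

theorem exists_good [CharZero E] : ∃ F : Frame E U,
    Good ((Subring.closure {d₁, d₂}).map (lftE (A := E))) F ∧
    ∀ a : K, (fun _ => C (algebraMap K E a)) ∈ F.R := by
  obtain ⟨Ω, hΩ, h⟩ := gA_unif (U := U) h₁ h₂ hc k₁ k₂ (Set.finite_singleton 0)
  let D : BD K d₁ d₂ U := ⟨_, Set.finite_singleton 0, {0}, Set.finite_singleton 0, rfl,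
    by rintro _ rfl; ext; simp, Ω, hΩ, h⟩
  refine ⟨D.frame, ⟨{F | ∃ D : BD K d₁ d₂ U, D.frame = F}, ?_, _, ⟨D, rfl⟩, le_rfl⟩,
    fun a => D.C_mem (Subalgebra.algebraMap_mem _ a)⟩
  rintro _ ⟨D, rfl⟩
  refine ⟨fun c hcR => ?_, fun N => ?_, fun z => ?_⟩
  · obtain ⟨D', h⟩ := D.n1 h₁ h₂ hc k₁ k₂ hcR
    exact ⟨_, ⟨D', rfl⟩, h⟩
  · obtain ⟨D', h⟩ := D.kmove h₁ h₂ hc k₁ k₂ N
    exact ⟨_, ⟨D', rfl⟩, h⟩
  · obtain ⟨D', h1, h2, -⟩ := D.extend h₁ h₂ hc k₁ k₂ z 0 univ_mem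
    refine ⟨_, ⟨D', rfl⟩, h1, ?_⟩
    rintro _ ⟨d, hd, rfl⟩
    simpa only [lftE_apply, lft_C] using! D'.C_mem (gA_closed h₁ h₂ hc k₁ k₂ hd z (gA_mem h2))

end Pool.Agent.P.MP_0cf807_al
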