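import Pool.Agent.P.MP_0cf807_al.ZRun

/-!
The frame generated by a sequence and its derivatives over a good frame is good.
-/

set_option autoImplicit false

noncomputable section

namespace Pool.Agent.P.MP_0cf807_al

open PowerSeries Filter

variable {E σ : Type} [Field E] [CharZero E] {U : Ultrafilter ℕ}
  {𝒟 : Subring (AddMonoid.End E⟦X⟧)} {Δ : Set (AddMonoid.End E⟦X⟧)} {D : σ → AddMonoid.End E⟦X⟧}

theorem Sys.run (S : Sys 𝒟 Δ D) (ck : CK U 𝒟 Δ D) (e : ℕ) : ∀ F : Frame E U, GC 𝒟 Δ F →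
    ∀ (Z : ℕ → E⟦X⟧) (c : Set (ℕ → (MvPolynomial σ E)⟦X⟧)), (∀ Φ ∈ c, Φ ∈ (Ser σ F).R) →
    (∃ Φ ∈ c, ∃ κ : List σ, κ.length < e ∧
      ∀ᶠ n in U, constantCoeff (tev (fun θ => D θ (Z n)) (lftE (pL κ) (Φ n))) ≠ 0) →
    ∃ (G : Frame E U) (Y : ℕ → E⟦X⟧), GC 𝒟 Δ G ∧
      (gen F fun n θ => D θ (Z n)) ≤ (gen G fun n θ => D θ (Y n)) ∧
      Concl ((fun Φ n => tev (fun θ => D θ (Z n)) (Φ n)) '' c) (gen G fun n θ => D θ (Y n)) := by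
  induction e with
  | zero => exact fun _ _ _ _ _ ⟨_, _, _, h, _⟩ => absurd h (Nat.not_lt_zero _)
  | succ e ih =>
  rintro F hF Z c hc ⟨Φ₀, h₀, κ, hκ, hu⟩
  rcases κ with _ | ⟨θ₀, κ⟩
  · refine ⟨F, Z, hF, le_rfl, Or.inr ⟨fun _ => 0, ?_, _, ⟨Φ₀, h₀, rfl⟩, by simpa [pL_nil] using hu⟩⟩
    rintro _ ⟨Φ, hΦ, rfl⟩
    exact ⟨_, MP_0cf807_al.gen_mem _ (hc Φ hΦ), by simp⟩
  have hκ' : κ.length < e := by simpa using hκ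
  rcases U.em fun n => constantCoeff (tev (fun θ => D θ (Z n)) (lftE (pL κ) (Φ₀ n))) = 0
    with h1 | h1
  swap
  · exact ih F hF Z c hc ⟨Φ₀, h₀, κ, hκ', h1⟩
  have mono : ∀ G, F ≤ G → (gen F fun n θ => D θ (Z n)) ≤ gen G fun n θ => D θ (Z n) :=
    fun G h => gen_le (h.trans (le_gen _)) (gen_var _)
  obtain ⟨F₁, hF₁, l₁, W, hW, h2⟩ := S.center ck hF (Ser.pd κ _ (hc _ h₀)) θ₀ Z
    (by simpa only [pL_cons, map_mul] using! hu) h1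
  rcases U.em fun n => tev (fun θ => D θ (Z n)) (lftE (pL κ) (Φ₀ n)) = 0 with h3 | h3
  · obtain ⟨F₂, hF₂, l₂, h4⟩ := hF₁.restrict S.ops (p := fun n => Z n = W n) (by
      filter_upwards [h2, h3] with n h4 h5
      exact sub_eq_zero.1 (eq_zero_of_dvd fun k => h4 k (h5 ▸ dvd_zero _)))
    obtain ⟨F₃, hF₃, l₃, h5⟩ := hF₂.n1 S.ops
      (c := (fun Φ n => tev (fun θ => D θ (Z n)) (Φ n)) '' c) (by
        rintro _ ⟨Φ, hΦ, rfl⟩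
        exact (gen_le (l₁.trans l₂) (S.cl hF₂.2 (F₂.sat W (l₂.2 hW) Z h4))).2
          (MP_0cf807_al.gen_mem _ (hc Φ hΦ)))
    exact ⟨F₃, Z, hF₃, mono _ (l₁.trans (l₂.trans l₃)), h5.mono (le_gen _)⟩
  obtain ⟨M, hM⟩ : ∃ M : ℕ → ℕ, ∀ n,
    M n = (tev (fun θ => D θ (Z n)) (lftE (pL κ) (Φ₀ n))).order.toNat := ⟨_, fun _ => rfl⟩
  obtain ⟨F₂, hF₂, l₂, ht⟩ := hF₁.k S.ops M
  obtain ⟨F₃, hF₃, l₃, h4⟩ := hF₂.restrict S.ops h2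
  choose! Y hY using fun n (hn : n ∈ F₃.Ω) => h4 n hn (M n) (hM n ▸ X_pow_order_dvd)
  have hD : ∀ n ∈ F₃.Ω, ∀ θ, D θ (Z n) = D θ (W n) + X ^ M n * D θ (Y n) := fun n hn θ => by
    rw [← (S.xl θ).pow, ← hY n hn, ← map_add, add_sub_cancel]
  have hev : ∀ n ∈ F₃.Ω, ∀ Φ, tev (fun θ => D θ (Y n)) (tsb (fun θ => D θ (W n)) (X ^ M n) Φ) =
      tev (fun θ => D θ (Z n)) Φ := fun n hn Φ => by simp only [tev_tsb, hD n hn]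
  obtain ⟨F₄, hF₄, l₄, h5 | ⟨N, h5, _, ⟨Φ₁, h₁, rfl⟩, h6⟩⟩ := hF₃.content S.ops
    (c := (fun Φ n => tsb (fun θ => D θ (W n)) (X ^ M n) (Φ n)) '' c) (by
      rintro _ ⟨Φ, hΦ, rfl⟩
      exact Ser.tsb (S.cl hF₃.2 ((l₂.trans l₃).2 hW)) (l₃.2 ht) _
        ((Ser.mono (l₁.trans (l₂.trans l₃))).2 (hc Φ hΦ)))
  · refine ⟨F₄, Z, hF₄, mono _ (l₁.trans (l₂.trans (l₃.trans l₄))), Or.inl ?_⟩
    rintro _ ⟨Φ, hΦ, rfl⟩ n hn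
    exact (hev n (l₄.1 hn) _).symm.trans
      ((congrArg _ (h5 _ ⟨Φ, hΦ, rfl⟩ n hn)).trans (map_zero _))
  have key : ∀ {n Φ Ψ}, tsb (fun θ => D θ (W n)) (X ^ M n) Φ = X ^ N n * Ψ → ∀ κ : List σ,
      X ^ N n * lftE (pL κ) Ψ =
        X ^ (M n * κ.length) * tsb (fun θ => D θ (W n)) (X ^ M n) (lftE (pL κ) Φ) :=
    fun h κ => by
      rw [lftE_apply, ← (lft_xl _).pow, ← h, ← lftE_apply, pdL_tsb, ← pow_mul, map_pow, emb_X]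
  have key' : ∀ {n Φ Ψ}, n ∈ F₃.Ω → tsb (fun θ => D θ (W n)) (X ^ M n) Φ = X ^ N n * Ψ →
      ∀ κ : List σ, X ^ N n * tev (fun θ => D θ (Y n)) (lftE (pL κ) Ψ) =
        X ^ (M n * κ.length) * tev (fun θ => D θ (Z n)) (lftE (pL κ) Φ) := fun {n _ _} hn h κ => by
    simpa only [map_mul, map_pow, tev_X, hev _ hn] using
      congrArg (tev fun θ => D θ (Y n)) (key h κ)
  obtain ⟨G, Y', hG, l₅, h7⟩ := ih F₄ hF₄ Y {Ψ | Ψ ∈ (Ser σ F₄).R ∧ ∃ Φ ∈ c, ∀ n ∈ F₄.Ω,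
    tsb (fun θ => D θ (W n)) (X ^ M n) (Φ n) = X ^ N n * Ψ n} (fun _ h => h.1) (by
      obtain ⟨Ψ₀, k₀, e₀⟩ := h5 _ ⟨Φ₀, h₀, rfl⟩
      obtain ⟨Ψ₁, k₁, e₁⟩ := h5 _ ⟨Φ₁, h₁, rfl⟩
      rcases U.em fun n => N n = M n * (κ.length + 1) with h8 | h8
      · refine ⟨Ψ₀, ⟨k₀, Φ₀, h₀, e₀⟩, κ, hκ', ?_⟩
        filter_upwards [h8, h3, F₄.ev] with n h9 h10 hn h11
        have := congrArg (coeff (N n)) (key' (l₄.1 hn) (e₀ n hn) κ)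
        rw [coeff_X_pow_mul', if_pos le_rfl, Nat.sub_self, coeff_zero_eq_constantCoeff, h11, h9,
          mul_add, mul_one, add_comm, coeff_X_pow_mul] at this
        exact coeff_order h10 (hM n ▸ this.symm)
      · obtain ⟨κ', h9, h10⟩ := Ser.unit k₁ (fun n θ => D θ (Y n)) (κ.length + 1) (by
          filter_upwards [h8, hu, h6, F₄.ev] with n h9 h10 h11 hn
          have h12 : N n ≤ M n * (κ.length + 1) := le_of_dvd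
            ⟨_, (key' (l₄.1 hn) (e₀ n hn) (θ₀ :: κ)).symm⟩ (by
              rwa [List.length_cons, coeff_X_pow_mul', if_pos le_rfl, Nat.sub_self,
                coeff_zero_eq_constantCoeff])
          refine ⟨by simpa [e₁ n hn, coeff_X_pow_mul'] using h11, fun κ' hκ' => ?_⟩
          have := congrArg (coeff (N n)) (key (e₁ n hn) κ')
          rwa [coeff_X_pow_mul', coeff_X_pow_mul', if_pos le_rfl, hκ', if_neg (by omega),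
            Nat.sub_self, coeff_zero_eq_constantCoeff, lftE_apply, constantCoeff_lft] at this)
        exact ⟨Ψ₁, ⟨k₁, Φ₁, h₁, e₁⟩, κ', by omega, h10⟩)
  have h8 : ∀ {Φ Ψ : ℕ → _}, (∀ n ∈ F₄.Ω, tsb (fun θ => D θ (W n)) (X ^ M n) (Φ n) =
      X ^ N n * Ψ n) → ∀ n ∈ G.Ω, tev (fun θ => D θ (Z n)) (Φ n) =
      X ^ N n * tev (fun θ => D θ (Y n)) (Ψ n) := fun h n hn => by
    simpa [pL_nil] using (key' (l₄.1 (l₅.1 hn)) (h n (l₅.1 hn)) []).symm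
  refine ⟨G, Y', hG, (gen_le ((l₁.trans (l₂.trans (l₃.trans l₄))).trans (le_gen _)) fun θ =>
    Frame.sat _ _ (add_mem ((le_gen _).2 (S.cl hF₄.2 ((l₂.trans (l₃.trans l₄)).2 hW) θ))
    (mul_mem ((le_gen _).2 ((l₃.trans l₄).2 ht)) (gen_var _ θ))) _ fun n hn =>
    hD n (l₄.1 hn) θ).trans l₅, h7.scale N ?_ ?_⟩
  · rintro _ ⟨Φ, hΦ, rfl⟩
    obtain ⟨Ψ, k, e⟩ := h5 _ ⟨Φ, hΦ, rfl⟩
    exact ⟨_, ⟨Ψ, ⟨k, Φ, hΦ, e⟩, rfl⟩, h8 e⟩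
  · rintro _ ⟨Ψ, ⟨-, Φ, hΦ, e⟩, rfl⟩
    exact ⟨_, ⟨Φ, hΦ, rfl⟩, h8 e⟩

theorem Sys.free (S : Sys 𝒟 Δ D) (ck : CK U 𝒟 Δ D) {F : Frame E U} (hF : GC 𝒟 Δ F)
    (Z : ℕ → E⟦X⟧) : Good 𝒟 (gen F fun n θ => D θ (Z n)) := by
  classical
  refine ⟨{G | ∃ F, ∃ Z : ℕ → E⟦X⟧, GC 𝒟 Δ F ∧ G = gen F fun n θ => D θ (Z n)}, ?_, _,
    ⟨F, Z, hF, rfl⟩, le_rfl⟩
  rintro _ ⟨F, Z, hF, rfl⟩
  have mono : ∀ G, F ≤ G → (gen F fun n θ => D θ (Z n)) ≤ gen G fun n θ => D θ (Z n) :=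
    fun G h => gen_le (h.trans (le_gen _)) (gen_var _)
  refine ⟨fun c hc => ?_, fun N => ?_, fun z => ?_⟩
  · obtain ⟨G, hG, l, h | ⟨N, h, Φ₁, h₁, h'⟩⟩ := hF.content S.ops (c := {Φ | Φ ∈ (Ser σ F).R ∧
      ∃ f ∈ c, ∀ n ∈ F.Ω, f n = tev (fun θ => D θ (Z n)) (Φ n)}) fun _ h => h.1
    · refine ⟨_, ⟨G, Z, hG, rfl⟩, mono G l, Or.inl fun f hf n hn => ?_⟩
      obtain ⟨Φ, hΦ, e⟩ := hc hf
      rw [e n (l.1 hn), h Φ ⟨hΦ, f, hf, e⟩ n hn, map_zero]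
    obtain ⟨Ψ₁, k₁, e₁⟩ := h Φ₁ h₁
    obtain ⟨M, hM⟩ := Ser.supp k₁
    obtain ⟨κ, -, hκ⟩ := Ser.unit k₁ (fun n θ => D θ (Z n)) (M.sup Finsupp.degree + 1) (by
      filter_upwards [h', G.ev] with n h1 hn
      refine ⟨by simpa [e₁ n hn, coeff_X_pow_mul'] using h1, fun κ hκ => MvPolynomial.ext _ _
        fun m => by_contra fun h2 => Nat.not_lt_zero _ (pL_degree _ κ 0 (fun m hm => ?_) m h2)⟩
      rw [hκ, zero_add]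
      exact Nat.lt_succ_of_le (Finset.le_sup (f := Finsupp.degree) (hM n hn m hm)))
    obtain ⟨H, Y, hH, l', h1⟩ := S.run ck _ G hG Z {Ψ | Ψ ∈ (Ser σ G).R ∧ ∃ f ∈ c, ∀ n ∈ G.Ω,
      f n = X ^ N n * tev (fun θ => D θ (Z n)) (Ψ n)} (fun _ h => h.1) ⟨Ψ₁, ⟨k₁, by
        obtain ⟨-, f, hf, e⟩ := h₁
        exact ⟨f, hf, fun n hn => by simp [e n (l.1 hn), e₁ n hn, tev_X]⟩⟩, κ,
        Nat.lt_succ_self _, hκ⟩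
    refine ⟨_, ⟨H, Y, hH, rfl⟩, (mono G l).trans l', h1.scale N (fun f hf => ?_) ?_⟩
    · obtain ⟨Φ, hΦ, e⟩ := hc hf
      obtain ⟨Ψ, k, e'⟩ := h Φ ⟨hΦ, f, hf, e⟩
      have : ∀ n ∈ G.Ω, f n = X ^ N n * tev (fun θ => D θ (Z n)) (Ψ n) := fun n hn => by
        simp [e n (l.1 hn), e' n hn, tev_X]
      exact ⟨_, ⟨Ψ, ⟨k, f, hf, this⟩, rfl⟩, fun n hn => this n (l'.1 hn)⟩
    · rintro _ ⟨Ψ, ⟨-, f, hf, e⟩, rfl⟩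
      exact ⟨f, hf, fun n hn => e n (l'.1 hn)⟩
  · obtain ⟨G, hG, l, h⟩ := hF.k S.ops N
    exact ⟨_, ⟨G, Z, hG, rfl⟩, mono G l, (le_gen _).2 h⟩
  · obtain ⟨G, hG, l, h⟩ := hF.1.step.2.2 z
    exact ⟨_, ⟨_, Z, core_gc S.ops hG, rfl⟩, mono _ (le_core S.ops hF.2 l), fun d hd =>
      (le_gen _).2 fun d' hd' => h (d' * d) (mul_mem (Subring.closure_le.2
        (fun δ hδ => (S.ops δ hδ).2.2) (mon_le _ hd')) hd)⟩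

variable (U 𝒟 Δ) in
/-- Every sequence can be adjoined. -/
def Adj : Prop := ∀ F : Frame E U, GC 𝒟 Δ F → ∀ Z, ∃ G, GC 𝒟 Δ G ∧ F ≤ G ∧ Z ∈ G.R

theorem Sys.adj (S : Sys 𝒟 Δ D) (ck : CK U 𝒟 Δ D) : Adj U 𝒟 Δ := fun _ hF Z =>
  ⟨_, ⟨S.free ck hF Z, S.gen_closed hF.2 Z⟩, le_gen _, S.gen_mem Z (one_mem _)⟩

end Pool.Agent.P.MP_0cf807_al
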