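import Pool.Agent.P.MP_0cf807_al.ZBottom
import Pool.Agent.P.MP_0cf807_al.ZFree

/-!
Solutions of quasilinear equations are adjoined with one derivation less.
-/

set_option autoImplicit false

noncomputable section

namespace Pool.Agent.P.MP_0cf807_al

open PowerSeries Filter

variable {E σ : Type} [Field E] {U : Ultrafilter ℕ} {𝒟 : Subring (AddMonoid.End E⟦X⟧)}

/-- Elements of one frame up to multiples of the variable in another frame. -/
def near (G T : Frame E U) : Frame E U where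
  Ω := T.Ω
  hΩ := T.hΩ
  R :=
    { carrier := {f | ∃ e ∈ G.R, e ∈ T.R ∧ ∃ t ∈ T.R, ∀ n ∈ T.Ω, f n = e n + X * t n}
      zero_mem' := ⟨0, zero_mem _, zero_mem _, 0, zero_mem _, by simp⟩
      one_mem' := ⟨1, one_mem _, one_mem _, 0, zero_mem _, by simp⟩
      add_mem' := fun ⟨e, h1, h2, t, h3, h⟩ ⟨e', k1, k2, t', k3, h'⟩ =>
        ⟨_, add_mem h1 k1, add_mem h2 k2, _, add_mem h3 k3, fun n hn => by
          simp only [Pi.add_apply, h n hn, h' n hn]; ring⟩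
      mul_mem' := fun ⟨e, h1, h2, t, h3, h⟩ ⟨e', k1, k2, t', k3, h'⟩ =>
        ⟨_, mul_mem h1 k1, mul_mem h2 k2, _, add_mem (mul_mem h2 k3)
          (mul_mem h3 (add_mem k2 (mul_mem T.X_mem k3))), fun n hn => by
          simp only [Pi.add_apply, Pi.mul_apply, h n hn, h' n hn]; ring⟩
      neg_mem' := fun ⟨e, h1, h2, t, h3, h⟩ => ⟨_, neg_mem h1, neg_mem h2, _, neg_mem h3,
        fun n hn => by simp only [Pi.neg_apply, h n hn]; ring⟩ }
  sat f := fun ⟨e, h1, h2, t, h3, h⟩ g hg =>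
    ⟨e, h1, h2, t, h3, fun n hn => (hg n hn).trans (h n hn)⟩
  hs b hb := by
    choose e h1 h2 t h3 h using hb
    exact ⟨e 0, h1 0, h2 0, _, add_mem (h3 0) (T.hs (fun i => b (i + 1)) fun i => T.sat _
      (add_mem (h2 _) (mul_mem T.X_mem (h3 _))) _ (h _)), fun n hn => by
        rw [Pi.add_apply, mul_add, ← add_assoc, ← h 0 n hn]
        exact hsum_succ _⟩

theorem le_of_near {G T : Frame E U} (h : G.Ω ⊆ T.Ω) (h' : T ≤ near G T) : T ≤ G := by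
  refine ⟨h, fun f hf => ?_⟩
  choose! e h1 _ t h3 h4 using h'.2
  have h5 : ∀ i, t^[i] f ∈ T.R := fun i => by
    induction i with
    | zero => exact hf
    | succ i ih => exact Function.iterate_succ_apply' t i f ▸ h3 ih
  exact G.sat _ (G.hs _ fun i => h1 (h5 i)) _ fun n hn => hsum_unique (f := fun i => t^[i] f n)
    fun i => by rw [Function.iterate_succ_apply', h4 (h5 i) n (h hn)]

theorem ck_of [CharZero E] {δ₁ δ₂ : AddMonoid.End E⟦X⟧} (hc : Commute δ₁ δ₂) (ι : σ → ℕ × ℕ)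
    (S : Sys 𝒟 {δ₁, δ₂} fun θ => δ₁ ^ (ι θ).1 * δ₂ ^ (ι θ).2) (L : ℕ → Finset ℕ)
    (hL : ∀ r (V : Finset σ) (c : σ → E), V.Nonempty → (∀ θ ∈ V, c θ ≠ 0 ∧
      (ι θ).1 + (ι θ).2 = r) → ∃ l ∈ L r, ∑ θ ∈ V, c θ * (l : E) ^ (ι θ).1 ≠ 0)
    (hA : ∀ r, ∀ l ∈ L r, r = 0 ∨ Adj U 𝒟 {0, δ₁ - l • δ₂}) :
    CK U 𝒟 {δ₁, δ₂} fun θ => δ₁ ^ (ι θ).1 * δ₂ ^ (ι θ).2 := by
  classical
  rintro F hF Y V a ha ⟨θ₀, h₀, h₀'⟩ g hg t ht heq
  obtain ⟨F₁, hF₁, l₁, h1⟩ := hF.div S.ops (c := {f | f ∈ F.R ∧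
    ¬ ∀ᶠ n in U, constantCoeff (f n) ≠ 0}) (fun _ h => h.1) (fun _ => 1) fun f hf =>
      (Ultrafilter.eventually_not.2 hf.2).mono fun n hn => by simpa [X_dvd_iff] using hn
  choose! q hq hq' using h1
  let V₁ := V.filter fun θ => ∀ᶠ n in U, constantCoeff (a θ n) ≠ 0
  obtain ⟨θ₁, h2, h3⟩ := V₁.exists_max_image (fun θ => (ι θ).1 + (ι θ).2)
    ⟨θ₀, Finset.mem_filter.2 ⟨h₀, h₀'⟩⟩
  obtain ⟨r, hr⟩ : ∃ r, (ι θ₁).1 + (ι θ₁).2 = r := ⟨_, rfl⟩
  let V₂ := V₁.filter fun θ => (ι θ).1 + (ι θ).2 = r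
  obtain ⟨l, hl, h4⟩ := (U.eventually_exists_mem_iff (P := fun (l : ℕ) n => ∑ θ ∈ V₂,
    constantCoeff (a θ n) * (l : E) ^ (ι θ).1 ≠ 0) (L r).finite_toSet).1 (by
      filter_upwards [(eventually_all_finset V₁).2 fun θ h => (Finset.mem_filter.1 h).2] with n hn
      exact hL r V₂ _ ⟨θ₁, Finset.mem_filter.2 ⟨h2, hr⟩⟩ fun θ h =>
        ⟨hn θ (Finset.mem_filter.1 h).1, (Finset.mem_filter.1 h).2⟩)
  obtain ⟨F₂, hF₂, l₂, s, hs, hs'⟩ := hF₁.inv S.ops (l₁.2 (sum_mem fun θ (_ : θ ∈ V₂) =>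
    mul_mem (ha θ) (pow_mem (natCast_mem F.R l) (ι θ).1))) (by simpa using h4)
  obtain ⟨δ, hδ⟩ : ∃ δ, δ = δ₁ - l • δ₂ := ⟨_, rfl⟩
  have m₁ : δ₁ ∈ ({δ₁, δ₂} : Set _) := Or.inl rfl
  have m₂ : δ₂ ∈ ({δ₁, δ₂} : Set _) := Or.inr rfl
  have mδ : δ ∈ Subring.closure {δ₁, δ₂} :=
    hδ ▸ sub_mem (Subring.subset_closure m₁) (nsmul_mem (Subring.subset_closure m₂) l)
  have eδ : ∀ f, δ₁ f = δ f + l * δ₂ f := fun f => by
    rw [hδ, ← nsmul_eq_mul]
    exact (sub_add_cancel _ _).symm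
  have dδ : IsDer δ := fun f g => by
    linear_combination (S.ops _ m₁).1 f g - l * (S.ops _ m₂).1 f g - eδ (f * g) + eδ f * g +
      f * eδ g
  have cδ : Commute δ₂ δ := hδ ▸ hc.symm.sub_right ((Commute.refl _).smul_right l)
  obtain ⟨G, hG, l₃, h5⟩ := finite_iter (P := GC 𝒟 {0, δ})
    (Q := fun b (G : Frame E U) => (fun n => (δ₂ ^ b) (Y n)) ∈ G.R)
    (fun _ _ _ h h' => And.right h h') (Set.finite_lt_nat r) (fun b hb G hG =>
      (hA r l hl).resolve_left (Nat.ne_zero_of_lt hb) G (hδ ▸ hG) _ |>.imp fun _ h =>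
        ⟨hδ ▸ h.1, h.2⟩) ⟨hF₂.1, by
      rintro _ (rfl | rfl)
      exacts [fun _ _ => zero_mem _, hF₂.2.closure _ mδ]⟩
  obtain ⟨T, hT⟩ : ∃ T, T = gen F₂ fun n θ => (δ₁ ^ (ι θ).1 * δ₂ ^ (ι θ).2) (Y n) := ⟨_, rfl⟩
  have cT : Closed {δ₁, δ₂} T := hT ▸ S.gen_closed hF₂.2 Y
  have lT : F₂ ≤ T := hT ▸ le_gen _
  have oT : T.Ω = F₂.Ω := hT ▸ rfl
  have YT : Y ∈ T.R := hT ▸ S.gen_mem Y (one_mem _)
  let P : ℕ → Submodule F₂.R (ℕ → E⟦X⟧) := fun j => Submodule.span _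
    (insert 1 {f | ∃ i, ∃ b < j, f = fun n => (δ ^ i * δ₂ ^ b) (Y n)})
  have Pm : Monotone P := fun j j' h => Submodule.span_mono (Set.insert_subset_insert
    fun _ ⟨i, b, hb, e⟩ => ⟨i, b, hb.trans_le h, e⟩)
  have Pg : ∀ j i, ∀ b < j, (fun n => (δ ^ i * δ₂ ^ b) (Y n)) ∈ P j := fun j i b hb =>
    Submodule.subset_span (Or.inr ⟨i, b, hb, rfl⟩)
  have Pd : ∀ d ∈ Subring.closure {δ₁, δ₂}, IsDer d → ∀ j j', j ≤ j' → (∀ i, ∀ b < j,
      (fun n => d ((δ ^ i * δ₂ ^ b) (Y n))) ∈ P j') → ∀ f ∈ P j, (fun n => d (f n)) ∈ P j' := by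
    intro d hd hd' j j' hj h f hf
    induction hf using Submodule.span_induction with
    | mem f hf =>
      rcases hf with rfl | ⟨i, b, hb, rfl⟩
      · simpa only [Pi.one_apply, hd'.one] using! zero_mem _
      · exact h i b hb
    | zero => simpa only [Pi.zero_apply, map_zero] using! zero_mem _
    | add f g _ _ h h' => simpa only [Pi.add_apply, map_add] using! add_mem h h'
    | smul c f hf h =>
      convert add_mem ((P j').smul_mem ⟨_, hF₂.2.closure d hd c.1 c.2⟩ (Pm hj hf))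
        ((P j').smul_mem c h) using 1
      exact funext fun n => hd' (c.1 n) (f n)
  have P1 : ∀ j, ∀ f ∈ P j, (fun n => δ (f n)) ∈ P j := fun j => Pd δ mδ dδ j j le_rfl
    fun i b hb => by simpa only [pow_succ', mul_assoc] using! Pg j (i + 1) b hb
  have P2 : ∀ j, ∀ f ∈ P j, (fun n => δ₂ (f n)) ∈ P (j + 1) := fun j => Pd δ₂
    (Subring.subset_closure m₂) (S.ops _ m₂).1 j _ j.le_succ fun i b hb => by
      simpa only [pow_succ', ← mul_assoc, ← (cδ.pow_right i).eq] using!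
        Pg (j + 1) i (b + 1) (by omega)
  have P3 : ∀ i j, (fun n => (δ₁ ^ i * δ₂ ^ j) (Y n) - l ^ i * (δ₂ ^ (i + j)) (Y n)) ∈ P (i + j) := by
    intro i
    induction i with
    | zero => exact fun j => by simpa using! zero_mem _
    | succ i ih =>
      intro j
      have e : ∀ n, (δ₁ ^ (i + 1) * δ₂ ^ j) (Y n) =
          δ ((δ₁ ^ i * δ₂ ^ j) (Y n)) + l * (δ₁ ^ i * δ₂ ^ (j + 1)) (Y n) := fun n => by
        rw [pow_succ', pow_succ', ← mul_assoc (δ₁ ^ i), (hc.pow_left i).eq, mul_assoc, mul_assoc]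
        exact eδ _
      rw [add_right_comm]
      convert add_mem (add_mem (Pm (Nat.le_succ _) (P1 _ _ (ih j))) (nsmul_mem (Pg (i + j + 1) 1
        (i + j) (Nat.lt_succ_self _)) (l ^ i))) (nsmul_mem (ih (j + 1)) l) using 1
      ext1 n
      simp only [e, Pi.add_apply, Pi.smul_apply, map_sub, ← Nat.cast_pow, ← nsmul_eq_mul,
        map_nsmul, pow_one, AddMonoid.End.coe_mul, Function.comp_apply, add_assoc]
      simp only [nsmul_eq_mul, Nat.cast_pow]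
      ring
  have P4 : ∃ p ∈ P r, ∃ t ∈ T.R, ∀ n ∈ F₂.Ω, (δ₂ ^ r) (Y n) = p n + X * t n := by
    have h6 : ∀ θ ∈ V₁, (fun n => (δ₁ ^ (ι θ).1 * δ₂ ^ (ι θ).2) (Y n) - if (ι θ).1 + (ι θ).2 = r
        then l ^ (ι θ).1 * (δ₂ ^ r) (Y n) else 0) ∈ P r := fun θ hθ => by
      split_ifs with h
      · exact h ▸ P3 _ _
      · have h7 := (hr ▸ h3 θ hθ).lt_of_ne h
        convert add_mem (Pm h7.le (P3 _ _)) (nsmul_mem (Pg r 0 _ h7) (l ^ (ι θ).1)) using 1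
        ext1 n
        simp
    refine ⟨_, neg_mem ((P r).smul_mem ⟨s, hs⟩ (add_mem ((P r).smul_mem ⟨g, (l₁.trans l₂).2 hg⟩
      (Submodule.subset_span (Or.inl rfl))) (sum_mem fun θ hθ => (P r).smul_mem
      ⟨a θ, (l₁.trans l₂).2 (ha θ)⟩ (h6 θ hθ)))), _, neg_mem (mul_mem (lT.2 hs) (add_mem
      (hT ▸ (gen_le ((l₁.trans l₂).trans (le_gen _)) (gen_var _)).2 ht) (sum_mem fun θ
      (hθ : θ ∈ V.filter fun θ => ¬ ∀ᶠ n in U, constantCoeff (a θ n) ≠ 0) => mul_mem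
      ((l₂.trans lT).2 (hq _ ⟨ha θ, (Finset.mem_filter.1 hθ).2⟩)) (hT ▸ gen_var _ θ)))),
      fun n hn => ?_⟩
    have e1 := heq n ((l₁.trans l₂).1 hn)
    have e2 := hs' n hn
    rw [← Finset.sum_filter_add_sum_filter_not V fun θ => ∀ᶠ n in U, constantCoeff (a θ n) ≠ 0,
      Finset.sum_congr rfl fun θ (hθ : θ ∈ V.filter fun θ => ¬ ∀ᶠ n in U,
        constantCoeff (a θ n) ≠ 0) => by
      rw [hq' _ ⟨ha θ, (Finset.mem_filter.1 hθ).2⟩ n (l₂.1 hn), pow_one, mul_assoc],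
      ← Finset.mul_sum] at e1
    simp only [Finset.sum_apply, Pi.mul_apply, Pi.pow_apply, Pi.natCast_apply, V₂,
      Finset.sum_filter (s := V₁)] at e2
    simp only [Pi.neg_apply, Pi.add_apply, Pi.mul_apply, Finset.sum_apply, Subring.smul_def,
      smul_eq_mul, Pi.one_apply, mul_sub, Finset.sum_sub_distrib]
    rw [Finset.sum_congr rfl fun θ _ => show a θ n * (if (ι θ).1 + (ι θ).2 = r then
      (l : E⟦X⟧) ^ (ι θ).1 * (δ₂ ^ r) (Y n) else 0) = (if (ι θ).1 + (ι θ).2 = r then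
      a θ n * l ^ (ι θ).1 else 0) * (δ₂ ^ r) (Y n) by split_ifs <;> ring, ← Finset.sum_mul]
    linear_combination s n * e1 - (δ₂ ^ r) (Y n) * e2
  have lN : F₂ ≤ near G T := ⟨oT.le, fun f hf => ⟨f, l₃.2 hf, lT.2 hf, 0, zero_mem _, by simp⟩⟩
  have PN : ∀ j, (∀ b < j, (fun n => (δ₂ ^ b) (Y n)) ∈ (near G T).R) →
      ∀ f ∈ P j, f ∈ (near G T).R := by
    intro j h f hf
    induction hf using Submodule.span_induction with
    | mem f hf =>
      rcases hf with rfl | ⟨i, b, hb, rfl⟩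
      · exact one_mem _
      induction i with
      | zero => simpa using h b hb
      | succ i ih =>
        obtain ⟨e, h1, h2, t, h3, h4⟩ := ih
        exact ⟨_, hG.2 δ (Or.inr rfl) e h1, cT.closure δ mδ e h2, _, cT.closure δ mδ t h3,
          fun n hn => by
            rw [← S.ops.xl mδ, ← map_add, ← h4 n hn, pow_succ', mul_assoc]
            rfl⟩
    | zero => exact zero_mem _
    | add f g _ _ h h' => exact add_mem h h'
    | smul c f _ h => exact mul_mem (lN.2 c.2) h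
  have P5 : ∀ b, (fun n => (δ₂ ^ b) (Y n)) ∈ (near G T).R := by
    have h6 : ∀ k, ∃ p ∈ P (r + k), ∃ t ∈ T.R, ∀ n ∈ F₂.Ω,
        (δ₂ ^ (r + k)) (Y n) = p n + X * t n := fun k => by
      induction k with
      | zero => exact P4
      | succ k ih =>
        obtain ⟨p, hp, t, ht, h⟩ := ih
        exact ⟨_, P2 _ p hp, _, cT δ₂ m₂ t ht, fun n hn => by
          rw [← (S.ops _ m₂).2.1, ← map_add, ← h n hn, ← add_assoc, pow_succ']
          rfl⟩
    intro b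
    induction b using Nat.strong_induction_on with
    | h b ih =>
    rcases lt_or_ge b r with h | h
    · exact ⟨_, h5 b h, cT.closure _ (pow_mem (Subring.subset_closure m₂) b) Y YT, 0, zero_mem _,
        by simp⟩
    · obtain ⟨k, rfl⟩ := Nat.exists_eq_add_of_le h
      obtain ⟨p, hp, t, ht, h⟩ := h6 k
      exact Frame.sat _ _ (add_mem (PN _ ih p hp) ⟨0, zero_mem _, zero_mem _, t, ht,
        fun n _ => (zero_add _).symm⟩) _ fun n hn => h n (oT ▸ hn)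
  refine ⟨T, ⟨hG.1.mono (le_of_near (oT ▸ l₃.1) ?_), cT⟩, (l₁.trans l₂).trans lT, YT⟩
  conv_lhs => rw [hT]
  refine gen_le lN fun θ => ?_
  convert add_mem (PN _ (fun b _ => P5 b) _ (P3 (ι θ).1 (ι θ).2))
    (mul_mem (pow_mem (natCast_mem _ l) (ι θ).1) (P5 ((ι θ).1 + (ι θ).2))) using 1
  ext1 n
  simp

end Pool.Agent.P.MP_0cf807_al
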