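import Pool.Agent.P.MP_0cf807_al.ZPS

/-!
Frames of sequences of power series along an ultrafilter and the class of good frames.
-/

set_option autoImplicit false

noncomputable section

namespace Pool.Agent.P.MP_0cf807_al

open PowerSeries Filter

/-- A large set of indices with a ring of sequences, closed under weighted sums. -/
structure Frame (B : Type) [CommRing B] (U : Ultrafilter ℕ) where
  Ω : Set ℕ
  hΩ : Ω ∈ U
  R : Subring (ℕ → B⟦X⟧)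
  sat : ∀ f ∈ R, ∀ g : ℕ → B⟦X⟧, (∀ n ∈ Ω, g n = f n) → g ∈ R
  hs : ∀ b : ℕ → ℕ → B⟦X⟧, (∀ i, b i ∈ R) → (fun n => hsum fun i => b i n) ∈ R

variable {U : Ultrafilter ℕ}

section
variable {B : Type} [CommRing B]

instance : Preorder (Frame B U) where
  le F G := G.Ω ⊆ F.Ω ∧ F.R ≤ G.R
  le_refl _ := ⟨le_rfl, le_rfl⟩
  le_trans _ _ _ h h' := ⟨h'.1.trans h.1, h.2.trans h'.2⟩

theorem Frame.ev (F : Frame B U) : ∀ᶠ n in U, n ∈ F.Ω := F.hΩ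

theorem Frame.X_mem (F : Frame B U) : (fun _ => X) ∈ F.R := by
  have := F.hs (fun i => if i = 1 then 1 else 0) fun i => by
    split_ifs
    exacts [one_mem _, zero_mem _]
  refine F.sat _ this _ fun n _ => ?_
  rw [hsum_single _ 1 fun i hi => by simp [hi]]
  simp

theorem Frame.X_pow_mem (F : Frame B U) (k : ℕ) : (fun _ => X ^ k) ∈ F.R := pow_mem F.X_mem k

/-- The conclusion of the normalisation move. -/
def Concl (c : Set (ℕ → B⟦X⟧)) (F : Frame B U) : Prop :=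
  (∀ f ∈ c, ∀ n ∈ F.Ω, f n = 0) ∨ ∃ N : ℕ → ℕ,
    (∀ f ∈ c, ∃ u ∈ F.R, ∀ n ∈ F.Ω, f n = X ^ N n * u n) ∧
      ∃ f ∈ c, ∀ᶠ n in U, coeff (N n) (f n) ≠ 0

theorem Concl.mono {c : Set (ℕ → B⟦X⟧)} {F G : Frame B U} (h : Concl c F) (hG : F ≤ G) :
    Concl c G := by
  rcases h with h | ⟨N, h, h'⟩
  · exact Or.inl fun f hf n hn => h f hf n (hG.1 hn)
  · exact Or.inr ⟨N, fun f hf => (h f hf).imp fun u hu =>
      ⟨hG.2 hu.1, fun n hn => hu.2 n (hG.1 hn)⟩, h'⟩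

theorem le_of_dvd {f : B⟦X⟧} {k l : ℕ} (h : X ^ k ∣ f) (h' : coeff l f ≠ 0) : k ≤ l :=
  not_lt.1 fun hl => h' (X_pow_dvd_iff.1 h l hl)

end

variable {E : Type} [Field E] (𝒟 : Subring (AddMonoid.End E⟦X⟧))

/-- The three moves. -/
def Step (𝒞 : Set (Frame E U)) (F : Frame E U) : Prop :=
  (∀ c ⊆ (F.R : Set (ℕ → E⟦X⟧)), ∃ G ∈ 𝒞, F ≤ G ∧ Concl c G) ∧
  (∀ N : ℕ → ℕ, ∃ G ∈ 𝒞, F ≤ G ∧ (fun n => X ^ N n) ∈ G.R) ∧
  ∀ z : ℕ → E, ∃ G ∈ 𝒞, F ≤ G ∧ ∀ d ∈ 𝒟, (fun n => d (C (z n))) ∈ G.R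

/-- Frames contained in a member of a class closed under the moves. -/
def Good (F : Frame E U) : Prop := ∃ 𝒞, (∀ G ∈ 𝒞, Step 𝒟 𝒞 G) ∧ ∃ G ∈ 𝒞, F ≤ G

/-- Admissible sets of derivations. -/
def Ops (Δ : Set (AddMonoid.End E⟦X⟧)) : Prop := ∀ δ ∈ Δ, IsDer δ ∧ XL δ ∧ δ ∈ 𝒟

/-- Stability under a set of operators. -/
def Closed (Δ : Set (AddMonoid.End E⟦X⟧)) (F : Frame E U) : Prop :=
  ∀ δ ∈ Δ, ∀ f ∈ F.R, (fun n => δ (f n)) ∈ F.R

/-- Good and stable. -/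
def GC (Δ : Set (AddMonoid.End E⟦X⟧)) (F : Frame E U) : Prop := Good 𝒟 F ∧ Closed Δ F

variable {𝒟} {Δ : Set (AddMonoid.End E⟦X⟧)} {F : Frame E U}

theorem Good.mono {G : Frame E U} (h : Good 𝒟 G) (hG : F ≤ G) : Good 𝒟 F :=
  h.imp fun _ h => ⟨h.1, h.2.imp fun _ h => ⟨h.1, hG.trans h.2⟩⟩

theorem Good.step (h : Good 𝒟 F) : Step 𝒟 {G | Good 𝒟 G} F := by
  obtain ⟨𝒞, h𝒞, G, hG, hF⟩ := h
  obtain ⟨h1, h2, h3⟩ := h𝒞 G hG
  exact ⟨fun c hc => (h1 c (hc.trans hF.2)).imp fun H h => ⟨⟨𝒞, h𝒞, H, h.1, le_rfl⟩,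
    hF.trans h.2.1, h.2.2⟩, fun N => (h2 N).imp fun H h => ⟨⟨𝒞, h𝒞, H, h.1, le_rfl⟩,
    hF.trans h.2.1, h.2.2⟩, fun z => (h3 z).imp fun H h => ⟨⟨𝒞, h𝒞, H, h.1, le_rfl⟩,
    hF.trans h.2.1, h.2.2⟩⟩

theorem Ops.xl (h : Ops 𝒟 Δ) {d : AddMonoid.End E⟦X⟧} (hd : d ∈ Subring.closure Δ) : XL d := by
  induction hd using Subring.closure_induction with
  | mem d hd => exact (h d hd).2.1
  | zero => exact fun f => by simp
  | one => exact fun f => rfl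
  | add d e _ _ h1 h2 =>
    intro f
    change d _ + e _ = X * (d f + e f)
    rw [h1, h2, mul_add]
  | neg d _ h1 =>
    intro f
    change -d _ = X * -d f
    rw [h1, mul_neg]
  | mul d e _ _ h1 h2 =>
    intro f
    change d (e _) = X * d (e f)
    rw [h2, h1]

theorem Closed.closure (h : Closed Δ F) : Closed (Subring.closure Δ) F := by
  intro d hd
  induction hd using Subring.closure_induction with
  | mem d hd => exact h d hd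
  | zero => exact fun f _ => zero_mem _
  | one => exact fun f hf => hf
  | add d e _ _ h1 h2 => exact fun f hf => add_mem (h1 f hf) (h2 f hf)
  | neg d _ h1 => exact fun f hf => neg_mem (h1 f hf)
  | mul d e _ _ h1 h2 => exact fun f hf => h1 _ (h2 f hf)

theorem mon_le (Δ : Set (AddMonoid.End E⟦X⟧)) {d : AddMonoid.End E⟦X⟧}
    (hd : d ∈ Submonoid.closure Δ) : d ∈ Subring.closure Δ :=
  (Submonoid.closure_le (S := (Subring.closure Δ).toSubmonoid)).2 Subring.subset_closure hd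

/-- The largest stable subframe. -/
def core (h : Ops 𝒟 Δ) (F : Frame E U) : Frame E U where
  Ω := F.Ω
  hΩ := F.hΩ
  R :=
    { carrier := {f | ∀ d ∈ Submonoid.closure Δ, (fun n => d (f n)) ∈ F.R}
      zero_mem' := fun d _ => F.sat _ (zero_mem _) _ fun _ _ => map_zero d
      add_mem' := fun hf hg d hd => F.sat _ (add_mem (hf d hd) (hg d hd)) _ fun _ _ => map_add d _ _
      neg_mem' := fun hf d hd => F.sat _ (neg_mem (hf d hd)) _ fun _ _ => map_neg d _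
      one_mem' := fun d hd => by
        induction hd using Submonoid.closure_induction_right with
        | one => exact one_mem _
        | mul_right d _ δ hδ _ =>
          change (fun _ => d (δ 1)) ∈ _
          rw [(h δ hδ).1.one, map_zero]
          exact zero_mem _
      mul_mem' := fun {f g} hf hg d hd => by
        induction hd using Submonoid.closure_induction_right generalizing f g with
        | one => exact mul_mem (hf 1 (one_mem _)) (hg 1 (one_mem _))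
        | mul_right d _ δ hδ ih =>
          have k : ∀ f : ℕ → E⟦X⟧, (∀ d ∈ Submonoid.closure Δ, (fun n => d (f n)) ∈ F.R) →
              ∀ d ∈ Submonoid.closure Δ, (fun n => d (δ (f n))) ∈ F.R :=
            fun f hf d hd => hf _ (mul_mem hd (Submonoid.subset_closure hδ))
          refine F.sat _ (add_mem (ih (k f hf) hg) (ih hf (k g hg))) _ fun n _ => ?_
          change d (δ (f n * g n)) = _
          rw [(h δ hδ).1, map_add]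
          rfl }
  sat f hf g hg d hd := F.sat _ (hf d hd) _ fun n hn => by rw [hg n hn]
  hs b hb d hd := F.sat _ (F.hs _ fun i => hb i d hd) _ fun n _ => (h.xl (mon_le _ hd)).hsum _

theorem core_gc (h : Ops 𝒟 Δ) (hF : Good 𝒟 F) : GC 𝒟 Δ (core h F) :=
  ⟨hF.mono ⟨le_rfl, fun _ hf => hf 1 (one_mem _)⟩,
    fun _ hδ _ hf _ hd => hf _ (mul_mem hd (Submonoid.subset_closure hδ))⟩

theorem le_core (h : Ops 𝒟 Δ) (hF : Closed Δ F) {G : Frame E U} (hG : F ≤ G) : F ≤ core h G :=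
  ⟨hG.1, fun _ hf d hd => hG.2 (hF.closure d (mon_le _ hd) _ hf)⟩

theorem GC.n1 (h : Ops 𝒟 Δ) (hF : GC 𝒟 Δ F) {c : Set (ℕ → E⟦X⟧)} (hc : ∀ f ∈ c, f ∈ F.R) :
    ∃ G, GC 𝒟 Δ G ∧ F ≤ G ∧ Concl c G := by
  obtain ⟨G, hG, hFG, h'⟩ := hF.1.step.1
    {g | ∃ f ∈ c, ∃ d ∈ Submonoid.closure Δ, g = fun n => d (f n)}
    (by rintro _ ⟨f, hf, d, hd, rfl⟩; exact hF.2.closure d (mon_le _ hd) f (hc f hf))
  refine ⟨_, core_gc h hG, le_core h hF.2 hFG, ?_⟩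
  rcases h' with h' | ⟨N, h1, _, ⟨f, hf, d, hd, rfl⟩, h2⟩
  · exact Or.inl fun f hf => h' f ⟨f, hf, 1, one_mem _, rfl⟩
  refine Or.inr ⟨N, fun f hf => ?_, f, hf, ?_⟩
  · obtain ⟨u, -, hu⟩ := h1 f ⟨f, hf, 1, one_mem _, rfl⟩
    refine ⟨u, fun d hd => ?_, hu⟩
    obtain ⟨v, hv, hv'⟩ := h1 _ ⟨f, hf, d, hd, rfl⟩
    refine G.sat v hv _ fun n hn => X_pow_mul_cancel (k := N n) ?_
    rw [← hv' n hn, hu n hn, (h.xl (mon_le _ hd)).pow]
  · obtain ⟨u, -, hu⟩ := h1 f ⟨f, hf, 1, one_mem _, rfl⟩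
    filter_upwards [h2, G.ev] with n h3 hn h4
    refine (le_of_dvd ((h.xl (mon_le _ hd)).dvd (k := N n + 1) (X_pow_dvd_iff.2 fun m hm => ?_))
      h3).not_gt (Nat.lt_succ_self _)
    rcases (Nat.lt_succ_iff.1 hm).lt_or_eq with hm | rfl
    · exact X_pow_dvd_iff.1 ⟨_, hu n hn⟩ m hm
    · exact h4

theorem GC.k (h : Ops 𝒟 Δ) (hF : GC 𝒟 Δ F) (N : ℕ → ℕ) :
    ∃ G, GC 𝒟 Δ G ∧ F ≤ G ∧ (fun n => X ^ N n) ∈ G.R := by
  obtain ⟨G, hG, hFG, h'⟩ := hF.1.step.2.1 N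
  refine ⟨_, core_gc h hG, le_core h hF.2 hFG, fun d hd => G.sat _
    (mul_mem h' (one_mem (core h G).R d hd)) _ fun n _ => ?_⟩
  simpa using (h.xl (mon_le _ hd)).pow (N n) 1

theorem GC.r (h : Ops 𝒟 Δ) (hF : GC 𝒟 Δ F) (z : ℕ → E) :
    ∃ G, GC 𝒟 Δ G ∧ F ≤ G ∧ (fun n => C (z n)) ∈ G.R := by
  obtain ⟨G, hG, hFG, h'⟩ := hF.1.step.2.2 z
  exact ⟨_, core_gc h hG, le_core h hF.2 hFG, fun d hd => h' d
    (Subring.closure_le.2 (fun δ hδ => (h δ hδ).2.2) (mon_le _ hd))⟩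

theorem GC.restrict (h : Ops 𝒟 Δ) (hF : GC 𝒟 Δ F) {p : ℕ → Prop} (hp : ∀ᶠ n in U, p n) :
    ∃ G, GC 𝒟 Δ G ∧ F ≤ G ∧ ∀ n ∈ G.Ω, p n := by
  classical
  obtain ⟨G, hG, hFG, h1⟩ := hF.r h fun n => if p n then 0 else 1
  obtain ⟨H, hH, hGH, h2 | ⟨N, -, _, rfl, h2⟩⟩ := hG.n1 h (c := {_}) (by rintro _ rfl; exact h1)
  · exact ⟨H, hH, hFG.trans hGH, fun n hn => by simpa using h2 _ rfl n hn⟩
  · obtain ⟨n, h3, h4⟩ := (hp.and h2).exists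
    simp [h3] at h4

theorem GC.div (h : Ops 𝒟 Δ) (hF : GC 𝒟 Δ F) {c : Set (ℕ → E⟦X⟧)} (hc : ∀ f ∈ c, f ∈ F.R)
    (N : ℕ → ℕ) (hN : ∀ f ∈ c, ∀ᶠ n in U, X ^ N n ∣ f n) :
    ∃ G, GC 𝒟 Δ G ∧ F ≤ G ∧ ∀ f ∈ c, ∃ u ∈ G.R, ∀ n ∈ G.Ω, f n = X ^ N n * u n := by
  obtain ⟨G, hG, hFG, h1⟩ := hF.k h N
  obtain ⟨H, hH, hGH, h2 | ⟨M, h2, f, hf, h3⟩⟩ := hG.n1 h (c := insert (fun n => X ^ N n) c)
    (by rintro _ (rfl | hf); exacts [h1, hFG.2 (hc _ hf)])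
  · obtain ⟨n, hn⟩ := H.ev.exists
    simpa using h2 _ (Set.mem_insert _ _) n hn
  obtain ⟨u, -, hu⟩ := h2 _ (Set.mem_insert _ _)
  obtain ⟨I, hI, hHI, h4⟩ := hH.restrict h (p := fun n => N n = M n) (by
    have : ∀ᶠ n in U, X ^ N n ∣ f n := by
      rcases hf with rfl | hf
      exacts [Eventually.of_forall fun n => dvd_rfl, hN f hf]
    filter_upwards [this, h3, H.ev] with n h5 h6 hn
    exact (le_of_dvd h5 h6).antisymm (le_of_dvd ⟨_, hu n hn⟩ (by simp)))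
  refine ⟨I, hI, hFG.trans (hGH.trans hHI), fun g hg => ?_⟩
  obtain ⟨v, hv, hv'⟩ := h2 g (Set.mem_insert_of_mem _ hg)
  exact ⟨v, hHI.2 hv, fun n hn => by rw [h4 n hn, hv' n (hHI.1 hn)]⟩

theorem GC.inv (h : Ops 𝒟 Δ) (hF : GC 𝒟 Δ F) {s : ℕ → E⟦X⟧} (hs : s ∈ F.R)
    (h0 : ∀ᶠ n in U, constantCoeff (s n) ≠ 0) :
    ∃ G, GC 𝒟 Δ G ∧ F ≤ G ∧ ∃ t ∈ G.R, ∀ n ∈ G.Ω, t n * s n = 1 := by
  obtain ⟨G, hG, hFG, h1⟩ := hF.r h fun n => (constantCoeff (s n))⁻¹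
  obtain ⟨H, hH, hGH, h2⟩ := hG.div h (c := {_})
    (by rintro _ rfl; exact sub_mem (one_mem _) (mul_mem h1 (hFG.2 hs))) (fun _ => 1) (by
      rintro _ rfl
      filter_upwards [h0] with n hn
      simp [X_dvd_iff, hn])
  obtain ⟨v, hv, hv'⟩ := h2 _ rfl
  refine ⟨H, hH, hFG.trans hGH, _, mul_mem (H.hs (fun i => v ^ i) fun i => pow_mem hv i)
    (hGH.2 h1), fun n hn => ?_⟩
  have e := hsum_succ fun i => v n ^ i
  have e' := hv' n hn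
  simp only [pow_succ', ← mul_hsum, pow_zero, mul_one, Pi.sub_apply, Pi.mul_apply,
    Pi.one_apply] at e e'
  change (hsum fun i => v n ^ i) * C _ * _ = 1
  linear_combination e - (hsum fun i => v n ^ i) * e'

end Pool.Agent.P.MP_0cf807_al
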