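import Pool.Agent.P.MP_0cf807_al.ZCK

/-!
Adjoining sequences with no, one and two derivations.
-/

set_option autoImplicit false

noncomputable section

namespace Pool.Agent.P.MP_0cf807_al

open PowerSeries Filter

variable {E : Type} [Field E]

/-- Every nonzero linear differential operator is onto. -/
def LS (d₁ d₂ : AddMonoid.End E) : Prop := ∀ (V : Finset (ℕ × ℕ)) (a : ℕ × ℕ → E),
  (∃ θ ∈ V, a θ ≠ 0) → ∀ m, ∃ y, ∑ θ ∈ V, a θ * (d₁ ^ θ.1 * d₂ ^ θ.2) y = m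

theorem LS.one {d₁ d₂ : AddMonoid.End E} (h : LS d₁ d₂) (hc : Commute d₁ d₂) (l : ℕ)
    (V : Finset ℕ) (a : ℕ → E) (ha : ∃ j ∈ V, a j ≠ 0) (m : E) :
    ∃ y, ∑ j ∈ V, a j * ((d₁ - l • d₂) ^ j) y = m := by
  classical
  obtain ⟨j, hj, ha⟩ := ha
  obtain ⟨y, hy⟩ := h (V.biUnion Finset.HasAntidiagonal.antidiagonal) (fun θ => a (θ.1 + θ.2) *
    ((θ.1 + θ.2).choose θ.1 * (-l) ^ θ.2)) ⟨(j, 0), by simpa using hj, by simpa using ha⟩ m
  refine ⟨y, ?_⟩
  rw [← hy, Finset.sum_biUnion fun i _ j _ h => Finset.disjoint_left.2 fun θ h1 h2 => h (by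
    rw [Finset.HasAntidiagonal.mem_antidiagonal] at h1 h2; omega)]
  refine Finset.sum_congr rfl fun j _ => ?_
  have e : d₁ - l • d₂ = d₁ + ((-l : ℤ) : AddMonoid.End E) * d₂ := by
    rw [← zsmul_eq_mul, neg_zsmul, natCast_zsmul, sub_eq_add_neg]
  let ε : AddMonoid.End E →+ E := ⟨⟨fun d => d y, rfl⟩, fun _ _ => rfl⟩
  change _ * ε ((d₁ - l • d₂) ^ _) =
    ∑ θ ∈ Finset.HasAntidiagonal.antidiagonal j, _ * ε (d₁ ^ θ.1 * d₂ ^ θ.2)
  rw [e, ((Int.commute_cast _ _).mul_right hc).add_pow', map_sum, Finset.mul_sum]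
  refine Finset.sum_congr rfl fun θ h => ?_
  rw [Finset.HasAntidiagonal.mem_antidiagonal.1 h, (Int.cast_commute _ _).mul_pow, ← Int.cast_pow,
    ← mul_assoc (d₁ ^ θ.1), (Int.commute_cast _ _).eq, mul_assoc, ← zsmul_eq_mul, map_nsmul,
    map_zsmul]
  simp [mul_assoc]

theorem mkSys {σ : Type} {𝒟 : Subring (AddMonoid.End E)} {e₁ e₂ : AddMonoid.End E} (h₁ : IsDer e₁)
    (h₂ : IsDer e₂) (hc : Commute e₁ e₂) (m₁ : e₁ ∈ 𝒟) (m₂ : e₂ ∈ 𝒟) (ι : σ → ℕ × ℕ)
    (all : ∀ i j, e₁ ^ i * e₂ ^ j = 0 ∨ ∃ θ, ι θ = (i, j))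
    (surj : ∀ (V : Finset σ) (a : σ → E), (∃ θ ∈ V, a θ ≠ 0) →
      ∀ m, ∃ y, ∑ θ ∈ V, a θ * (e₁ ^ (ι θ).1 * e₂ ^ (ι θ).2) y = m) :
    Sys (𝒟.map (lftE (A := E))) {lftE e₁, lftE e₂} fun θ => lftE e₁ ^ (ι θ).1 * lftE e₂ ^ (ι θ).2 where
  ops := by
    rintro _ (rfl | rfl)
    exacts [⟨h₁.lft, lft_xl _, _, m₁, rfl⟩, ⟨h₂.lft, lft_xl _, _, m₂, rfl⟩]
  mem θ := mul_mem (pow_mem (Submonoid.subset_closure (by simp)) _)
    (pow_mem (Submonoid.subset_closure (by simp)) _)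
  all d hd := by
    obtain ⟨i, j, rfl⟩ : ∃ i j, d = lftE (e₁ ^ i * e₂ ^ j) := by
      induction hd using Submonoid.closure_induction with
      | mem d hd =>
        rcases hd with rfl | rfl
        exacts [⟨1, 0, by simp⟩, ⟨0, 1, by simp⟩]
      | one => exact ⟨0, 0, by simp⟩
      | mul d e _ _ h h' =>
        obtain ⟨i, j, rfl⟩ := h
        obtain ⟨i', j', rfl⟩ := h'
        exact ⟨i + i', j + j', by
          rw [← map_mul, (hc.pow_pow i' j).symm.mul_mul_mul_comm, pow_add, pow_add]⟩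
    rcases all i j with h | ⟨θ, h⟩
    · exact Or.inl (by rw [h, map_zero])
    · exact Or.inr ⟨θ, by simp [h]⟩
  surj V a ha m := by
    obtain ⟨y, hy⟩ := surj V (fun θ => constantCoeff (a θ)) ha (constantCoeff m)
    refine ⟨C y, X_dvd_iff.2 ?_⟩
    simp only [← map_pow, ← map_mul, lftE_apply, lft_C]
    rw [map_sub, map_sum, ← hy, sub_eq_zero]
    exact Finset.sum_congr rfl fun θ _ => by rw [map_mul, constantCoeff_C]; rfl

theorem adj_two [CharZero E] {d₁ d₂ : AddMonoid.End E} (h₁ : IsDer d₁) (h₂ : IsDer d₂)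
    (hc : Commute d₁ d₂) (h : LS d₁ d₂) (U : Ultrafilter ℕ) :
    Adj U ((Subring.closure {d₁, d₂}).map (lftE (A := E))) {lftE d₁, lftE d₂} := by
  classical
  have z : IsDer (0 : AddMonoid.End E) := fun a b => by simp
  have m₁ : d₁ ∈ Subring.closure {d₁, d₂} := Subring.subset_closure (Or.inl rfl)
  have m₂ : d₂ ∈ Subring.closure {d₁, d₂} := Subring.subset_closure (Or.inr rfl)
  have S₀ := mkSys z z (Commute.refl _) (zero_mem (Subring.closure {d₁, d₂})) (zero_mem _)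
    (fun _ : Unit => (0, 0)) (fun i j => by cases i <;> cases j <;> simp) (by
      rintro V a ⟨⟨⟩, h1, h2⟩ m
      obtain rfl : V = {()} := Finset.eq_singleton_iff_unique_mem.2 ⟨h1, fun _ _ => rfl⟩
      exact ⟨(a ())⁻¹ * m, by simp [h2]⟩)
  have A₀ := S₀.adj (ck_of (U := U) (Commute.refl _) _ S₀ (fun r => if r = 0 then {0} else ∅) (by
      rintro r V c ⟨⟨⟩, h1⟩ h2
      obtain rfl : V = {()} := Finset.eq_singleton_iff_unique_mem.2 ⟨h1, fun _ _ => rfl⟩
      exact ⟨0, by simp [← (h2 _ h1).2], by simpa using (h2 _ h1).1⟩) fun r l hl =>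
      Or.inl (by_contra fun h => by simp [h] at hl))
  have A₁ : ∀ l : ℕ, Adj U ((Subring.closure {d₁, d₂}).map (lftE (A := E)))
      {lftE 0, lftE (d₁ - l • d₂)} := fun l => by
    have S₁ := mkSys (e₂ := d₁ - l • d₂) z (fun a b => by
        change d₁ _ - l • d₂ _ = (d₁ a - l • d₂ a) * b + a * (d₁ b - l • d₂ b)
        simp only [h₁ a b, h₂ a b, nsmul_eq_mul]
        ring) (Commute.zero_left _) (zero_mem (Subring.closure {d₁, d₂}))
      (sub_mem m₁ (nsmul_mem m₂ l)) (fun j : ℕ => (0, j)) (fun i j => by cases i <;> simp)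
      (by simpa using h.one hc l)
    refine S₁.adj (ck_of ((Commute.zero_left _).map lftE) _ S₁ (fun _ => {0}) ?_ fun r l hl =>
      Or.inr (by simpa [Finset.mem_singleton.1 hl] using A₀))
    rintro r V c ⟨j, h1⟩ h2
    obtain rfl : V = {j} := Finset.eq_singleton_iff_unique_mem.2 ⟨h1, fun i hi => by
      have := (h2 i hi).2
      have := (h2 j h1).2
      omega⟩
    exact ⟨0, by simp, by simpa using (h2 _ h1).1⟩
  have S₂ := mkSys h₁ h₂ hc m₁ m₂ id (fun i j => Or.inr ⟨_, rfl⟩) h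
  refine S₂.adj (ck_of (hc.map lftE) _ S₂ (fun r => Finset.range (r + 1)) ?_ fun r l _ =>
    Or.inr (by simpa using A₁ l))
  rintro r V c ⟨θ₀, h1⟩ h2
  by_contra h3
  push Not at h3
  have := Polynomial.eq_zero_of_natDegree_lt_card_of_eval_eq_zero
    (∑ θ ∈ V, Polynomial.monomial θ.1 (c θ)) (f := fun l : Fin (r + 1) => (l : E))
    (Nat.cast_injective.comp Fin.val_injective)
    (fun l => by simpa [Polynomial.eval_finset_sum] using h3 l (by simpa using l.2))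
    (by
      rw [Fintype.card_fin, Nat.lt_succ_iff]
      exact Polynomial.natDegree_sum_le_of_forall_le _ _ fun θ hθ =>
        (Polynomial.natDegree_monomial_le _).trans ((h2 θ hθ).2 ▸ Nat.le_add_right _ _))
  have h4 := congrArg (Polynomial.coeff · θ₀.1) this
  simp only [Polynomial.finset_sum_coeff, Polynomial.coeff_monomial, Polynomial.coeff_zero] at h4
  rw [Finset.sum_eq_single_of_mem θ₀ h1 fun θ hθ hne => if_neg fun h => hne (by
    have := (h2 θ hθ).2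
    have := (h2 θ₀ h1).2
    simp only [id] at *
    exact Prod.ext h (by omega)), if_pos rfl] at h4
  exact (h2 θ₀ h1).1 h4

end Pool.Agent.P.MP_0cf807_al
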