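import Pool.Agent.P.MP_0cf807_al.ZSymb

/-!
The chain condition for free associative algebras in characteristic zero.
-/

set_option autoImplicit false

noncomputable section

namespace Pool.Agent.P.MP_0cf807_al

open PowerSeries Filter

theorem map_injOn {Y : Type} {ι : Y → ℕ} {s : Set Y} (h : Set.InjOn ι s) :
    Set.InjOn (List.map ι) {l | ∀ x ∈ l, x ∈ s} := by
  intro l hl
  induction l with
  | nil => exact fun l' _ e => (List.map_eq_nil_iff.1 e.symm).symm
  | cons x l ih =>
    rintro (_ | ⟨x', l'⟩) hl' e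
    · simp at e
    simp only [List.map_cons, List.cons.injEq] at e
    rw [h (hl x (by simp)) (hl' x' (by simp)) e.1, ih (fun y hy => hl y (by simp [hy]))
      (fun y hy => hl' y (by simp [hy])) e.2]

theorem char_zero_no_chain (K : Type) [Field K] [CharZero K] (Y : Type) (n : ℕ)
    (p : ℕ → FreeAlgebra ℤ (FreeAlgebra K Y ⊕ Fin n)) (x : ℕ → Fin n → FreeAlgebra K Y)
    (h : ∀ i j, i < j → FreeAlgebra.lift ℤ (Sum.elim (fun r => r) (x j)) (p i) = 0) :
    ∃ j, FreeAlgebra.lift ℤ (Sum.elim (fun r => r) (x j)) (p j) = 0 := by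
  choose c hc using fun j => Finsupp.mem_span_range_iff_exists_finsupp.1
    (show FreeAlgebra.lift ℤ (Sum.elim (fun r => r) (x j)) (p j) ∈ _ from
      span_words (K := K) (Y := Y) ▸ Submodule.mem_top)
  obtain ⟨ι, hι⟩ := Set.countable_iff_exists_injOn.1 (Set.countable_iUnion fun j =>
    (c j).support.countable_toSet.biUnion fun l _ => l.finite_toSet.countable)
  obtain ⟨B, _, α, β, ρ, hL, k₁, k₂, hs, hx, hρ⟩ := exists_symbol K Y ι
  obtain ⟨F₀, hF₀, hK⟩ := exists_good (U := hyperfilter ℕ) B.h₁ B.h₂ B.hc k₁ k₂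
  have ops : Ops ((Subring.closure {B.d₁, B.d₂}).map (lftE (A := B.E)))
      {lftE B.d₁, lftE B.d₂} := by
    rintro _ (rfl | rfl)
    exacts [⟨B.h₁.lftE, lftE_xl _, _, Subring.subset_closure (Or.inl rfl), rfl⟩,
      ⟨B.h₂.lftE, lftE_xl _, _, Subring.subset_closure (Or.inr rfl), rfl⟩]
  obtain ⟨F, hF, l, h1⟩ := finite_iter (Q := fun f (G : Frame B.E (hyperfilter ℕ)) => f ∈ G.R)
    (fun _ _ _ h h' => And.right h h') (((Set.finite_range fun i j => ρ (x j i) 1).insert
    fun _ => C α).insert fun _ => C β) (fun f _ G hG => adj_two B.h₁ B.h₂ B.hc hL _ G hG f)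
    (core_gc ops hF₀)
  have h2 : ∀ a : K, (fun _ => C (algebraMap K B.E a)) ∈ F.R := fun a => l.2 fun d hd => by
    induction hd using Submonoid.closure_induction_right with
    | one => exact hK a
    | mul_right d _ δ hδ _ =>
      have : δ (C (algebraMap K B.E a)) = 0 := by
        rcases hδ with rfl | rfl <;> simp [lftE_C, k₁, k₂]
      change (fun _ => d (δ _)) ∈ _
      rw [this, map_zero]
      exact zero_mem _
  have h3 : ∀ f ∈ F.R, ∀ g ∈ F.R, (fun j => B.star (f j) (g j)) ∈ F.R := fun f hf g hg =>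
    F.hs _ fun k => mul_mem (by simpa using! h2 (k.factorial : K)⁻¹) (mul_mem
      (hF.2.closure _ (pow_mem (Subring.subset_closure (by simp)) k) f hf)
      (hF.2.closure _ (pow_mem (Subring.subset_closure (by simp)) k) g hg))
  have h4 : ∀ f g : ℕ → FreeAlgebra K Y, (fun j => ρ (f j) 1) ∈ F.R → (fun j => ρ (g j) 1) ∈ F.R →
      (fun j => ρ (f j * g j) 1) ∈ F.R ∧ (fun j => ρ (f j + g j) 1) ∈ F.R := fun f g hf hg =>
    ⟨by simpa only [map_mul, Module.End.mul_apply, ← hs] using h3 _ hf _ hg,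
      by simpa only [map_add, LinearMap.add_apply] using! add_mem hf hg⟩
  have h5 : ∀ f, (fun _ => ρ f 1) ∈ F.R := fun f => by
    induction f using FreeAlgebra.induction with
    | grade0 a =>
      simpa [Algebra.smul_def, PowerSeries.algebraMap_apply] using h2 a
    | grade1 y =>
      rw [hx]
      refine h3 _ (h1 _ (by simp)) _ ?_
      induction ι y with
      | zero => exact one_mem _
      | succ i ih =>
        rw [Function.iterate_succ_apply']
        exact h3 _ (h1 _ (by simp)) _ ih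
    | mul f g h h' => exact (h4 _ _ h h').1
    | add f g h h' => exact (h4 _ _ h h').2
  have h6 : ∀ q : FreeAlgebra ℤ (FreeAlgebra K Y ⊕ Fin n),
      (fun j => ρ (FreeAlgebra.lift ℤ (Sum.elim (fun r => r) (x j)) q) 1) ∈ F.R := fun q => by
    induction q using FreeAlgebra.induction with
    | grade0 t => simpa only [AlgHom.commutes] using h5 _
    | grade1 y =>
      simp only [FreeAlgebra.lift_ι_apply]
      rcases y with f | i
      exacts [h5 f, h1 _ (by simp)]
    | mul f g h h' => simpa only [map_mul] using (h4 _ _ h h').1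
    | add f g h h' => simpa only [map_add] using (h4 _ _ h h').2
  obtain ⟨G, -, -, h7 | ⟨N, -, _, ⟨i, rfl⟩, h7⟩⟩ := hF.1.step.1 (Set.range fun i j =>
    ρ (FreeAlgebra.lift ℤ (Sum.elim (fun r => r) (x j)) (p i)) 1) (by rintro _ ⟨i, rfl⟩; exact h6 _)
  · obtain ⟨j, hj⟩ := G.ev.exists
    refine ⟨j, ?_⟩
    rw [← hc j, hρ (c j) ((map_injOn hι).mono <| by
      intro l hl y hy
      simp only [Set.mem_iUnion]
      exact ⟨j, l, hl, hy⟩) (hc j ▸ h7 _ ⟨j, rfl⟩ j hj), Finsupp.sum_zero_index]
  · obtain ⟨j, h8, h9⟩ := (h7.and ((eventually_gt_atTop i).filter_mono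
      Nat.hyperfilter_le_atTop)).exists
    exact (h8 (by simp only [h i j h9, map_zero, LinearMap.zero_apply])).elim

end Pool.Agent.P.MP_0cf807_al
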