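import Pool.Agent.P.MP_0cf807_al.ZTate

/-!
Adjoining a sequence with all its derivatives to a good frame.
-/

set_option autoImplicit false

noncomputable section

namespace Pool.Agent.P.MP_0cf807_al

open PowerSeries Filter

variable {E σ : Type} [Field E] {U : Ultrafilter ℕ}

theorem exists_partial [CharZero E] (V : Finset σ) (z : ℕ → σ → E) (e : ℕ)
    (p : ℕ → MvPolynomial σ E) (h : ∀ᶠ n in U, p n ≠ 0 ∧
      (∀ m θ, (p n).coeff m ≠ 0 → m θ ≠ 0 → θ ∈ V) ∧ ∀ κ : List σ, κ.length = e → pL κ (p n) = 0) :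
    ∃ κ : List σ, κ.length < e ∧ ∀ᶠ n in U, MvPolynomial.eval (z n) (pL κ (p n)) ≠ 0 := by
  classical
  induction e generalizing p with
  | zero =>
    obtain ⟨n, h1, -, h2⟩ := h.exists
    exact (h1 (h2 [] rfl)).elim
  | succ e ih =>
    rcases U.em fun n => MvPolynomial.eval (z n) (p n) = 0 with h0 | h0
    swap
    · exact ⟨[], by simp, h0⟩
    obtain ⟨θ, -, h1⟩ := (U.eventually_exists_mem_iff (P := fun θ n => pP θ (p n) ≠ 0)
      V.finite_toSet).1 (by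
        filter_upwards [h, h0] with n ⟨h1, h2, _⟩ h3
        by_contra h4
        push Not at h4
        have : p n = MvPolynomial.C ((p n).coeff 0) := by
          ext m
          rw [MvPolynomial.coeff_C]
          split_ifs with hm
          · rw [hm]
          by_contra h5
          obtain ⟨θ, hθ⟩ : ∃ θ, m θ ≠ 0 := by
            by_contra h
            push Not at h
            exact hm (Finsupp.ext h).symm
          have := congrArg (MvPolynomial.coeff (m - Finsupp.single θ 1)) (h4 θ (h2 m θ h5 hθ))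
          rw [pP_apply, MvPolynomial.coeff_pderiv, tsub_add_cancel_of_le
            (Finsupp.single_le_iff.2 (Nat.one_le_iff_ne_zero.2 hθ))] at this
          exact mul_ne_zero h5 (Nat.cast_add_one_ne_zero _) this
        rw [this, MvPolynomial.eval_C] at h3
        exact h1 (by rw [this, h3, map_zero]))
    obtain ⟨κ, h2, h3⟩ := ih (fun n => pP θ (p n)) (by
      filter_upwards [h, h1] with n ⟨_, h2, h3⟩ h4
      refine ⟨h4, fun m θ' h5 h6 => h2 (m + Finsupp.single θ 1) θ' (fun h7 => h5 ?_) (by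
        simp [h6]), fun κ hκ => by rw [← pL_concat, h3 _ (by simp [hκ])]⟩
      rw [pP_apply, MvPolynomial.coeff_pderiv, h7, zero_mul])
    exact ⟨κ ++ [θ], by simpa using h2, by simpa only [pL_concat] using h3⟩

theorem pL_degree (p : MvPolynomial σ E) (κ : List σ) (d : ℕ)
    (h : ∀ m, p.coeff m ≠ 0 → m.degree < d + κ.length) :
    ∀ m, (pL κ p).coeff m ≠ 0 → m.degree < d := by
  induction κ generalizing d with
  | nil => exact h
  | cons θ κ ih =>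
    intro m hm
    have := ih (d + 1) (fun m hm => by have := h m hm; simp at this; omega)
      (m + Finsupp.single θ 1) fun h => hm (by
        rw [pL_cons]
        change MvPolynomial.coeff m (MvPolynomial.pderiv θ (pL κ p)) = 0
        rw [MvPolynomial.coeff_pderiv, h, zero_mul])
    simpa using this

variable {F : Frame E U}

theorem Ser.supp {Φ : ℕ → (MvPolynomial σ E)⟦X⟧} (h : Φ ∈ (Ser σ F).R) :
    ∃ M : Finset (σ →₀ ℕ), ∀ n ∈ F.Ω, ∀ m, (constantCoeff (Φ n)).coeff m ≠ 0 → m ∈ M := by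
  obtain ⟨M, -, hM⟩ := Ser.conv h 1
  refine ⟨M, fun n hn m hm => by_contra fun h => hm ?_⟩
  obtain ⟨u, -, hu⟩ := hM m h
  simpa [coeff_cf] using congrArg (coeff 0) (hu n hn)

theorem Ser.unit [CharZero E] {Φ : ℕ → (MvPolynomial σ E)⟦X⟧} (h : Φ ∈ (Ser σ F).R)
    (z : ℕ → σ → E⟦X⟧) (e : ℕ) (h0 : ∀ᶠ n in U, constantCoeff (Φ n) ≠ 0 ∧
      ∀ κ : List σ, κ.length = e → pL κ (constantCoeff (Φ n)) = 0) : ∃ κ : List σ,
      κ.length < e ∧ ∀ᶠ n in U, constantCoeff (tev (z n) (lftE (pL κ) (Φ n))) ≠ 0 := by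
  classical
  obtain ⟨M, hM⟩ := Ser.supp h
  simp only [constantCoeff_tev, lftE_apply, constantCoeff_lft]
  refine exists_partial (M.biUnion Finsupp.support) _ e _ ?_
  filter_upwards [h0, F.ev] with n h1 hn
  exact ⟨h1.1, fun m θ h2 h3 => Finset.mem_biUnion.2 ⟨m, hM n hn m h2, by simpa using h3⟩, h1.2⟩

/-- The frame generated by the values of restricted power series. -/
def gen (F : Frame E U) (z : ℕ → σ → E⟦X⟧) : Frame E U where
  Ω := F.Ω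
  hΩ := F.hΩ
  R :=
    { carrier := {f | ∃ Φ ∈ (Ser σ F).R, ∀ n ∈ F.Ω, f n = tev (z n) (Φ n)}
      zero_mem' := ⟨0, zero_mem _, by simp⟩
      one_mem' := ⟨1, one_mem _, by simp⟩
      add_mem' := fun ⟨Φ, k, h⟩ ⟨Ψ, k', h'⟩ =>
        ⟨Φ + Ψ, add_mem k k', fun n hn => by simp [h n hn, h' n hn]⟩
      mul_mem' := fun ⟨Φ, k, h⟩ ⟨Ψ, k', h'⟩ =>
        ⟨Φ * Ψ, mul_mem k k', fun n hn => by simp [h n hn, h' n hn]⟩
      neg_mem' := fun ⟨Φ, k, h⟩ => ⟨-Φ, neg_mem k, fun n hn => by simp [h n hn]⟩ }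
  sat f := fun ⟨Φ, k, h⟩ g hg => ⟨Φ, k, fun n hn => (hg n hn).trans (h n hn)⟩
  hs b hb := by
    choose Φ k hΦ using hb
    exact ⟨_, (Ser σ F).hs Φ k, fun n hn => by
      rw [tev, (extR_xl _).hsum]
      exact congrArg hsum (funext fun i => hΦ i n hn)⟩

theorem gen_mem (z : ℕ → σ → E⟦X⟧) {Φ : ℕ → (MvPolynomial σ E)⟦X⟧} (h : Φ ∈ (Ser σ F).R) :
    (fun n => tev (z n) (Φ n)) ∈ (gen F z).R := ⟨Φ, h, fun _ _ => rfl⟩

theorem le_gen (z : ℕ → σ → E⟦X⟧) : F ≤ gen F z :=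
  ⟨le_rfl, fun _ hf => ⟨_, Ser.emb hf, fun _ _ => (tev_emb _ _).symm⟩⟩

theorem gen_var (z : ℕ → σ → E⟦X⟧) (θ : σ) : (fun n => z n θ) ∈ (gen F z).R :=
  ⟨_, Ser.var θ, fun _ _ => (tev_var _ _).symm⟩

theorem gen_le {z : ℕ → σ → E⟦X⟧} {G : Frame E U} (h : F ≤ G)
    (hz : ∀ θ, (fun n => z n θ) ∈ G.R) : gen F z ≤ G :=
  ⟨h.1, fun f ⟨Φ, hΦ, hf⟩ => G.sat _ (Ser.ind (P := fun Φ => (fun n => tev (z n) (Φ n)) ∈ G.R)
    (fun f hf => by simpa only [tev_emb] using h.2 hf)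
    (fun θ => by simpa only [tev_var] using hz θ)
    (fun _ _ _ _ h h' => by simpa only [Pi.add_apply, map_add] using! add_mem h h')
    (fun _ _ _ _ h h' => by simpa only [Pi.mul_apply, map_mul] using! mul_mem h h')
    (fun b _ hb Φ hΦ => G.sat _ (G.hs _ hb) _ fun n hn => by
      rw [hΦ n (h.1 hn)]
      exact (extR_xl _).hsum _) Φ hΦ) f fun n hn => hf n (h.1 hn)⟩

/-- Linear forms. -/
def lin (n : ℕ) : (σ →₀ ℕ → E⟦X⟧) →+ (MvPolynomial σ E)⟦X⟧ :=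
  Finsupp.liftAddHom fun θ => (AddMonoidHom.mulRight (var θ)).comp
    ((emb : E⟦X⟧ →+* _).toAddMonoidHom.comp (Pi.evalAddMonoidHom _ n))

theorem lin_apply (n : ℕ) (a : σ →₀ ℕ → E⟦X⟧) :
    lin n a = ∑ θ ∈ a.support, emb (a θ n) * var θ := rfl

theorem lin_single (n : ℕ) (θ : σ) (c : ℕ → E⟦X⟧) :
    lin n (Finsupp.single θ c) = emb (c n) * var θ := by simp [lin]

theorem lin_smul (n : ℕ) (g : ℕ → E⟦X⟧) (a : σ →₀ ℕ → E⟦X⟧) :
    lin n (g • a) = emb (g n) * lin n a := by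
  induction a using Finsupp.induction_linear with
  | zero => simp
  | add a b h h' => simp [h, h', mul_add]
  | single θ c => rw [Finsupp.smul_single, lin_single, lin_single, smul_eq_mul, Pi.mul_apply,
      map_mul, mul_assoc]

theorem pd_lin (n : ℕ) (θ : σ) (a : σ →₀ ℕ → E⟦X⟧) : lftE (pP θ) (lin n a) = emb (a θ n) := by
  classical
  induction a using Finsupp.induction_linear with
  | zero => simp
  | add a b h h' => simp [h, h']
  | single θ' c =>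
    rw [lin_single, pd_der, pd_emb, pd_var, Finsupp.single_apply]
    split_ifs <;> simp

theorem Ser.taylor {w : ℕ → σ → E⟦X⟧} (hw : ∀ θ, (fun n => w n θ) ∈ F.R) :
    ∀ Φ ∈ (Ser σ F).R, ∃ g ∈ F.R, ∃ a : σ →₀ ℕ → E⟦X⟧, (∀ θ, a θ ∈ F.R) ∧ ∃ Ψ ∈ (Ser σ F).R,
      ∀ n ∈ F.Ω, MP_0cf807_al.tsb (w n) X (Φ n) =
        MP_0cf807_al.emb (g n) + X * lin n a + X ^ 2 * Ψ n := by
  classical
  have hl : ∀ a : σ →₀ ℕ → E⟦X⟧, (∀ θ, a θ ∈ F.R) → (fun n => lin n a) ∈ (Ser σ F).R :=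
    fun a ha => by
      convert sum_mem fun θ (_ : θ ∈ a.support) => mul_mem (Ser.emb (ha θ)) (Ser.var θ) using 1
      ext1 n
      simp [lin_apply]
  have hX := (Ser σ F).X_mem
  refine Ser.ind (fun f hf => ⟨f, hf, 0, fun _ => zero_mem _, 0, zero_mem _, by simp [tsb_emb]⟩)
    (fun θ => ⟨_, hw θ, Finsupp.single θ 1, fun θ' => ?_, 0, zero_mem _, by
      simp [tsb_var, lin_single, emb_X]⟩) ?_ ?_ ?_
  · rw [Finsupp.single_apply]
    split_ifs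
    exacts [one_mem _, zero_mem _]
  · rintro Φ - Φ' - ⟨g, hg, a, ha, Ψ, hΨ, h⟩ ⟨g', hg', a', ha', Ψ', hΨ', h'⟩
    refine ⟨_, add_mem hg hg', a + a', fun θ => add_mem (ha θ) (ha' θ), _, add_mem hΨ hΨ',
      fun n hn => ?_⟩
    simp only [Pi.add_apply, map_add, h n hn, h' n hn]
    ring
  · rintro Φ - Φ' - ⟨g, hg, a, ha, Ψ, hΨ, h⟩ ⟨g', hg', a', ha', Ψ', hΨ', h'⟩
    refine ⟨_, mul_mem hg hg', g • a' + g' • a,
      fun θ => add_mem (mul_mem hg (ha' θ)) (mul_mem hg' (ha θ)), _,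
      add_mem (mul_mem (hl a ha) (add_mem (hl a' ha') (mul_mem hX hΨ'))) (add_mem
      (mul_mem (Ser.emb hg) hΨ') (mul_mem hΨ (add_mem (add_mem (Ser.emb hg') (mul_mem hX
      (hl a' ha'))) (mul_mem (mul_mem hX hX) hΨ')))), fun n hn => ?_⟩
    simp only [Pi.add_apply, Pi.mul_apply, map_add, map_mul, h n hn, h' n hn, lin_smul]
    ring
  · intro b hb h Φ hΦ
    obtain ⟨g, hg, a, ha, Ψ, hΨ, h0⟩ := h 0
    obtain ⟨g', hg', a', ha', Ψ', hΨ', h1⟩ := h 1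
    refine ⟨_, add_mem hg (mul_mem F.X_mem hg'), a, ha, _, add_mem (add_mem hΨ (add_mem
      (hl a' ha') (mul_mem hX hΨ'))) (Ser.tsb hw F.X_mem _ ((Ser σ F).hs (fun i => b (i + 2))
      fun i => hb _)), fun n hn => ?_⟩
    rw [hΦ n hn, hsum_succ, hsum_succ]
    simp only [Pi.add_apply, Pi.mul_apply, map_add, map_mul, h0 n hn, zero_add, h1 n hn, tsb_X,
      emb_X, add_assoc, one_add_one_eq_two]
    ring

variable {𝒟 : Subring (AddMonoid.End E⟦X⟧)} {Δ : Set (AddMonoid.End E⟦X⟧)}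
  {D : σ → AddMonoid.End E⟦X⟧}

variable (𝒟 Δ D) in
/-- A system of differential operators. -/
structure Sys : Prop where
  ops : Ops 𝒟 Δ
  mem : ∀ θ, D θ ∈ Submonoid.closure Δ
  all : ∀ d ∈ Submonoid.closure Δ, d = 0 ∨ ∃ θ, d = D θ
  surj : ∀ (V : Finset σ) (a : σ → E⟦X⟧), (∃ θ ∈ V, constantCoeff (a θ) ≠ 0) →
    ∀ m, ∃ y, X ∣ m - ∑ θ ∈ V, a θ * D θ y

variable (U 𝒟 Δ D) in
/-- Solutions of quasilinear equations can be adjoined. -/
def CK : Prop := ∀ F : Frame E U, GC 𝒟 Δ F → ∀ (Y : ℕ → E⟦X⟧) (V : Finset σ)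
  (a : σ → ℕ → E⟦X⟧), (∀ θ, a θ ∈ F.R) → (∃ θ ∈ V, ∀ᶠ n in U, constantCoeff (a θ n) ≠ 0) →
  ∀ g ∈ F.R, ∀ t ∈ (gen F fun n θ => D θ (Y n)).R,
  (∀ n ∈ F.Ω, g n + ∑ θ ∈ V, a θ n * D θ (Y n) + X * t n = 0) →
  ∃ G, GC 𝒟 Δ G ∧ F ≤ G ∧ Y ∈ G.R

theorem Sys.xl (S : Sys 𝒟 Δ D) (θ : σ) : XL (D θ) := S.ops.xl (mon_le _ (S.mem θ))

theorem Sys.cl (S : Sys 𝒟 Δ D) (h : Closed Δ F) {f : ℕ → E⟦X⟧} (hf : f ∈ F.R) (θ : σ) :
    (fun n => D θ (f n)) ∈ F.R := h.closure _ (mon_le _ (S.mem θ)) f hf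

theorem Sys.gen_mem (S : Sys 𝒟 Δ D) (Z : ℕ → E⟦X⟧) {d : AddMonoid.End E⟦X⟧}
    (hd : d ∈ Submonoid.closure Δ) : (fun n => d (Z n)) ∈ (gen F fun n θ => D θ (Z n)).R := by
  rcases S.all d hd with rfl | ⟨θ, rfl⟩
  exacts [zero_mem _, gen_var _ θ]

theorem Sys.gen_closed (S : Sys 𝒟 Δ D) (h : Closed Δ F) (Z : ℕ → E⟦X⟧) :
    Closed Δ (gen F fun n θ => D θ (Z n)) := fun δ hδ f ⟨Φ, hΦ, hf⟩ =>
  Frame.sat _ _ (Ser.ind (P := fun Φ => (fun n => δ (tev (fun θ => D θ (Z n)) (Φ n))) ∈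
      (gen F fun n θ => D θ (Z n)).R)
    (fun f hf => by simpa only [tev_emb] using (le_gen _).2 (h δ hδ f hf))
    (fun θ => by
      simpa only [tev_var] using! S.gen_mem Z (mul_mem (Submonoid.subset_closure hδ) (S.mem θ)))
    (fun _ _ _ _ h h' => by simpa only [Pi.add_apply, map_add] using! add_mem h h')
    (fun _ h1 _ h2 h h' => by
      simpa only [Pi.mul_apply, map_mul, (S.ops δ hδ).1 _] using! add_mem
        (mul_mem h (MP_0cf807_al.gen_mem _ h2)) (mul_mem (MP_0cf807_al.gen_mem _ h1) h'))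
    (fun b _ hb Φ hΦ => Frame.sat _ _ (Frame.hs _ _ hb) _ fun n hn => by
      rw [hΦ n hn, tev, (extR_xl _).hsum]
      exact (S.ops δ hδ).2.1.hsum _) Φ hΦ) _ fun n hn => by rw [hf n hn]

theorem Sys.center (S : Sys 𝒟 Δ D) (ck : CK U 𝒟 Δ D) (hF : GC 𝒟 Δ F)
    {Φ : ℕ → (MvPolynomial σ E)⟦X⟧} (hΦ : Φ ∈ (Ser σ F).R) (θ₀ : σ) (Z : ℕ → E⟦X⟧)
    (h1 : ∀ᶠ n in U, constantCoeff (tev (fun θ => D θ (Z n)) (lftE (pP θ₀) (Φ n))) ≠ 0)
    (h2 : ∀ᶠ n in U, constantCoeff (tev (fun θ => D θ (Z n)) (Φ n)) = 0) :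
    ∃ G, GC 𝒟 Δ G ∧ F ≤ G ∧ ∃ W ∈ G.R, ∀ᶠ n in U,
      ∀ k, X ^ k ∣ tev (fun θ => D θ (Z n)) (Φ n) → X ^ k ∣ Z n - W n := by
  obtain ⟨F₁, hF₁, l₁, hz⟩ := hF.r S.ops fun n => constantCoeff (Z n)
  obtain ⟨g, hg, a, ha, Ψ, hΨ, h⟩ := Ser.taylor (S.cl hF₁.2 hz) Φ ((Ser.mono l₁).2 hΦ)
  have e0 : ∀ n y Φ, tev (fun θ => D θ (C (constantCoeff (Z n)) + X * y)) Φ =
      tev (fun θ => D θ y) (tsb (fun θ => D θ (C (constantCoeff (Z n)))) X Φ) := fun n y Φ => by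
    simp only [tev_tsb, map_add, S.xl _ _]
  have e1 : ∀ n ∈ F₁.Ω, ∀ y, tev (fun θ => D θ (C (constantCoeff (Z n)) + X * y)) (Φ n) =
      g n + X * (∑ θ ∈ a.support, a θ n * D θ y + X * tev (fun θ => D θ y) (Ψ n)) := by
    intro n hn y
    rw [e0, h n hn]
    simp only [map_add, map_mul, map_pow, tev_X, tev_emb, lin_apply, map_sum, tev_var]
    ring
  have e2 : ∀ᶠ n in U, constantCoeff (a θ₀ n) ≠ 0 := by
    filter_upwards [h1, F₁.ev] with n h3 hn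
    have := congrArg (lftE (pP θ₀)) (h n hn)
    rw [pd_tsb, map_add, map_add, pd_emb, lftE_apply, lftE_apply, lftE_apply, lft_xl,
      (lft_xl _).pow, ← lftE_apply, ← lftE_apply, pd_lin, emb_X, zero_add, sq, mul_assoc,
      ← mul_add] at this
    rw [eq_tl (Z n), e0, X_mul_cancel this] at h3
    simpa [tev_emb, tev_X] using h3
  obtain ⟨F₂, hF₂, l₂, h4⟩ := hF₁.div S.ops (c := {g}) (by rintro _ rfl; exact hg) (fun _ => 1) (by
    rintro _ rfl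
    filter_upwards [h2, F₁.ev] with n h3 hn
    rw [eq_tl (Z n), e1 n hn] at h3
    simpa [X_dvd_iff] using h3)
  obtain ⟨g', hg', h5⟩ := h4 g rfl
  obtain ⟨F₃, hF₃, l₃, h6⟩ := hF₂.restrict S.ops e2
  have h7 : θ₀ ∈ a.support := Finsupp.mem_support_iff.2 fun h => by
    obtain ⟨n, hn⟩ := e2.exists
    simp [h] at hn
  choose! Y hY hY' using fun n (hn : n ∈ F₃.Ω) => newton (fun y => g' n +
    ∑ θ ∈ a.support, a θ n * D θ y + X * tev (fun θ => D θ y) (Ψ n)) (fun k x y hk => by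
      have h8 : ∀ θ, X ^ k ∣ D θ y - D θ x := fun θ => by rw [← map_sub]; exact (S.xl θ).dvd hk
      convert dvd_add (Finset.dvd_sum fun θ (_ : θ ∈ a.support) => (h8 θ).mul_left (a θ n))
        ((tev_lip h8 (Ψ n)).mul_left X) using 1
      simp only [mul_sub, Finset.sum_sub_distrib]
      ring) (fun k x ⟨m, hm⟩ => by
      obtain ⟨v, r, hv⟩ := S.surj a.support (fun θ => a θ n) ⟨θ₀, h7, h6 n hn⟩ (-m)
      obtain ⟨s, hs⟩ := tev_lip (z := fun θ => D θ (x + X ^ k * v)) (z' := fun θ => D θ x)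
        (k := k) (fun θ => by simp [(S.xl θ).pow]) (Ψ n)
      refine ⟨v, s - r, ?_⟩
      simp only [map_add, (S.xl _).pow, mul_add, Finset.sum_add_distrib, mul_left_comm _ (X ^ k),
        ← Finset.mul_sum] at hs ⊢
      linear_combination hm + X * hs - X ^ k * hv) (tl (Z n))
  obtain ⟨G, hG, l₄, h8⟩ := ck F₃ hF₃ Y a.support a (fun θ => (l₂.trans l₃).2 (ha θ))
    ⟨θ₀, h7, e2⟩ g' (l₃.2 hg') _ (MP_0cf807_al.gen_mem _ ((Ser.mono (l₂.trans l₃)).2 hΨ)) hY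
  refine ⟨G, hG, l₁.trans (l₂.trans (l₃.trans l₄)), _,
    add_mem ((l₂.trans (l₃.trans l₄)).2 hz) (mul_mem G.X_mem h8), F₃.ev.mono fun n hn k hk => ?_⟩
  rcases k with _ | k
  · simp
  rw [eq_tl (Z n), e1 n ((l₂.trans l₃).1 hn), h5 n (l₃.1 hn), pow_one, ← mul_add, pow_succ',
    mul_dvd_mul_iff_left X_ne_zero, ← add_assoc] at hk
  rw [pow_succ', ← dvd_neg]
  convert mul_dvd_mul_left X (hY' n hn k hk) using 1
  conv_lhs => rw [eq_tl (Z n)]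
  simp only [Pi.add_apply, Pi.mul_apply]
  ring

theorem Concl.scale {c c' : Set (ℕ → E⟦X⟧)} (h : Concl c' F) (N : ℕ → ℕ)
    (h1 : ∀ f ∈ c, ∃ f' ∈ c', ∀ n ∈ F.Ω, f n = X ^ N n * f' n)
    (h2 : ∀ f' ∈ c', ∃ f ∈ c, ∀ n ∈ F.Ω, f n = X ^ N n * f' n) : Concl c F := by
  rcases h with h | ⟨M, h, f', hf', h'⟩
  · refine Or.inl fun f hf n hn => ?_
    obtain ⟨f', hf', e⟩ := h1 f hf
    rw [e n hn, h f' hf' n hn, mul_zero]
  refine Or.inr ⟨fun n => M n + N n, fun f hf => ?_, ?_⟩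
  · obtain ⟨f', hf', e⟩ := h1 f hf
    obtain ⟨u, hu, e'⟩ := h f' hf'
    exact ⟨u, hu, fun n hn => by rw [e n hn, e' n hn]; ring⟩
  · obtain ⟨f, hf, e⟩ := h2 f' hf'
    refine ⟨f, hf, ?_⟩
    filter_upwards [h', F.ev] with n h3 hn
    rwa [e n hn, coeff_X_pow_mul]

end Pool.Agent.P.MP_0cf807_al
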