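import Pool.Agent.P.MP_0cf807_al.ZUniv
import Pool.Agent.P.MP_0cf807_al.Main

/-!
The free algebra inside the star product of symbols.
-/

set_option autoImplicit false

noncomputable section

namespace Pool.Agent.P.MP_0cf807_al

open PowerSeries Filter

theorem hsum_C {A : Type} [CommRing A] (a : ℕ → A) : hsum (fun j => C (a j)) = mk a :=
  (hsum_unique (f := fun k => mk fun j => a (j + k)) fun k => by
    ext n
    cases n <;> simp [coeff_succ_X_mul, add_assoc, add_comm 1]).symm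

theorem lftE_C {A : Type} [CommRing A] (d : AddMonoid.End A) (a : A) : lftE d (C a) = C (d a) :=
  lft_C _ _

theorem lftE_xl {A : Type} [CommRing A] (d : AddMonoid.End A) : XL (lftE d) := lft_xl _

theorem coeff_lftE {A : Type} [CommRing A] (d : AddMonoid.End A) (f : A⟦X⟧) (n : ℕ) :
    coeff n (lftE d f) = d (coeff n f) := coeff_lft _ _ _

theorem IsDer.lftE {A : Type} [CommRing A] {d : AddMonoid.End A} (h : IsDer d) :
    IsDer (lftE d) := h.lft

/-- The polynomial attached to a word. -/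
def nu (E : Type) [Field E] : List ℕ → Polynomial E
  | [] => 1
  | i :: w => 1 + Polynomial.X ^ (i + 1) * nu E w

theorem nu_zero (E : Type) [Field E] (w : List ℕ) : (nu E w).coeff 0 = 1 := by
  cases w <;> simp [nu]

theorem nu_injective (E : Type) [Field E] : Function.Injective (nu E) := by
  have h0 : ∀ i w, nu E [] ≠ nu E (i :: w) := fun i w h => by
    simpa [nu, Polynomial.coeff_X_pow_mul', nu_zero, Polynomial.coeff_one] using
      congrArg (Polynomial.coeff · (i + 1)) h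
  have h1 : ∀ i j w w', nu E (i :: w) = nu E (j :: w') → j ≤ i := fun i j w w' h => by
    by_contra h'
    simpa [nu, Polynomial.coeff_X_pow_mul', nu_zero, h'] using
      congrArg (Polynomial.coeff · (i + 1)) h
  intro w
  induction w with
  | nil => rintro (_ | ⟨i, w⟩) h; exacts [rfl, (h0 _ _ h).elim]
  | cons i w ih =>
    rintro (_ | ⟨j, w'⟩) h
    · exact (h0 _ _ h.symm).elim
    obtain rfl : i = j := (h1 _ _ _ _ h.symm).antisymm (h1 _ _ _ _ h)
    rw [ih (by simpa [nu] using h)]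

theorem aeval_exp_injective (E : Type) [Field E] [CharZero E] :
    Function.Injective (Polynomial.aeval (R := E) (exp E)) := by
  refine LinearMap.injective_of_linearIndependent (f := (Polynomial.aeval (exp E)).toLinearMap)
    (Polynomial.basisMonomials E).span_eq ?_
  refine Module.End.eigenvectors_linearIndependent' (derivative E).toLinearMap (fun i : ℕ => (i : E))
    Nat.cast_injective _ fun i => ⟨Module.End.mem_eigenspace_iff.2 ?_, ?_⟩
  · cases i <;> simp [Polynomial.aeval_monomial, derivative_exp, smul_eq_C_mul, add_comm,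
      ← pow_succ]
  · simp [Polynomial.aeval_monomial, (isUnit_exp E).ne_zero]

variable (B : DF)

/-- The star product. -/
def DF.star (f g : B.E⟦X⟧) : B.E⟦X⟧ :=
  hsum fun j => C (j.factorial : B.E)⁻¹ * ((lftE B.d₂ ^ j) f * (lftE B.d₁ ^ j) g)

theorem DF.der (d : ℕ) : IsDer (d • B.d₁) := fun a b => by
  change d • B.d₁ _ = d • B.d₁ a * b + a * d • B.d₁ b
  simp only [B.h₁ a b, nsmul_eq_mul]
  ring

/-- The shift. -/
def DF.sg (d : ℕ) : B.E⟦X⟧ →+* B.E⟦X⟧ := extR (tay _ (B.der d))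

theorem DF.coeff_tay (d j : ℕ) (a : B.E) : coeff j (tay _ (B.der d) a) =
    (j.factorial : B.E)⁻¹ * (d ^ j * (B.d₁ ^ j) a) := by
  refine (coeff_tayA _ a j).trans ?_
  rw [smul_pow]
  change _ • d ^ j • (B.d₁ ^ j) a = _
  simp [Rat.smul_def]

theorem DF.sg_apply (d : ℕ) (g : B.E⟦X⟧) :
    B.sg d g = hsum fun j => C (j.factorial : B.E)⁻¹ * ((d : B.E⟦X⟧) ^ j * (lftE B.d₁ ^ j) g) := by
  refine XL.ext (ψ' := AddMonoidHom.mk' (fun g => hsum fun j => C (j.factorial : B.E)⁻¹ *
    ((d : B.E⟦X⟧) ^ j * (lftE B.d₁ ^ j) g)) fun f g => by simp only [map_add, mul_add, hsum_add])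
    (extR_xl _) (fun f => ?_) (fun a => ?_) g
  · simp only [AddMonoidHom.mk'_apply, mul_hsum, ← map_pow lftE, lftE_xl _ _, mul_left_comm _ X]
  · simp only [AddMonoidHom.mk'_apply, ← map_pow, lftE_C, ← map_natCast C, ← map_mul,
      hsum_C, DF.sg, extR_C]
    ext j
    rw [B.coeff_tay, coeff_mk]

theorem DF.sg_sg (d e : ℕ) (g : B.E⟦X⟧) : B.sg d (B.sg e g) = B.sg (d + e) g := by
  refine ringHom_ext' (ψ := (B.sg d).comp (B.sg e)) (by simp [DF.sg, extR_X]) (extR_X _)
    (fun a => ?_) g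
  ext n
  have := congrArg (coeff n) (exp_mul_exp_eq_exp_add (e : B.E) d)
  simp only [RingHom.comp_apply, DF.sg, extR_C]
  rw [extR_apply, hsum, coeff_mk, B.coeff_tay]
  simp only [coeff_mul, coeff_rescale, coeff_exp, one_div, map_inv₀, map_natCast] at this
  rw [← mul_assoc, mul_comm _ (_ ^ n), Nat.cast_add, add_comm (d : B.E), ← this, Finset.sum_mul]
  refine Finset.sum_congr rfl fun ij h => ?_
  have e := map_rat_smul (B.d₁ ^ ij.2) ((ij.1.factorial : ℚ)⁻¹ * e ^ ij.1) ((B.d₁ ^ ij.1) a)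
  simp only [Rat.smul_def, Rat.cast_mul, Rat.cast_inv, Rat.cast_natCast, Rat.cast_pow,
    mul_assoc] at e
  rw [B.coeff_tay, B.coeff_tay, e, ← Finset.HasAntidiagonal.mem_antidiagonal.1 h, add_comm,
    pow_add]
  change _ = _ * (B.d₁ ^ ij.2) ((B.d₁ ^ ij.1) a)
  ring

theorem DF.lft_sg {e : AddMonoid.End B.E} (h : Commute e B.d₁) (d : ℕ) (g : B.E⟦X⟧) :
    lftE e (B.sg d g) = B.sg d (lftE e g) := by
  refine XL.ext (ψ := (lft e).comp (B.sg d).toAddMonoidHom)
    (ψ' := (B.sg d).toAddMonoidHom.comp (lft e)) (fun f => ?_) (fun f => ?_) (fun a => ?_) g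
  · exact (congrArg (lft e) (extR_xl _ f)).trans (lft_xl _ _)
  · exact (congrArg (B.sg d) (lft_xl _ _)).trans (extR_xl _ _)
  · change lft e (extR _ _) = extR _ (lft e _)
    rw [lft_C, extR_C, extR_C]
    exact lftE_tayA (h.smul_right d) a

theorem DF.sg_const {s : B.E⟦X⟧} (h : lftE B.d₁ s = 0) (d : ℕ) : B.sg d s = s := by
  rw [B.sg_apply, hsum_single _ 0 fun j hj => ?_]
  · simp
  · obtain ⟨j, rfl⟩ := Nat.exists_eq_succ_of_ne_zero hj
    simp [pow_succ, h]

theorem DF.sg_zero (g : B.E⟦X⟧) : B.sg 0 g = g := by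
  rw [B.sg_apply, hsum_single _ 0 fun j hj => by simp [hj]]
  simp

theorem DF.constantCoeff_sg (d : ℕ) (g : B.E⟦X⟧) :
    constantCoeff (B.sg d g) = constantCoeff g := by
  rw [B.sg_apply, hsum_succ]
  simp

theorem DF.sg_eigen {y : B.E} (h : B.d₁ y = y) : B.sg 1 (C y) = exp B.E * C y := by
  ext j
  rw [DF.sg, extR_C, B.coeff_tay, coeff_mul_C, coeff_exp, AddMonoid.End.coe_pow,
    Function.iterate_fixed h]
  simp

theorem DF.star_eigen {m : B.E⟦X⟧} {d : ℕ} (h : lftE B.d₂ m = d * m) (g : B.E⟦X⟧) :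
    B.star m g = m * B.sg d g := by
  have : ∀ j, (lftE B.d₂ ^ j) m = d ^ j * m := fun j => by
    induction j with
    | zero => simp
    | succ j ih =>
      rw [pow_succ, pow_succ', mul_assoc, ← ih, ← nsmul_eq_mul, ← map_nsmul, nsmul_eq_mul, ← h]
      rfl
  rw [B.sg_apply, mul_hsum, DF.star]
  exact congrArg hsum (funext fun j => by rw [this]; ring)

theorem DF.star_add (f f' g : B.E⟦X⟧) : B.star (f + f') g = B.star f g + B.star f' g := by
  simp only [DF.star, map_add, add_mul, mul_add, hsum_add]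

theorem DF.star_C {c : B.E} (h : B.d₂ c = 0) (f g : B.E⟦X⟧) :
    B.star (C c * f) g = C c * B.star f g := by
  have : ∀ j f, (lftE B.d₂ ^ j) (C c * f) = C c * (lftE B.d₂ ^ j) f := fun j => by
    induction j with
    | zero => simp
    | succ j ih =>
      intro f
      rw [pow_succ]
      change (lftE B.d₂ ^ j) (lftE B.d₂ _) = C c * (lftE B.d₂ ^ j) (lftE B.d₂ f)
      rw [B.h₂.lftE, lftE_C, ← ih, h, map_zero, zero_mul, zero_add]
  rw [DF.star, DF.star, mul_hsum]
  exact congrArg hsum (funext fun j => by rw [this]; ring)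

theorem exists_symbol (K : Type) [Field K] [CharZero K] (Y : Type) (ι : Y → ℕ) :
    ∃ (B : DF) (_ : Algebra K B.E) (α β : B.E)
      (ρ : FreeAlgebra K Y →ₐ[K] Module.End K B.E⟦X⟧), LS B.d₁ B.d₂ ∧
      (∀ a, B.d₁ (algebraMap K _ a) = 0) ∧ (∀ a, B.d₂ (algebraMap K _ a) = 0) ∧
      (∀ f g, ρ f g = B.star (ρ f 1) g) ∧
      (∀ x, ρ (FreeAlgebra.ι K x) 1 = B.star (C α) ((B.star (C β))^[ι x] 1)) ∧
      ∀ c : List Y →₀ K, Set.InjOn (List.map ι) c.support →
        ρ (c.sum fun l a => a • (l.map (FreeAlgebra.ι K)).prod) 1 = 0 → c = 0 := by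
  obtain ⟨B, k, α, β, y, hL, k₁, k₂, hα, hβ, hy, a₁, b₁, y₁, a₂, b₂⟩ := exists_universal K
  let := k.toAlgebra
  have ha : ∀ a, algebraMap K B.E⟦X⟧ a = C (k a) := fun a => PowerSeries.algebraMap_apply
  have hk : ∀ a, lftE B.d₁ (C (k a)) = 0 := fun a => by rw [lftE_C, k₁, map_zero]
  let σ : B.E⟦X⟧ →ₐ[K] B.E⟦X⟧ := { B.sg 1 with
    commutes' := fun a => B.sg_const (ha a ▸ hk a) 1 }
  let L : B.E → Module.End K B.E⟦X⟧ := fun c => LinearMap.mulLeft K (C c) ∘ₗ σ.toLinearMap
  have hLa : ∀ c g, L c g = C c * B.sg 1 g := fun c g => rfl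
  let ρ : FreeAlgebra K Y →ₐ[K] Module.End K B.E⟦X⟧ := FreeAlgebra.lift K fun x => L α * L β ^ ι x
  have hρ : ∀ x, ρ (FreeAlgebra.ι K x) = L α * L β ^ ι x := FreeAlgebra.lift_ι_apply _
  let W : Submonoid (Module.End K B.E⟦X⟧) :=
    { carrier := {P | ∃ (d : ℕ) (m : B.E⟦X⟧), lftE B.d₂ m = d * m ∧ ∀ g, P g = m * B.sg d g}
      one_mem' := ⟨0, 1, by simpa using B.h₂.lftE.one, fun g => by simp [B.sg_zero]⟩
      mul_mem' := fun ⟨d, m, h, h'⟩ ⟨e, m', k, k'⟩ => ⟨d + e, m * B.sg d m', by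
        rw [B.h₂.lftE, h, B.lft_sg B.hc.symm, k]
        simp only [map_mul, map_natCast, Nat.cast_add]
        ring, fun g => by rw [Module.End.mul_apply, h', k', map_mul, B.sg_sg, mul_assoc]⟩ }
  have hC : ∀ c, B.d₂ c = c → lftE B.d₂ (C c) = (1 : ℕ) * C c := fun c h => by
    simp [lftE_C, h]
  have hs : ∀ f g, ρ f g = B.star (ρ f 1) g := fun f g => by
    have hf : f ∈ _ := span_words (K := K) (Y := Y) ▸ Submodule.mem_top
    induction hf using Submodule.span_induction with
    | mem f hf =>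
      obtain ⟨l, rfl⟩ := hf
      obtain ⟨d, m, h1, h2⟩ : ρ (l.map (FreeAlgebra.ι K)).prod ∈ W := by
        rw [map_list_prod]
        refine list_prod_mem fun P hP => ?_
        simp only [List.map_map, List.mem_map, Function.comp_apply, hρ] at hP
        obtain ⟨x, -, rfl⟩ := hP
        exact mul_mem ⟨1, _, hC α a₂, hLa α⟩ (pow_mem (show L β ∈ W from ⟨1, _, hC β b₂, hLa β⟩) _)
      rw [h2, h2, map_one, mul_one, B.star_eigen h1]
    | zero => simpa using (B.star_eigen (m := 0) (d := 0) (by simp) g).symm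
    | add f f' _ _ h h' => simp only [map_add, LinearMap.add_apply, B.star_add, ← h, ← h']
    | smul a f _ h =>
      rw [map_smul, LinearMap.smul_apply, LinearMap.smul_apply, h, Algebra.smul_def,
        Algebra.smul_def, ha, B.star_C (k₂ a)]
  refine ⟨B, inferInstance, α, β, ρ, hL, k₁, k₂, hs, fun x => ?_, fun c hc h0 => ?_⟩
  · have : B.star (C β) = L β := funext fun g => B.star_eigen (hC β b₂) g
    rw [hρ, B.star_eigen (hC α a₂), this, Module.End.mul_apply, Module.End.pow_apply, hLa]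
  let R : Subring B.E⟦X⟧ :=
    { (lftE B.d₁ : B.E⟦X⟧ →+ B.E⟦X⟧).ker with
      one_mem' := B.h₁.lftE.one
      mul_mem' := fun {f g} (h : lftE B.d₁ f = 0) (h' : lftE B.d₁ g = 0) =>
        (B.h₁.lftE f g).trans (by rw [h, h']; simp) }
  have hq : exp B.E ∈ R := by
    change lftE B.d₁ _ = 0
    ext j
    simpa [coeff_lftE, Rat.smul_def, B.h₁.one] using map_rat_smul B.d₁ (j.factorial : ℚ)⁻¹ 1
  have hν : ∀ w, Polynomial.aeval (exp B.E) (nu B.E w) ∈ R := fun w => by
    induction w with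
    | nil => simpa [nu] using one_mem R
    | cons i w ih => simpa [nu] using add_mem (one_mem R) (mul_mem (pow_mem hq _) ih)
  have e1 : ∀ c t μ g, B.d₁ c = t * y * c → μ ∈ R → lftE B.d₁ g = μ * C y * g →
      lftE B.d₁ (L c g) = (C t + exp B.E * μ) * C y * L c g := fun c t μ g h hμ hg => by
    rw [hLa, B.h₁.lftE, lftE_C, B.lft_sg (Commute.refl _), hg, h]
    simp only [map_mul, B.sg_eigen y₁, B.sg_const hμ]
    ring
  have e2 : ∀ l : List Y, constantCoeff (ρ (l.map (FreeAlgebra.ι K)).prod (C α)) ≠ 0 ∧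
      lftE B.d₁ (ρ (l.map (FreeAlgebra.ι K)).prod (C α)) = Polynomial.aeval (exp B.E)
        (nu B.E (l.map ι)) * C y * ρ (l.map (FreeAlgebra.ι K)).prod (C α) := fun l => by
    induction l with
    | nil => simp [hα, lftE_C, a₁, nu]
    | cons x l ih =>
      rw [List.map_cons, List.prod_cons, map_mul, hρ, Module.End.mul_apply, Module.End.mul_apply]
      generalize ρ _ _ = g at ih
      have : ∀ i, constantCoeff ((L β ^ i) g) ≠ 0 ∧ lftE B.d₁ ((L β ^ i) g) = exp B.E ^ i *
          Polynomial.aeval (exp B.E) (nu B.E (l.map ι)) * C y * (L β ^ i) g := fun i => by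
        induction i with
        | zero => simpa using ih
        | succ i ih =>
          rw [pow_succ', Module.End.mul_apply, e1 β 0 _ _ (by simp [b₁])
            (mul_mem (pow_mem hq i) (hν _)) ih.2]
          exact ⟨by simp [hLa, B.constantCoeff_sg, hβ, ih.1], by simp [pow_succ', mul_assoc]⟩
      rw [e1 α 1 _ _ (by simp [a₁]) (mul_mem (pow_mem hq _) (hν _)) (this _).2]
      exact ⟨by simp [hLa, B.constantCoeff_sg, hα, (this _).1], by
        simp [nu, pow_succ', mul_assoc]⟩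
  let T : Module.End R B.E⟦X⟧ :=
    { toFun := fun g => C y⁻¹ * lftE B.d₁ g
      map_add' := fun f g => by rw [map_add, mul_add]
      map_smul' := fun s g => by
        change C y⁻¹ * lftE B.d₁ (s.1 * g) = s.1 * (C y⁻¹ * lftE B.d₁ g)
        rw [B.h₁.lftE, show lftE B.d₁ s.1 = 0 from s.2]
        ring }
  have h1 := Module.End.eigenvectors_linearIndependent' T (fun l : c.support => ⟨_, hν (l.1.map ι)⟩)
    (fun l l' h => Subtype.ext (hc l.2 l'.2 (nu_injective _ (aeval_exp_injective _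
      (congrArg Subtype.val h))))) (fun l => ρ (l.1.map (FreeAlgebra.ι K)).prod (C α)) fun l =>
      ⟨Module.End.mem_eigenspace_iff.2 (by
        change C y⁻¹ * lftE B.d₁ _ = _ * _
        rw [(e2 l).2, mul_right_comm, mul_comm, mul_assoc, ← map_mul, mul_inv_cancel₀ hy, map_one,
          mul_one]), fun h => (e2 l).1 (by rw [h, map_zero])⟩
  have h2 := hs (c.sum fun l a => a • (l.map (FreeAlgebra.ι K)).prod) (C α)
  rw [h0, B.star_eigen (m := 0) (d := 0) (by simp), zero_mul, Finsupp.sum, map_sum,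
    LinearMap.sum_apply, ← Finset.sum_coe_sort] at h2
  ext l
  by_contra h3
  have := Fintype.linearIndependent_iff.1 h1 (fun l => ⟨C (k (c l)), hk _⟩) (by
    simpa only [Subring.smul_def, smul_eq_mul, map_smul, LinearMap.smul_apply, ← ha,
      ← Algebra.smul_def] using h2)
    ⟨l, Finsupp.mem_support_iff.2 h3⟩
  exact h3 (k.injective (C_injective ((congrArg Subtype.val this).trans (by simp))))

end Pool.Agent.P.MP_0cf807_al
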