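import Pool.Agent.P.MP_0cf807_al.ZFrame

/-!
Restricted power series over a frame.
-/

set_option autoImplicit false

noncomputable section

namespace Pool.Agent.P.MP_0cf807_al

open PowerSeries Filter

theorem XL.dvd_of_C {A B F : Type} [CommRing A] [CommRing B] [FunLike F A⟦X⟧ B⟦X⟧]
    [AddMonoidHomClass F A⟦X⟧ B⟦X⟧] {ψ : F} (h : XL ψ) {k : ℕ} (e : ∀ a, X ^ k ∣ ψ (C a))
    (f : A⟦X⟧) : X ^ k ∣ ψ f := by
  induction k generalizing f with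
  | zero => simp
  | succ k ih =>
    rw [eq_tl f, map_add, h]
    exact dvd_add (e _) (pow_succ' (X : B⟦X⟧) k ▸ mul_dvd_mul_left _
      (ih (fun a => (pow_dvd_pow _ k.le_succ).trans (e a)) _))

variable {E σ : Type} [Field E]

/-- Constants. -/
def emb : E⟦X⟧ →+* (MvPolynomial σ E)⟦X⟧ := map MvPolynomial.C

/-- Variables. -/
def var (θ : σ) : (MvPolynomial σ E)⟦X⟧ := C (MvPolynomial.X θ)

/-- Evaluation. -/
def tev (z : σ → E⟦X⟧) : (MvPolynomial σ E)⟦X⟧ →+* E⟦X⟧ := extR (MvPolynomial.eval₂Hom C z)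

/-- Affine substitution. -/
def tsb (w : σ → E⟦X⟧) (t : E⟦X⟧) : (MvPolynomial σ E)⟦X⟧ →+* (MvPolynomial σ E)⟦X⟧ :=
  extR (MvPolynomial.eval₂Hom (C.comp MvPolynomial.C) fun θ => emb (w θ) + emb t * var θ)

/-- Partial derivative of polynomials. -/
def pP (θ : σ) : AddMonoid.End (MvPolynomial σ E) :=
  (MvPolynomial.pderiv θ).toLinearMap.toAddMonoidHom

/-- Iterated partial derivative of polynomials. -/
def pL (κ : List σ) : AddMonoid.End (MvPolynomial σ E) := (κ.map pP).prod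

theorem pP_apply (θ : σ) (p : MvPolynomial σ E) : pP θ p = MvPolynomial.pderiv θ p := rfl

theorem pL_nil : pL ([] : List σ) = (1 : AddMonoid.End (MvPolynomial σ E)) := rfl

theorem pL_cons (θ : σ) (κ : List σ) :
    pL (θ :: κ) = (pP θ * pL κ : AddMonoid.End (MvPolynomial σ E)) := by
  simp [pL]

theorem pL_concat (θ : σ) (κ : List σ) (p : MvPolynomial σ E) :
    pL (κ ++ [θ]) p = pL κ (pP θ p) := by
  simp [pL]

theorem emb_X : emb (σ := σ) (X : E⟦X⟧) = X := map_X _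

theorem tate_ext {B : Type} [CommRing B] {ψ ψ' : (MvPolynomial σ E)⟦X⟧ →+* B⟦X⟧}
    (h : ψ X = X) (h' : ψ' X = X)
    (e : ∀ a, ψ (C (MvPolynomial.C a)) = ψ' (C (MvPolynomial.C a)))
    (e' : ∀ θ, ψ (var θ) = ψ' (var θ)) (f : (MvPolynomial σ E)⟦X⟧) : ψ f = ψ' f :=
  ringHom_ext' h h' (fun p => DFunLike.congr_fun
    (MvPolynomial.ringHom_ext (f := ψ.comp C) (g := ψ'.comp C) e e') p) f

theorem tev_X (z : σ → E⟦X⟧) : tev z X = X := extR_X _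

theorem tev_var (z : σ → E⟦X⟧) (θ : σ) : tev z (var θ) = z θ := by simp [tev, var, extR_C]

theorem tev_emb (z : σ → E⟦X⟧) (s : E⟦X⟧) : tev z (emb s) = s :=
  ringHom_ext' (ψ := (tev z).comp emb) (ψ' := RingHom.id _) (by simp [emb_X, tev_X]) rfl
    (fun a => by simp [emb, tev, extR_C]) s

theorem tsb_X (w : σ → E⟦X⟧) (t : E⟦X⟧) : tsb w t X = X := extR_X _

theorem tsb_var (w : σ → E⟦X⟧) (t : E⟦X⟧) (θ : σ) :
    tsb w t (var θ) = emb (w θ) + emb t * var θ := by simp [tsb, var, extR_C]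

theorem tsb_emb (w : σ → E⟦X⟧) (t s : E⟦X⟧) : tsb w t (emb s) = emb s :=
  ringHom_ext' (ψ := (tsb w t).comp emb) (ψ' := emb) (by simp [emb_X, tsb_X]) emb_X
    (fun a => by simp [emb, tsb, extR_C]) s

theorem emb_C (a : E) : emb (C a) = (C (MvPolynomial.C a) : (MvPolynomial σ E)⟦X⟧) := map_C _ _

theorem tev_tsb (y w : σ → E⟦X⟧) (t : E⟦X⟧) (Φ : (MvPolynomial σ E)⟦X⟧) :
    tev y (tsb w t Φ) = tev (fun θ => w θ + t * y θ) Φ :=
  tate_ext (ψ := (tev y).comp (tsb w t)) (by simp [tsb_X, tev_X]) (tev_X _)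
    (fun a => by simp [← emb_C, tsb_emb, tev_emb])
    (fun θ => by simp [tsb_var, tev_emb, tev_var]) Φ

theorem pd_der (θ : σ) : IsDer (lftE (pP (E := E) θ)) :=
  IsDer.lft (d := pP θ) fun a b => MvPolynomial.pderiv_mul

theorem pd_emb (θ : σ) (s : E⟦X⟧) : lftE (pP θ) (emb s) = 0 := by
  ext1 n
  rw [lftE_apply, coeff_lft]
  simp [emb, pP]

theorem pd_var [DecidableEq σ] (θ θ' : σ) :
    lftE (pP (E := E) θ) (var θ') = if θ' = θ then 1 else 0 := by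
  rw [lftE_apply, var, lft_C]
  split_ifs with h <;> simp [pP, h]

theorem pd_tsb (w : σ → E⟦X⟧) (t : E⟦X⟧) (θ : σ) (Φ : (MvPolynomial σ E)⟦X⟧) :
    lftE (pP θ) (tsb w t Φ) = emb t * tsb w t (lftE (pP θ) Φ) := by
  classical
  refine XL.ext (ψ := AddMonoidHom.comp (lftE (pP θ)) (tsb w t).toAddMonoidHom)
    (ψ' := (AddMonoidHom.mulLeft (emb t)).comp ((tsb w t).toAddMonoidHom.comp (lftE (pP θ))))
    (fun f => ?_) (fun f => ?_) (fun p => ?_) Φ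
  · change lft (pP θ) (tsb w t _) = X * lft (pP θ) (tsb w t f)
    rw [map_mul, tsb_X, lft_xl]
  · change emb t * tsb w t (lft (pP θ) _) = X * (emb t * tsb w t (lft (pP θ) f))
    rw [lft_xl, map_mul, tsb_X, mul_left_comm]
  change lftE (pP θ) (tsb w t (C p)) = emb t * tsb w t (lftE (pP θ) (C p))
  induction p using MvPolynomial.induction_on with
  | C a => simp [← emb_C, tsb_emb, pd_emb]
  | add p q h1 h2 => simp only [map_add, h1, h2, mul_add]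
  | mul_X p θ' h =>
    rw [map_mul, ← var, map_mul, pd_der, pd_der, h, map_add, map_mul, map_mul, tsb_var, map_add,
      pd_der, pd_emb, pd_emb, pd_var]
    split_ifs <;> simp only [map_one, map_zero] <;> ring

theorem pdL_tsb (w : σ → E⟦X⟧) (t : E⟦X⟧) (κ : List σ) (Φ : (MvPolynomial σ E)⟦X⟧) :
    lftE (pL κ) (tsb w t Φ) = emb (t ^ κ.length) * tsb w t (lftE (pL κ) Φ) := by
  induction κ with
  | nil => simp [pL_nil]
  | cons θ κ ih =>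
    simp only [pL_cons, map_mul, AddMonoid.End.coe_mul, Function.comp_apply, ih, pd_der θ _, pd_emb, pd_tsb,
      List.length_cons, pow_succ]
    ring

theorem constantCoeff_tev (z : σ → E⟦X⟧) (Φ : (MvPolynomial σ E)⟦X⟧) : constantCoeff (tev z Φ) =
    MvPolynomial.eval (fun θ => constantCoeff (z θ)) (constantCoeff Φ) := by
  conv_lhs => rw [eq_tl Φ]
  rw [map_add, map_mul, tev_X, tev, extR_C]
  rw [map_add, map_mul, constantCoeff_X, zero_mul, add_zero]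
  exact DFunLike.congr_fun (MvPolynomial.ringHom_ext (f := constantCoeff.comp
    (MvPolynomial.eval₂Hom C z)) (g := MvPolynomial.eval fun θ => constantCoeff (z θ))
    (by simp) (by simp)) (constantCoeff Φ)

theorem tev_lip {z z' : σ → E⟦X⟧} {k : ℕ} (h : ∀ θ, X ^ k ∣ z θ - z' θ)
    (Φ : (MvPolynomial σ E)⟦X⟧) : X ^ k ∣ tev z Φ - tev z' Φ := by
  refine XL.dvd_of_C (ψ := (tev z).toAddMonoidHom - (tev z').toAddMonoidHom)
    (fun f => by simp [tev_X, mul_sub]) (fun p => ?_) Φ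
  change _ ∣ tev z (C p) - tev z' (C p)
  induction p using MvPolynomial.induction_on with
  | C a => simp [← emb_C, tev_emb]
  | add p q h1 h2 => convert dvd_add h1 h2 using 1; simp only [map_add]; ring
  | mul_X p θ h1 =>
    convert dvd_add (h1.mul_right (z θ)) ((h θ).mul_left (tev z' (C p))) using 1
    rw [map_mul, ← var, map_mul, map_mul, tev_var, tev_var]
    ring

variable {U : Ultrafilter ℕ}

/-- Specialisation of polynomials over a frame. -/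
def spec (F : Frame E U) (n : ℕ) : MvPolynomial σ F.R →+* (MvPolynomial σ E)⟦X⟧ :=
  MvPolynomial.eval₂Hom (emb.comp ((Pi.evalRingHom _ n).comp F.R.subtype)) var

variable (σ) in
/-- Restricted power series over a frame. -/
def Ser (F : Frame E U) : Frame (MvPolynomial σ E) U where
  Ω := F.Ω
  hΩ := F.hΩ
  R :=
    { carrier := {Φ | ∃ P, ∀ n ∈ F.Ω, Φ n = extR (spec F n) P}
      zero_mem' := ⟨0, by simp⟩
      one_mem' := ⟨1, by simp⟩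
      add_mem' := fun ⟨Φ, h⟩ ⟨Ψ, h'⟩ => ⟨Φ + Ψ, fun n hn => by simp [h n hn, h' n hn]⟩
      mul_mem' := fun ⟨Φ, h⟩ ⟨Ψ, h'⟩ => ⟨Φ * Ψ, fun n hn => by simp [h n hn, h' n hn]⟩
      neg_mem' := fun ⟨Φ, h⟩ => ⟨-Φ, fun n hn => by simp [h n hn]⟩ }
  sat f := fun ⟨Φ, h⟩ g hg => ⟨Φ, fun n hn => (hg n hn).trans (h n hn)⟩
  hs b hb := by
    choose Φ hΦ using hb
    exact ⟨hsum Φ, fun n hn => by
      rw [(extR_xl _).hsum]
      exact congrArg hsum (funext fun i => hΦ i n hn)⟩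

variable {F : Frame E U}

theorem Ser.emb {f : ℕ → E⟦X⟧} (hf : f ∈ F.R) : (fun n => emb (f n)) ∈ (Ser σ F).R :=
  ⟨C (MvPolynomial.C ⟨f, hf⟩), fun n _ => by simp [extR_C, spec]⟩

theorem Ser.var (θ : σ) : (fun _ => var θ) ∈ (Ser σ F).R :=
  ⟨C (MvPolynomial.X θ), fun n _ => by simp [extR_C, spec]⟩

theorem Ser.ind {P : (ℕ → (MvPolynomial σ E)⟦X⟧) → Prop}
    (h1 : ∀ f ∈ F.R, P fun n => MP_0cf807_al.emb (f n)) (h2 : ∀ θ, P fun _ => MP_0cf807_al.var θ)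
    (h3 : ∀ Φ ∈ (Ser σ F).R, ∀ Ψ ∈ (Ser σ F).R, P Φ → P Ψ → P (Φ + Ψ))
    (h4 : ∀ Φ ∈ (Ser σ F).R, ∀ Ψ ∈ (Ser σ F).R, P Φ → P Ψ → P (Φ * Ψ))
    (h5 : ∀ b : ℕ → ℕ → (MvPolynomial σ E)⟦X⟧, (∀ i, b i ∈ (Ser σ F).R) → (∀ i, P (b i)) →
      ∀ Φ : ℕ → _, (∀ n ∈ F.Ω, Φ n = hsum fun i => b i n) → P Φ) : ∀ Φ ∈ (Ser σ F).R, P Φ := by
  have h0 : ∀ p, (fun n => spec F n p) ∈ (Ser σ F).R := fun p =>
    ⟨C p, fun n _ => (extR_C _ _).symm⟩
  have : ∀ p, P fun n => spec F n p := fun p => by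
    induction p using MvPolynomial.induction_on with
    | C a => simpa [spec] using h1 a.1 a.2
    | add p q h h' => simpa only [map_add] using! h3 _ (h0 p) _ (h0 q) h h'
    | mul_X p θ h =>
      simpa only [map_mul, spec, MvPolynomial.eval₂Hom_X'] using!
        h4 _ (h0 p) _ (Ser.var θ) h (h2 θ)
  exact fun Φ ⟨P, hP⟩ => h5 _ (fun i => h0 (coeff i P)) (fun i => this _) Φ hP

theorem Ser.mono {G : Frame E U} (h : F ≤ G) : Ser σ F ≤ Ser σ G :=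
  ⟨h.1, Ser.ind (fun _ hf => Ser.emb (h.2 hf)) Ser.var (fun _ _ _ _ => add_mem)
    (fun _ _ _ _ => mul_mem) fun b _ hb Φ hΦ =>
      (Ser σ G).sat _ ((Ser σ G).hs b hb) Φ fun n hn => hΦ n (h.1 hn)⟩

theorem Ser.pd (κ : List σ) : ∀ Φ ∈ (Ser σ F).R, (fun n => lftE (pL κ) (Φ n)) ∈ (Ser σ F).R := by
  classical
  induction κ with
  | nil => simpa [pL_nil] using fun _ h => h
  | cons θ κ ih =>
    simp only [pL_cons, map_mul]
    refine fun Φ hΦ => Ser.ind (P := fun Φ => (fun n => lftE (pP θ) (Φ n)) ∈ (Ser σ F).R)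
      (fun f _ => by simpa only [pd_emb] using! zero_mem _) (fun θ' => ?_)
      (fun _ _ _ _ h h' => by simpa only [Pi.add_apply, map_add] using! add_mem h h')
      (fun _ h1 _ h2 h h' => by
        simpa only [Pi.mul_apply, pd_der θ _] using! add_mem (mul_mem h h2) (mul_mem h1 h'))
      (fun b _ hb Φ hΦ => (Ser σ F).sat _ ((Ser σ F).hs _ hb) _ fun n hn => ?_) _ (ih Φ hΦ)
    · simp only [pd_var]
      split_ifs
      exacts [one_mem _, zero_mem _]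
    · rw [hΦ n hn]
      exact (lft_xl _).hsum _

theorem Ser.tsb {w : ℕ → σ → E⟦X⟧} {t : ℕ → E⟦X⟧} (hw : ∀ θ, (fun n => w n θ) ∈ F.R)
    (ht : t ∈ F.R) : ∀ Φ ∈ (Ser σ F).R, (fun n => tsb (w n) (t n) (Φ n)) ∈ (Ser σ F).R :=
  Ser.ind (fun f hf => by simpa only [tsb_emb] using Ser.emb hf)
    (fun θ => by
      simpa only [tsb_var] using! add_mem (Ser.emb (hw θ)) (mul_mem (Ser.emb ht) (Ser.var θ)))
    (fun _ _ _ _ h h' => by simpa only [Pi.add_apply, map_add] using! add_mem h h')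
    (fun _ _ _ _ h h' => by simpa only [Pi.mul_apply, map_mul] using! mul_mem h h')
    fun b _ hb Φ hΦ => (Ser σ F).sat _ ((Ser σ F).hs _ hb) _ fun n hn => by
      rw [hΦ n hn]
      exact (extR_xl _).hsum _

/-- The coefficient of a monomial. -/
def cf (m : σ →₀ ℕ) : (MvPolynomial σ E)⟦X⟧ →+ E⟦X⟧ := lft (MvPolynomial.coeffAddMonoidHom m)

theorem coeff_cf (m : σ →₀ ℕ) (Φ : (MvPolynomial σ E)⟦X⟧) (k : ℕ) :
    coeff k (cf m Φ) = (coeff k Φ).coeff m := coeff_lft _ _ _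

theorem cf_xl (m : σ →₀ ℕ) : XL (cf (E := E) m) := lft_xl _

theorem cf_ext {Φ Ψ : (MvPolynomial σ E)⟦X⟧} (h : ∀ m, cf m Φ = cf m Ψ) : Φ = Ψ := by
  ext k m
  rw [← coeff_cf, ← coeff_cf, h]

theorem cf_spec (n : ℕ) (m : σ →₀ ℕ) (P : (MvPolynomial σ F.R)⟦X⟧) :
    cf m (extR (spec F n) P) = hsum fun i => ((coeff i P).coeff m).1 n := by
  classical
  rw [extR_apply, (cf_xl m).hsum]
  refine congrArg hsum (funext fun i => ?_)
  induction coeff i P using MvPolynomial.induction_on' with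
  | monomial s a =>
    have : (s.prod fun θ k => var (E := E) θ ^ k) = C (MvPolynomial.monomial s 1) := by
      rw [MvPolynomial.monomial_eq, map_one, one_mul, Finsupp.prod, Finsupp.prod, map_prod]
      simp only [var, map_pow]
    ext k
    rw [spec, MvPolynomial.eval₂Hom_monomial, this, coeff_cf, coeff_mul_C]
    simp only [emb, RingHom.comp_apply, coeff_map, MvPolynomial.coeff_C_mul,
      MvPolynomial.coeff_monomial]
    split_ifs <;> simp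
  | add p q h h' => simp [h, h']

theorem Ser.conv {Φ : ℕ → (MvPolynomial σ E)⟦X⟧} (h : Φ ∈ (Ser σ F).R) (j : ℕ) :
    ∃ M : Finset (σ →₀ ℕ), (j = 0 → M = ∅) ∧
      ∀ m ∉ M, ∃ u ∈ F.R, ∀ n ∈ F.Ω, cf m (Φ n) = X ^ j * u n := by
  classical
  obtain ⟨P, hP⟩ := h
  refine ⟨(Finset.range j).biUnion fun i => (coeff i P).support, by rintro rfl; rfl,
    fun m hm => ⟨_, F.hs _ fun i => ((coeff (i + j) P).coeff m).2, fun n hn => ?_⟩⟩
  rw [hP n hn, cf_spec, hsum_eq_shift _ j fun i hi => ?_]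
  rw [MvPolynomial.notMem_support_iff.1 fun h =>
    hm (Finset.mem_biUnion.2 ⟨i, Finset.mem_range.2 hi, h⟩)]
  rfl

theorem Ser.of_conv {Φ : ℕ → (MvPolynomial σ E)⟦X⟧} (h : ∀ j, ∃ M : Finset (σ →₀ ℕ),
    (j = 0 → M = ∅) ∧ ∀ m ∉ M, ∃ u ∈ F.R, ∀ n ∈ F.Ω, cf m (Φ n) = X ^ j * u n) :
    Φ ∈ (Ser σ F).R := by
  classical
  choose M h0 h using h
  choose! u hu using fun j m (hm : m ∉ M j) => show ∃ u : F.R, ∀ n ∈ F.Ω,
    cf m (Φ n) = X ^ j * u.1 n from (h j m hm).elim fun u hu => ⟨⟨u, hu.1⟩, hu.2⟩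
  let M' : ℕ → Finset (σ →₀ ℕ) := fun j => (Finset.range (j + 1)).biUnion M
  have h1 : ∀ j m, m ∈ M' j ↔ ∃ i ≤ j, m ∈ M i := fun j m => by simp [M', Nat.lt_succ_iff]
  refine ⟨mk fun j => ∑ m ∈ M' (j + 1) \ M' j, MvPolynomial.monomial m (u j m),
    fun n hn => cf_ext fun m => ?_⟩
  simp only [cf_spec, coeff_mk, MvPolynomial.coeff_sum, MvPolynomial.coeff_monomial,
    Finset.sum_ite_eq', Finset.mem_sdiff, h1]
  by_cases hm : ∃ i, m ∈ M i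
  · obtain ⟨k, hk⟩ : ∃ k, Nat.find hm = k + 1 := Nat.exists_eq_succ_of_ne_zero fun h => by
      simpa [h, h0] using Nat.find_spec hm
    have h2 : ∀ j, (∃ i ≤ j, m ∈ M i) ↔ k + 1 ≤ j := fun j => by rw [← hk, Nat.find_le_iff]
    simp only [h2]
    rw [hsum_single _ k fun i hi => by rw [if_neg (by omega)]; rfl, if_pos (by omega)]
    exact hu k m (Nat.find_min hm (by omega)) n hn
  · push Not at hm
    simp only [hm, and_false, exists_false, false_and, if_false]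
    exact (eq_zero_of_dvd fun j => ⟨_, hu j m (hm j) n hn⟩).trans hsum_zero.symm

variable {𝒟 : Subring (AddMonoid.End E⟦X⟧)} {Δ : Set (AddMonoid.End E⟦X⟧)}

theorem GC.content (h : Ops 𝒟 Δ) (hF : GC 𝒟 Δ F) {c : Set (ℕ → (MvPolynomial σ E)⟦X⟧)}
    (hc : ∀ Φ ∈ c, Φ ∈ (Ser σ F).R) : ∃ G, GC 𝒟 Δ G ∧ F ≤ G ∧ Concl c (Ser σ G) := by
  choose! M hM₀ hM using fun Φ (h : Φ ∈ c) => Ser.conv (hc Φ h)
  have h0 : ∀ Φ ∈ c, ∀ m, (fun n => cf m (Φ n)) ∈ F.R := fun Φ hΦ m => by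
    obtain ⟨u, hu, hu'⟩ := hM Φ hΦ 0 m (by simp [hM₀ Φ hΦ])
    exact F.sat u hu _ fun n hn => by simpa using hu' n hn
  obtain ⟨G₁, hG₁, h1, h2⟩ := hF.n1 h (c := {u | u ∈ F.R ∧ ∃ Φ ∈ c, ∃ j m,
    ∀ n ∈ F.Ω, cf m (Φ n) = X ^ j * u n ∧ m ∉ M Φ j}) fun u hu => hu.1
  obtain ⟨G₂, hG₂, h3, h4⟩ := hG₁.n1 h (c := {u | ∃ Φ ∈ c, ∃ m, u = fun n => cf m (Φ n)})
    (by rintro _ ⟨Φ, hΦ, m, rfl⟩; exact h1.2 (h0 Φ hΦ m))
  rcases h4 with h4 | ⟨N, h4, _, ⟨Φ₁, hΦ₁, m₁, rfl⟩, h5⟩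
  · exact ⟨G₂, hG₂, h1.trans h3, Or.inl fun Φ hΦ n hn => cf_ext fun m =>
      (h4 _ ⟨Φ, hΦ, m, rfl⟩ n hn).trans (map_zero _).symm⟩
  have h6 : ∀ Φ ∈ c, ∀ m n, n ∈ F.Ω → cf m (Φ n) = X ^ 0 * cf m (Φ n) ∧ m ∉ M Φ 0 :=
    fun Φ hΦ m n _ => by simp [hM₀ Φ hΦ]
  rcases h2 with h2 | ⟨L, h2, u, ⟨-, Φ₀, hΦ₀, j₀, m₀, h7⟩, h8⟩
  · obtain ⟨n, hn, hn'⟩ := (h5.and G₁.ev).exists
    simp [h2 _ ⟨h0 _ hΦ₁ m₁, _, hΦ₁, 0, m₁, h6 _ hΦ₁ m₁⟩ n hn'] at hn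
  obtain ⟨j, -, h9⟩ := (U.eventually_exists_mem_iff (P := fun j n => N n = L n + j)
    (Set.finite_le_nat j₀)).1 (by
      obtain ⟨v, -, hv⟩ := h2 _ ⟨h0 _ hΦ₁ m₁, _, hΦ₁, 0, m₁, h6 _ hΦ₁ m₁⟩
      obtain ⟨v', -, hv'⟩ := h4 _ ⟨_, hΦ₀, m₀, rfl⟩
      filter_upwards [h5, h8, G₂.ev] with n e1 e2 hn
      have e3 := le_of_dvd ⟨_, hv n (h3.1 hn)⟩ e1
      have e4 := le_of_dvd (l := L n + j₀) ⟨_, hv' n hn⟩ (by
        rwa [(h7 n ((h1.trans h3).1 hn)).1, coeff_X_pow_mul])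
      exact ⟨N n - L n, show _ ≤ _ by omega, by omega⟩)
  obtain ⟨G, hG, h10, h11⟩ := hG₂.restrict h h9
  refine ⟨G, hG, (h1.trans h3).trans h10, Or.inr ⟨N, fun Φ hΦ => ?_, Φ₁, hΦ₁,
    h5.mono fun n hn e => hn (by rw [coeff_cf, e]; rfl)⟩⟩
  choose! Ψ hΨ using fun n (hn : n ∈ G.Ω) => show X ^ N n ∣ Φ n from
    X_pow_dvd_iff.2 fun k hk => MvPolynomial.ext _ _ fun m => by
      obtain ⟨v, -, hv⟩ := h4 _ ⟨Φ, hΦ, m, rfl⟩
      rw [← coeff_cf]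
      exact X_pow_dvd_iff.1 ⟨_, hv n (h10.1 hn)⟩ k hk
  refine ⟨Ψ, Ser.of_conv fun i => ?_, hΨ⟩
  rcases eq_or_ne i 0 with rfl | hi
  · refine ⟨∅, fun _ => rfl, fun m _ => ?_⟩
    obtain ⟨v, hv, hv'⟩ := h4 _ ⟨Φ, hΦ, m, rfl⟩
    exact ⟨v, h10.2 hv, fun n hn => X_pow_mul_cancel (k := N n) (by
      rw [← (cf_xl m).pow, ← hΨ n hn, hv' n (h10.1 hn), pow_zero, one_mul])⟩
  · refine ⟨M Φ (i + j), fun h => (hi h).elim, fun m hm => ?_⟩
    obtain ⟨v, hv, hv'⟩ := hM Φ hΦ _ m hm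
    obtain ⟨v', hv1, hv2⟩ := h2 v ⟨hv, Φ, hΦ, _, m, fun n hn => ⟨hv' n hn, hm⟩⟩
    refine ⟨v', (h3.trans h10).2 hv1, fun n hn => X_pow_mul_cancel (k := N n) ?_⟩
    rw [← (cf_xl m).pow, ← hΨ n hn, hv' n (((h1.trans h3).trans h10).1 hn),
      hv2 n ((h3.trans h10).1 hn), h11 n hn]
    ring

end Pool.Agent.P.MP_0cf807_al
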