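import Pool.Agent.P.MP_0cf807_al.ZLevels

/-!
A differential field on which all nonzero linear differential operators are onto.
-/

set_option autoImplicit false

noncomputable section

namespace Pool.Agent.P.MP_0cf807_al

open PowerSeries

section
variable {A : Type} [CommRing A]

/-- The derivative as an operator. -/
def dX : AddMonoid.End A⟦X⟧ := (derivative A).toLinearMap.toAddMonoidHom

theorem coeff_dX (f : A⟦X⟧) (n : ℕ) : coeff n (dX f) = (n + 1) • coeff (n + 1) f := by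
  change coeff n (derivative A f) = _
  rw [coeff_derivative, nsmul_eq_mul, mul_comm, Nat.cast_succ]

theorem dX_der : IsDer (dX (A := A)) := fun f g => by
  change derivative A _ = derivative A f * g + f * derivative A g
  rw [Derivation.leibniz, smul_eq_mul, smul_eq_mul, add_comm, mul_comm]

theorem lftE_dX (e : AddMonoid.End A) : Commute (lftE e) dX := by
  ext f n
  change coeff n (lft e (dX f)) = coeff n (dX (lft e f))
  rw [coeff_lft, coeff_dX, coeff_dX, coeff_lft, map_nsmul]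

variable [Algebra ℚ A]

/-- The Taylor series as an additive map. -/
def tayA (d : AddMonoid.End A) : A →+ A⟦X⟧ where
  toFun a := mk fun k => (k.factorial : ℚ)⁻¹ • (d ^ k) a
  map_zero' := by ext; simp
  map_add' a b := by ext; simp

theorem coeff_tayA (d : AddMonoid.End A) (a : A) (k : ℕ) :
    coeff k (tayA d a) = (k.factorial : ℚ)⁻¹ • (d ^ k) a :=
  coeff_mk k fun k => (k.factorial : ℚ)⁻¹ • (d ^ k) a

theorem dX_tayA (d : AddMonoid.End A) (a : A) : dX (tayA d a) = tayA d (d a) := by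
  ext k
  rw [coeff_dX, coeff_tayA, coeff_tayA, ← Nat.cast_smul_eq_nsmul ℚ, smul_smul, pow_succ,
    Nat.factorial_succ, Nat.cast_mul, mul_inv, mul_inv_cancel_left₀ (by positivity)]
  rfl

theorem lftE_tayA {d e : AddMonoid.End A} (h : Commute e d) (a : A) :
    lftE e (tayA d a) = tayA d (e a) := by
  ext k
  rw [lftE_apply, coeff_lft, coeff_tayA, coeff_tayA, map_rat_smul]
  exact congrArg _ (DFunLike.congr_fun (h.pow_right k).eq a)

/-- The Taylor series. -/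
def tay (d : AddMonoid.End A) (hd : IsDer d) : A →+* A⟦X⟧ where
  __ := tayA d
  map_one' := by
    ext k
    refine (coeff_tayA d 1 k).trans ?_
    cases k <;> simp [pow_succ, hd.one, coeff_one]
  map_mul' a b := by
    ext k
    change coeff k (tayA d _) = coeff k (tayA d a * tayA d b)
    induction k generalizing a b with
    | zero => simp [coeff_tayA, coeff_mul]
    | succ k ih =>
      have h : ∀ x y : A, (k + 1) • x = (k + 1) • y → x = y := fun x y h => by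
        simpa [← Nat.cast_smul_eq_nsmul ℚ, smul_smul, Nat.cast_add_one_ne_zero] using
          congrArg (((k + 1 : ℕ) : ℚ)⁻¹ • ·) h
      refine h _ _ ?_
      rw [← coeff_dX, ← coeff_dX, dX_der, dX_tayA, dX_tayA, dX_tayA, hd, map_add, map_add, map_add,
        ih, ih]

theorem constantCoeff_tay (d : AddMonoid.End A) (hd : IsDer d) (a : A) :
    constantCoeff (tay d hd a) = a := by
  simpa using! coeff_tayA d a 0

/-- Integration. -/
def intg : AddMonoid.End A⟦X⟧ where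
  toFun f := X * mk fun n => ((n + 1 : ℕ) : ℚ)⁻¹ • coeff n f
  map_zero' := by ext n; cases n <;> simp [coeff_succ_X_mul]
  map_add' f g := by ext n; cases n <;> simp [coeff_succ_X_mul]

theorem dX_intg : dX * intg = (1 : AddMonoid.End A⟦X⟧) := by
  ext f n
  change coeff n (dX (X * mk _)) = coeff n f
  rw [coeff_dX, coeff_succ_X_mul, coeff_mk, ← Nat.cast_smul_eq_nsmul ℚ, smul_smul,
    mul_inv_cancel₀ (by positivity), one_smul]

theorem intg_dvd {k : ℕ} {f : A⟦X⟧} (h : X ^ k ∣ f) (j : ℕ) : X ^ (k + j) ∣ (intg ^ j) f := by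
  induction j with
  | zero => exact h
  | succ j ih =>
    rw [← add_assoc, pow_succ', pow_succ']
    exact mul_dvd_mul_left X (X_pow_dvd_iff.2 fun m hm => (coeff_mk _ _).trans
      ((congrArg _ (X_pow_dvd_iff.1 ih m hm)).trans (smul_zero _)))

theorem ck_fin {ι : Type} (V : Finset ι) (deg : ι → ℕ) (Q : ι → AddMonoid.End A⟦X⟧)
    (hQ : ∀ θ, XL (Q θ)) (r : ℕ) (hr : ∀ θ ∈ V, deg θ ≤ r)
    (hs : ∀ m, ∃ v, X ∣ m - ∑ θ ∈ V with deg θ = r, Q θ v) (g : A⟦X⟧) :
    ∃ f, ∑ θ ∈ V, Q θ ((dX ^ deg θ) f) = g := by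
  obtain ⟨f, hf, -⟩ := newton (fun f => ∑ θ ∈ V, Q θ ((intg ^ (r - deg θ)) f) - g)
    (fun k x y h => by
      rw [sub_sub_sub_cancel_right, ← Finset.sum_sub_distrib]
      exact Finset.dvd_sum fun θ _ => by
        rw [← map_sub, ← map_sub]
        exact (hQ θ).dvd ((pow_dvd_pow X (Nat.le_add_right _ _)).trans (intg_dvd h _)))
    (fun k x ⟨m, hm⟩ => by
      obtain ⟨v, s, hv⟩ := hs (-m)
      obtain ⟨t, ht⟩ : X ^ (k + 1) ∣ ∑ θ ∈ V with ¬ deg θ = r,
          Q θ ((intg ^ (r - deg θ)) (X ^ k * v)) := Finset.dvd_sum fun θ h =>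
        (hQ θ).dvd ((pow_dvd_pow X (by
          have := hr θ (Finset.mem_filter.1 h).1
          have := (Finset.mem_filter.1 h).2
          omega)).trans (intg_dvd (dvd_mul_right _ v) _))
      refine ⟨v, t - s, ?_⟩
      simp only [map_add, Finset.sum_add_distrib]
      rw [← Finset.sum_filter_add_sum_filter_not V (deg · = r) fun θ => Q θ ((intg ^ (r - deg θ))
        (X ^ k * v)), ht, Finset.sum_congr rfl fun θ (h : θ ∈ V.filter (deg · = r)) =>
        show _ = X ^ k * Q θ v by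
          rw [(Finset.mem_filter.1 h).2, Nat.sub_self, pow_zero, ← (hQ θ).pow]; rfl,
        ← Finset.mul_sum]
      linear_combination hm - X ^ k * hv) 0
  refine ⟨(intg ^ r) f, (Finset.sum_congr rfl fun θ h => ?_).trans (sub_eq_zero.1 hf)⟩
  obtain ⟨k, rfl⟩ := Nat.exists_eq_add_of_le (hr θ h)
  have : ∀ j, dX ^ j * intg ^ (j + k) = (intg ^ k : AddMonoid.End A⟦X⟧) := fun j => by
    induction j with
    | zero => simp
    | succ j ih => rw [pow_succ, add_right_comm, pow_succ' intg, mul_assoc, ← mul_assoc dX,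
        dX_intg, one_mul, ih]
  rw [Nat.add_sub_cancel_left, ← this (deg θ)]
  rfl

end

open TrivSqZeroExt in
theorem exists_ext_der {A F : Type} [CommRing A] [Field F] [Algebra A F] [IsFractionRing A F]
    {d : AddMonoid.End A} (hd : IsDer d) :
    ∃ D : AddMonoid.End F, IsDer D ∧ ∀ a, D (algebraMap A F a) = algebraMap A F (d a) := by
  obtain ⟨ψ, h1, h2⟩ : ∃ ψ : A →+* DualNumber F, (∀ a, (ψ a).fst = algebraMap A F a) ∧
      ∀ a, (ψ a).snd = algebraMap A F (d a) :=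
    ⟨{ toFun := fun a => inl (algebraMap A F a) + inr (algebraMap A F (d a))
       map_one' := by ext <;> simp [hd.one]
       map_mul' := fun a b => by
         ext <;> simp [-DualNumber.inr_eq_smul_eps, hd a b, add_comm, mul_comm]
       map_zero' := by ext <;> simp
       map_add' := fun a b => by ext <;> simp [-DualNumber.inr_eq_smul_eps] }, by simp,
      by simp [-DualNumber.inr_eq_smul_eps]⟩
  have hψ : ∀ y : nonZeroDivisors A, IsUnit (ψ y) := fun y =>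
    isUnit_iff_isUnit_fst.2 (h1 y ▸ IsLocalization.map_units F y)
  obtain ⟨L, h3⟩ : ∃ L : F →+* DualNumber F, ∀ a, L (algebraMap A F a) = ψ a :=
    ⟨_, IsLocalization.lift_eq hψ⟩
  have h4 : ∀ x, (L x).fst = x := fun x => DFunLike.congr_fun (IsLocalization.ringHom_ext
    (nonZeroDivisors A) (j := (fstHom F F F).toRingHom.comp L) (k := RingHom.id F)
    (RingHom.ext fun a => by simp [h3, h1])) x
  refine ⟨AddMonoidHom.mk' (fun x => (L x).snd) (by simp), fun x y => ?_, fun a => ?_⟩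
  · change (L _).snd = (L x).snd * y + x * (L y).snd
    simp [h4, add_comm, mul_comm]
  · exact h2 a ▸ congrArg snd (h3 a)

/-- Fields of characteristic zero with two commuting derivations. -/
structure DF : Type 1 where
  E : Type
  [f : Field E]
  [c : CharZero E]
  d₁ : AddMonoid.End E
  d₂ : AddMonoid.End E
  h₁ : IsDer d₁
  h₂ : IsDer d₂
  hc : Commute d₁ d₂

attribute [instance] DF.f DF.c

theorem exists_frac {A : Type} [CommRing A] [IsDomain A] [CharZero A] {d₁ d₂ : AddMonoid.End A}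
    (h₁ : IsDer d₁) (h₂ : IsDer d₂) (hc : Commute d₁ d₂) : ∃ (C : DF) (φ : A →+* C.E),
      Function.Injective φ ∧ (∀ x, C.d₁ (φ x) = φ (d₁ x)) ∧ ∀ x, C.d₂ (φ x) = φ (d₂ x) := by
  obtain ⟨D₁, k₁, e₁⟩ := exists_ext_der (F := FractionRing A) h₁
  obtain ⟨D₂, k₂, e₂⟩ := exists_ext_der (F := FractionRing A) h₂
  refine ⟨⟨_, D₁, D₂, k₁, k₂, AddMonoidHom.ext fun x => ?_⟩, algebraMap _ _,
    IsFractionRing.injective _ _, e₁, e₂⟩
  obtain ⟨a, b, hb, rfl⟩ := IsFractionRing.div_surjective (A := A) x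
  have hb' : algebraMap A (FractionRing A) b ≠ 0 :=
    IsFractionRing.to_map_ne_zero_of_mem_nonZeroDivisors hb
  have h0 : ∀ a, D₁ (D₂ (algebraMap A _ a)) = D₂ (D₁ (algebraMap A _ a)) := fun a => by
    rw [e₁, e₂, e₁, e₂]
    exact congrArg _ (DFunLike.congr_fun hc.eq a)
  have h1 := h0 a
  rw [← div_mul_cancel₀ (algebraMap A _ a) hb', k₁, k₂, map_add, map_add, k₁, k₁, k₂, k₂,
    h0 b] at h1
  refine mul_right_cancel₀ hb' ?_
  change D₁ (D₂ _) * _ = D₂ (D₁ _) * _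
  linear_combination h1

theorem pow_semiconj {A B : Type} [AddCommGroup A] [AddCommGroup B] {φ : A → B}
    {d₁ d₂ : AddMonoid.End A} {D₁ D₂ : AddMonoid.End B} (e₁ : ∀ x, D₁ (φ x) = φ (d₁ x))
    (e₂ : ∀ x, D₂ (φ x) = φ (d₂ x)) (i j : ℕ) (x : A) :
    (D₁ ^ i * D₂ ^ j) (φ x) = φ ((d₁ ^ i * d₂ ^ j) x) :=
  (((Function.Semiconj.iterate_right (fun x => (e₁ x).symm) i).comp_right
    (Function.Semiconj.iterate_right (fun x => (e₂ x).symm) j)) x).symm

theorem DF.step (B : DF) : ∃ (C' : DF) (φ : B.E →+* C'.E), (∀ x, C'.d₁ (φ x) = φ (B.d₁ x)) ∧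
    (∀ x, C'.d₂ (φ x) = φ (B.d₂ x)) ∧ ∀ (V : Finset (ℕ × ℕ)) (a : ℕ × ℕ → B.E),
      (∃ θ ∈ V, a θ ≠ 0) → ∀ m, ∃ y, ∑ θ ∈ V, φ (a θ) * (C'.d₁ ^ θ.1 * C'.d₂ ^ θ.2) y = φ m := by
  classical
  have : CharZero B.E⟦X⟧⟦X⟧ := charZero_of_injective_ringHom
    (f := PowerSeries.C.comp PowerSeries.C) (C_injective.comp C_injective)
  obtain ⟨C', φ, -, e₁, e₂⟩ := exists_frac (A := B.E⟦X⟧⟦X⟧) (d₁ := lftE dX) (d₂ := dX)
    dX_der.lft dX_der (lftE_dX _)
  let T₁ := tay B.d₁ B.h₁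
  let T₂ := tay (lftE B.d₂) B.h₂.lft
  refine ⟨C', φ.comp (T₂.comp T₁), fun x => (e₁ _).trans (congrArg φ ((lftE_tayA
    (lftE_dX _).symm _).trans (congrArg T₂ (dX_tayA _ _)))), fun x => (e₂ _).trans (congrArg φ
    ((dX_tayA _ _).trans (congrArg T₂ (lftE_tayA B.hc.symm _)))), fun V a ⟨θ₀, h₀, h₀'⟩ m => ?_⟩
  obtain ⟨θ₁, h1, h2⟩ := (V.filter (a · ≠ 0)).exists_max_image (·.2)
    ⟨θ₀, Finset.mem_filter.2 ⟨h₀, h₀'⟩⟩
  obtain ⟨θ₂, h3, h4⟩ := ((V.filter (a · ≠ 0)).filter (·.2 = θ₁.2)).exists_max_image (·.1)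
    ⟨θ₁, Finset.mem_filter.2 ⟨h1, rfl⟩⟩
  obtain ⟨y, hy⟩ := ck_fin (V.filter (a · ≠ 0)) (·.2)
    (fun θ => AddMonoid.End.mulLeft (T₂ (T₁ (a θ))) * lftE (dX ^ θ.1)) (fun θ f => by
      change _ * lft (dX ^ θ.1) _ = X * (_ * lft (dX ^ θ.1) f)
      rw [lft_xl, mul_left_comm]) θ₁.2 h2 (fun m => by
      obtain ⟨v, hv⟩ := ck_fin ((V.filter (a · ≠ 0)).filter (·.2 = θ₁.2)) (·.1)
        (fun θ => AddMonoid.End.mulLeft (T₁ (a θ))) (fun θ f => mul_left_comm _ _ _) θ₂.1 h4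
        (fun m => ⟨C ((a θ₂)⁻¹ * constantCoeff m), by
          rw [Finset.sum_eq_single θ₂ (fun θ h h' =>
            (h' (Prod.ext (Finset.mem_filter.1 h).2 ((Finset.mem_filter.1
            (Finset.mem_filter.1 h).1).2.trans (Finset.mem_filter.1 h3).2.symm))).elim)
            fun h => (h (Finset.mem_filter.2 ⟨h3, rfl⟩)).elim]
          change X ∣ m - T₁ _ * _
          simp [X_dvd_iff, T₁, constantCoeff_tay,
            (Finset.mem_filter.1 (Finset.mem_filter.1 h3).1).2]⟩) (constantCoeff m)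
      refine ⟨C v, X_dvd_iff.2 ?_⟩
      rw [map_sub, ← hv, map_sum, sub_eq_zero]
      refine Finset.sum_congr rfl fun θ _ => ?_
      change _ = constantCoeff (_ * lft (dX ^ θ.1 : AddMonoid.End B.E⟦X⟧) _)
      rw [lft_C, map_mul, constantCoeff_tay, constantCoeff_C]
      rfl) (T₂ (T₁ m))
  refine ⟨φ y, ?_⟩
  rw [← Finset.sum_filter_of_ne (p := (a · ≠ 0)) fun θ _ h h' => h (by simp [h'])]
  refine Eq.trans ?_ (congrArg φ hy)
  rw [map_sum]
  refine Finset.sum_congr rfl fun θ _ => ?_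
  rw [pow_semiconj e₁ e₂, ← map_pow]
  exact (map_mul φ _ _).symm

theorem exists_chain (G : ℕ → Type) [∀ i, Field (G i)] (g : ∀ i, G i →+* G (i + 1)) :
    ∃ f : ∀ i j : ℕ, i ≤ j → (G i →+* G j), (∀ i x, f i i le_rfl x = x) ∧
      ∀ i j (h : i ≤ j) x, f i (j + 1) (h.trans j.le_succ) x = g j (f i j h x) :=
  ⟨fun i _ h => Nat.leRec (motive := fun j _ => G i →+* G j) (RingHom.id _)
    (fun k _ e => (g k).comp e) h, fun i x => by simp, fun i j h x => by
      dsimp only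
      rw [Nat.leRec_succ _ _ h]
      rfl⟩

/-- Iteration of a construction. -/
def DF.chain (nx : DF → DF) (C₀ : DF) : ℕ → DF
  | 0 => C₀
  | n + 1 => nx (DF.chain nx C₀ n)

theorem DF.univ (C₀ : DF) : ∃ (C : DF) (φ : C₀.E →+* C.E), (∀ x, C.d₁ (φ x) = φ (C₀.d₁ x)) ∧
    (∀ x, C.d₂ (φ x) = φ (C₀.d₂ x)) ∧ LS C.d₁ C.d₂ := by
  choose nx φ e₁ e₂ hs using DF.step
  let G : ℕ → DF := DF.chain nx C₀
  obtain ⟨f, f0, f1⟩ := exists_chain (fun i => (G i).E) fun i => φ (G i)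
  have : DirectedSystem (fun i => (G i).E) (f · · ·) := ⟨f0, fun k j i hij hjk x => by
    induction k, hjk using Nat.le_induction with
    | base => exact f0 _ _
    | succ k h ih => rw [f1 _ _ h, f1 _ _ (hij.trans h), ih]⟩
  have key : ∀ d : ∀ C : DF, AddMonoid.End C.E, (∀ C x, d (nx C) (φ C x) = φ C (d C x)) →
      ∃ D : AddMonoid.End (DirectLimit (fun i => (G i).E) f), ∀ i x,
        D (DirectLimit.Ring.of _ f i x) = DirectLimit.Ring.of _ f i (d (G i) x) := fun d h =>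
    ⟨AddMonoidHom.mk' (DirectLimit.map f f (fun i => d (G i)) fun i j hij x => by
      induction j, hij using Nat.le_induction with
      | base => rw [f0, f0]
      | succ k hk ih => rw [f1 _ _ hk, f1 _ _ hk, ih]; exact (h _ _).symm)
      (DirectLimit.induction₂ _ fun i x y => by
        simp only [DirectLimit.add_def, DirectLimit.map_def, map_add]), fun _ _ => rfl⟩
  obtain ⟨D₁, k₁⟩ := key DF.d₁ e₁
  obtain ⟨D₂, k₂⟩ := key DF.d₂ e₂
  have : CharZero (DirectLimit (fun i => (G i).E) f) :=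
    charZero_of_injective_ringHom (DirectLimit.Ring.of _ f 0).injective
  have der : ∀ (d : ∀ i, AddMonoid.End (G i).E) (D : AddMonoid.End _), (∀ i, IsDer (d i)) →
      (∀ i x, D (DirectLimit.Ring.of _ f i x) = DirectLimit.Ring.of _ f i (d i x)) → IsDer D :=
    fun d D h k => DirectLimit.induction₂ _ fun i x y => by
      have := k i (x * y)
      rwa [h i, RingHom.map_mul, RingHom.map_add, RingHom.map_mul, RingHom.map_mul, ← k,
        ← k] at this
  refine ⟨⟨_, D₁, D₂, der _ _ (fun i => (G i).h₁) k₁, der _ _ (fun i => (G i).h₂) k₂,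
    AddMonoidHom.ext (DirectLimit.induction _ fun i x => ?_)⟩, DirectLimit.Ring.of _ f 0, k₁ 0,
    k₂ 0, ?_⟩
  swap
  · change D₁ (D₂ (DirectLimit.Ring.of _ f i x)) = D₂ (D₁ (DirectLimit.Ring.of _ f i x))
    rw [k₁, k₂, k₁, k₂]
    exact congrArg _ (DFunLike.congr_fun (G i).hc.eq x)
  have mk : ∀ i j (h : i ≤ j) x, DirectLimit.Ring.of _ f j (f i j h x) =
    DirectLimit.Ring.of _ f i x := fun i j h x => DirectLimit.Ring.of_f (f := f) h x
  change LS D₁ D₂
  rintro V a ⟨θ₀, h₀, h₀'⟩ m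
  obtain ⟨i, -, -, h⟩ := finite_iter (P := fun _ : ℕ => True)
    (Q := fun x i => ∃ y, DirectLimit.Ring.of _ f i y = x)
    (fun _ i j h ⟨y, hy⟩ => ⟨f i j h y, (mk i j h y).trans hy⟩)
    ((V.finite_toSet.image a).insert m) (fun x _ i _ => by
      obtain ⟨j, y, rfl⟩ := DirectLimit.exists_eq_mk f x
      exact ⟨max i j, trivial, le_max_left _ _, _, mk _ _ (le_max_right i j) y⟩)
    (a := 0) trivial
  obtain ⟨m, rfl⟩ := h m (Set.mem_insert _ _)
  choose! b hb using fun θ (hθ : θ ∈ V) => h _ (Set.mem_insert_of_mem _ ⟨θ, hθ, rfl⟩)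
  obtain ⟨y, hy⟩ := hs (G i) V b ⟨θ₀, h₀, fun h => h₀' (by rw [← hb _ h₀, h, map_zero])⟩ m
  have e : ∀ x, DirectLimit.Ring.of _ f (i + 1) (φ (G i) x) = DirectLimit.Ring.of _ f i x :=
    fun x => by rw [← mk i (i + 1) i.le_succ x, f1 _ _ le_rfl, f0]; rfl
  refine ⟨DirectLimit.Ring.of _ f (i + 1) y, ?_⟩
  rw [← e, ← hy]
  refine Eq.trans (Finset.sum_congr rfl fun θ h => ?_) (map_sum _ _ _).symm
  rw [← hb θ h, ← e]
  exact (congrArg _ (pow_semiconj (k₁ _) (k₂ _) _ _ _)).trans (map_mul _ _ _).symm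

theorem exists_universal (K : Type) [Field K] [CharZero K] : ∃ (C : DF) (k : K →+* C.E)
    (α β y : C.E), LS C.d₁ C.d₂ ∧ (∀ a, C.d₁ (k a) = 0) ∧ (∀ a, C.d₂ (k a) = 0) ∧ α ≠ 0 ∧ β ≠ 0 ∧
      y ≠ 0 ∧ C.d₁ α = y * α ∧ C.d₁ β = 0 ∧ C.d₁ y = y ∧ C.d₂ α = α ∧ C.d₂ β = β := by
  let D₁ := MvPolynomial.mkDerivation K (σ := Fin 3) (A := MvPolynomial (Fin 3) K)
    ![MvPolynomial.X 2 * MvPolynomial.X 0, 0, MvPolynomial.X 2]
  let D₂ := MvPolynomial.mkDerivation K (σ := Fin 3) (A := MvPolynomial (Fin 3) K)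
    ![MvPolynomial.X 0, MvPolynomial.X 1, 0]
  have der : ∀ D : Derivation K (MvPolynomial (Fin 3) K) (MvPolynomial (Fin 3) K), IsDer D :=
    fun D a b => by simp [add_comm, mul_comm]
  have hc : ⁅D₁, D₂⁆ = 0 := MvPolynomial.derivation_ext fun i => by
    fin_cases i <;> simp [D₁, D₂, Derivation.commutator_apply, MvPolynomial.mkDerivation_X]
  obtain ⟨C₀, ψ, hψ, e₁, e₂⟩ := exists_frac (d₁ := D₁.toLinearMap.toAddMonoidHom)
    (d₂ := D₂.toLinearMap.toAddMonoidHom) (der D₁) (der D₂) (AddMonoidHom.ext fun x =>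
      sub_eq_zero.1 (DFunLike.congr_fun hc x))
  replace e₁ : ∀ x, C₀.d₁ (ψ x) = ψ (D₁ x) := e₁
  replace e₂ : ∀ x, C₀.d₂ (ψ x) = ψ (D₂ x) := e₂
  obtain ⟨C, φ, k₁, k₂, h⟩ := C₀.univ
  have h0 : ∀ i, φ (ψ (MvPolynomial.X i)) ≠ 0 := fun i =>
    (map_ne_zero φ).2 ((map_ne_zero_iff ψ hψ).2 (MvPolynomial.X_ne_zero i))
  refine ⟨C, φ.comp (ψ.comp MvPolynomial.C), _, _, _, h, fun a => ?_, fun a => ?_, h0 0, h0 1,
    h0 2, ?_, ?_, ?_, ?_, ?_⟩ <;>
  simp [k₁, k₂, e₁, e₂, D₁, D₂, MvPolynomial.mkDerivation_X]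

end Pool.Agent.P.MP_0cf807_al
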